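import Pool.Agent.Lib.MP_d1aba8_pr.Mix

namespace Pool.Agent.MP_d1aba8_pr

open scoped BigOperators Topology
open Filter

/-- register length minus one -/
def lk (k : ℕ) : ℕ := k ^ 2 + 2 * k - 1

/-- probability of a zero -/
noncomputable def qk (k : ℕ) : ℝ := (3 / 4 : ℝ) ^ (((k ^ 2 : ℕ) : ℝ)⁻¹)

/-- probability of a one -/
noncomputable def pk (k : ℕ) : ℝ := 1 - qk k

lemma lk_succ {k : ℕ} (hk : 1 ≤ k) : lk k + 1 = k ^ 2 + 2 * k := by
  unfold lk
  have : 1 ≤ k ^ 2 + 2 * k := by nlinarith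
  omega

lemma qk_pow {k : ℕ} (hk : 1 ≤ k) : qk k ^ (k ^ 2) = 3 / 4 := by
  unfold qk
  exact Real.rpow_inv_natCast_pow (by norm_num) (by positivity)

lemma qk_pos (k : ℕ) : 0 < qk k := by unfold qk; positivity

lemma qk_lt_one {k : ℕ} (hk : 1 ≤ k) : qk k < 1 := by
  by_contra h
  push Not at h
  have := one_le_pow₀ h (n := k ^ 2)
  rw [qk_pow hk] at this
  norm_num at this

lemma pk_pos {k : ℕ} (hk : 1 ≤ k) : 0 < pk k := by
  have := qk_lt_one hk; unfold pk; linarith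

lemma pk_lt_one (k : ℕ) : pk k < 1 := by
  have := qk_pos k; unfold pk; linarith

lemma one_sub_pk (k : ℕ) : 1 - pk k = qk k := by unfold pk; ring

/-- `p k^2 ≤ 1/3` -/
lemma pk_bound {k : ℕ} (hk : 1 ≤ k) : pk k ≤ 1 / (3 * (k : ℝ) ^ 2) := by
  have hk0 : (0 : ℝ) < (k : ℝ) ^ 2 := by positivity
  have h1 : 1 + ((k ^ 2 : ℕ) : ℝ) * pk k ≤ (1 + pk k) ^ (k ^ 2) :=
    one_add_mul_le_pow (by have := pk_pos hk; linarith) _
  have h2 : qk k ^ (k ^ 2) * (1 + pk k) ^ (k ^ 2) ≤ 1 := by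
    rw [← mul_pow]
    refine pow_le_one₀ ?_ ?_
    · have := qk_pos k; have := pk_pos hk; positivity
    · have h3 : qk k = 1 - pk k := by unfold pk; ring
      rw [h3]
      nlinarith [sq_nonneg (pk k)]
  rw [qk_pow hk] at h2
  push_cast at h1
  rw [le_div_iff₀ (by positivity)]
  nlinarith

lemma qk_pow_lower {k : ℕ} (hk : 1 ≤ k) (j : ℕ) :
    1 - (j : ℝ) / (3 * (k : ℝ) ^ 2) ≤ qk k ^ j := by
  have h1 : 1 + (j : ℝ) * (-pk k) ≤ (1 + (-pk k)) ^ j :=
    one_add_mul_le_pow (by have := pk_lt_one k; linarith) _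
  have h2 : (1 + (-pk k)) = qk k := by unfold pk; ring
  rw [h2] at h1
  have h3 := mul_le_mul_of_nonneg_left (pk_bound hk) (Nat.cast_nonneg (α := ℝ) j)
  have h4 : (j : ℝ) * (1 / (3 * (k : ℝ) ^ 2)) = (j : ℝ) / (3 * (k : ℝ) ^ 2) := by ring
  linarith

lemma qk_pow_k {k : ℕ} (hk : 1 ≤ k) : qk k ^ k ≤ 1 - 1 / (5 * (k : ℝ)) := by
  by_contra h
  push Not at h
  have hk0 : (0 : ℝ) < k := by exact_mod_cast hk
  have hk1 : (1 : ℝ) ≤ k := by exact_mod_cast hk
  have h1 : (0 : ℝ) ≤ 1 - 1 / (5 * (k : ℝ)) := by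
    have : 1 / (5 * (k : ℝ)) ≤ 1 := by
      rw [div_le_one (by positivity)]; linarith
    linarith
  have h2 : 1 + (k : ℝ) * (-(1 / (5 * (k : ℝ)))) ≤ (1 + (-(1 / (5 * (k : ℝ))))) ^ k :=
    one_add_mul_le_pow (by
      have : 1 / (5 * (k : ℝ)) ≤ 1 := by
        rw [div_le_one (by positivity)]; linarith
      linarith) _
  have h3 : (k : ℝ) * (-(1 / (5 * (k : ℝ)))) = -(1 / 5) := by field_simp
  rw [h3, ← sub_eq_add_neg 1 (1 / (5 * (k : ℝ)))] at h2
  have h4 : (1 - 1 / (5 * (k : ℝ))) ^ k ≤ (qk k ^ k) ^ k := pow_le_pow_left₀ h1 h.le k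
  rw [← pow_mul, ← sq, qk_pow hk] at h4
  linarith

/-- early: the distance from the empty register is still more than `1/4` -/
lemma tv_gt {k : ℕ} (hk : 1 ≤ k) (hk2 : Real.exp ((k : ℝ) / 2) / 2 ^ k < 3 / (20 * (k : ℝ)))
    (a : Fin (k + 2)) {t : ℝ} (ht : 0 ≤ t) (ht2 : t ≤ (k : ℝ) / 2) :
    1 / 4 < tv (R (lk k) k (pk k) 1 - 1) (W (lk k) k (pk k)) (z0 (lk k) k a) t := by
  have hk0 : (0 : ℝ) < k := by exact_mod_cast hk
  have h := tv_z0_lower (l := lk k) (M := k) (pk_pos hk).le (pk_lt_one k).le a ht k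
  have e1 : lk k + 1 - k = k ^ 2 + k := by rw [lk_succ hk]; omega
  rw [one_sub_pk, e1, pow_add, qk_pow hk] at h
  have h1 := qk_pow_k hk
  have h2 : Real.exp t / 2 ^ k ≤ Real.exp ((k : ℝ) / 2) / 2 ^ k := by
    apply div_le_div_of_nonneg_right (Real.exp_le_exp.2 ht2) (by positivity)
  have h3 : 3 / 4 * (1 / (5 * (k : ℝ))) = 3 / (20 * (k : ℝ)) := by field_simp; norm_num
  nlinarith

/-- late: at time `6k` the distance from the empty register is at most `1/4` -/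
lemma tv_le_quarter {k : ℕ} (hk : 1 ≤ k)
    (hk2 : 2 ^ (3 * k) * Real.exp (-(6 * (k : ℝ)) / 2) ≤ 3 / (20 * (k : ℝ)))
    (a : Fin (k + 2)) :
    tv (R (lk k) k (pk k) 1 - 1) (W (lk k) k (pk k)) (z0 (lk k) k a) (6 * k) ≤ 1 / 4 := by
  have hk0 : (0 : ℝ) < k := by exact_mod_cast hk
  have h := tv_z0_upper (l := lk k) (M := k) (pk_pos hk).le (pk_lt_one k).le a
    (t := 6 * k) (by positivity) (3 * k) (by omega)
  have e1 : lk k + 1 - 3 * k = k ^ 2 - k := by rw [lk_succ hk]; omega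
  rw [one_sub_pk, e1] at h
  have h1 := qk_pow_k hk
  have h2 : qk k ^ (k ^ 2 - k) * qk k ^ k = 3 / 4 := by
    rw [← pow_add, Nat.sub_add_cancel (by nlinarith), qk_pow hk]
  have h3 : 0 < qk k ^ (k ^ 2 - k) := pow_pos (qk_pos k) _
  have h4 : 3 / 4 * (1 + 1 / (5 * (k : ℝ))) ≤ qk k ^ (k ^ 2 - k) := by
    have h5 : 0 < 1 / (5 * (k : ℝ)) := by positivity
    set u := 1 / (5 * (k : ℝ)) with hu
    set v := qk k ^ (k ^ 2 - k) with hv
    have h6 : 3 / 4 ≤ v * (1 - u) := by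
      rw [← h2]; exact mul_le_mul_of_nonneg_left h1 h3.le
    have h7 : 0 ≤ v * (1 - u) * (1 + u) - 3 / 4 * (1 + u) := by
      have : 0 ≤ 1 + u := by linarith
      nlinarith
    nlinarith [mul_nonneg h3.le (sq_nonneg u)]
  have h3' : 3 / 4 * (1 / (5 * (k : ℝ))) = 3 / (20 * (k : ℝ)) := by field_simp; norm_num
  linarith

/-- good indices -/
structure Good (k : ℕ) : Prop where
  three : 3 ≤ k
  low : Real.exp ((k : ℝ) / 2) / 2 ^ k < 3 / (20 * (k : ℝ))
  up : 2 ^ (3 * k) * Real.exp (-(6 * (k : ℝ)) / 2) ≤ 3 / (20 * (k : ℝ))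

lemma Good.one {k : ℕ} (h : Good k) : 1 ≤ k := by have := h.three; omega

lemma two_pow_eq (k : ℕ) : (2 : ℝ) ^ k = Real.exp (k * Real.log 2) := by
  rw [← Real.log_pow, Real.exp_log (by positivity)]

lemma eventually_good : ∀ᶠ k : ℕ in atTop, Good k := by
  have hlog : (0.69 : ℝ) < Real.log 2 := by have := Real.log_two_gt_d9; linarith
  have hlog2 : Real.log 2 < (0.7 : ℝ) := by have := Real.log_two_lt_d9; linarith
  have hlim : Tendsto (fun x : ℝ => x ^ 1 * Real.exp (-x)) atTop (𝓝 0) :=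
    Real.tendsto_pow_mul_exp_neg_atTop_nhds_zero 1
  have h1 : Tendsto (fun k : ℕ => (0.19 : ℝ) * k) atTop atTop :=
    (tendsto_natCast_atTop_atTop).const_mul_atTop (by norm_num)
  have h2 := hlim.comp h1
  have h3 : ∀ᶠ k : ℕ in atTop, ((0.19 : ℝ) * k) ^ 1 * Real.exp (-((0.19 : ℝ) * k)) < 0.02 :=
    (tendsto_order.1 h2).2 _ (by norm_num)
  filter_upwards [h3, eventually_ge_atTop 3] with k hk hk3
  have hk0 : (0 : ℝ) < k := by
    have : 0 < k := by omega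
    exact_mod_cast this
  rw [pow_one] at hk
  have key : Real.exp (-((0.19 : ℝ) * k)) < 3 / (20 * (k : ℝ)) := by
    rw [lt_div_iff₀ (by positivity)]
    nlinarith
  refine ⟨hk3, ?_, ?_⟩
  · refine lt_of_le_of_lt ?_ key
    rw [two_pow_eq, ← Real.exp_sub]
    refine Real.exp_le_exp.2 ?_
    nlinarith
  · refine le_trans ?_ key.le
    rw [two_pow_eq, ← Real.exp_add]
    refine Real.exp_le_exp.2 ?_
    push_cast
    nlinarith

/-- the generator -/
noncomputable def Qk (k : ℕ) : Matrix (St (lk k) k) (St (lk k) k) ℝ := R (lk k) k (pk k) 1 - 1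

/-- the stationary law -/
noncomputable def Wk (k : ℕ) : St (lk k) k → ℝ := W (lk k) k (pk k)

/-- the mixing time from the empty register -/
noncomputable def tk (k : ℕ) : ℝ := tauFrom (Qk k) (Wk k) (z0 (lk k) k 0)

lemma tauFrom_z0 (k : ℕ) (a : Fin (k + 2)) :
    tauFrom (Qk k) (Wk k) (z0 (lk k) k a) = tk k := by
  have h : ∀ t, tv (Qk k) (Wk k) (z0 (lk k) k a) t = tv (Qk k) (Wk k) (z0 (lk k) k 0) t :=
    fun t => tv_mark (pk k) _ a 0 t
  unfold tk tauFrom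
  simp only [h]

lemma tk_lower {k : ℕ} (h : Good k) : (k : ℝ) / 2 ≤ tk k := by
  unfold tk tauFrom
  refine le_csInf ⟨6 * k, by positivity, ?_⟩ ?_
  · exact tv_le_quarter h.one h.up 0
  · rintro t ⟨ht0, ht⟩
    by_contra hcon
    push Not at hcon
    have := tv_gt h.one h.low 0 ht0 hcon.le
    unfold Qk Wk at ht
    linarith

lemma tk_upper {k : ℕ} (h : Good k) : tk k ≤ 6 * k := by
  unfold tk tauFrom
  refine csInf_le ⟨0, fun t ht => ht.1⟩ ⟨by positivity, ?_⟩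
  exact tv_le_quarter h.one h.up 0

lemma median_unique {S : Type} [Fintype S] [DecidableEq S] {w : S → ℝ} (hw0 : ∀ x, 0 ≤ w x)
    (hw1 : ∑ x, w x = 1) (f : S → ℝ) (A : Finset S) (hA : 1 / 2 < ∑ x ∈ A, w x) (c : ℝ)
    (hc : ∀ x ∈ A, f x = c) (m : ℝ) : IsMedian w f m ↔ m = c := by
  have hcompl : ∑ x ∈ Aᶜ, w x < 1 / 2 := by
    have := Finset.sum_add_sum_compl A w
    linarith
  constructor
  · rintro ⟨h1, h2⟩
    rcases lt_trichotomy m c with h | h | h
    · exfalso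
      have : ∑ x with f x ≤ m, w x ≤ ∑ x ∈ Aᶜ, w x := by
        refine Finset.sum_le_sum_of_subset_of_nonneg ?_ (fun x _ _ => hw0 x)
        intro x hx
        rw [Finset.mem_filter] at hx
        rw [Finset.mem_compl]
        intro hxA
        have := hc x hxA
        linarith [hx.2]
      linarith
    · exact h
    · exfalso
      have : ∑ x with m ≤ f x, w x ≤ ∑ x ∈ Aᶜ, w x := by
        refine Finset.sum_le_sum_of_subset_of_nonneg ?_ (fun x _ _ => hw0 x)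
        intro x hx
        rw [Finset.mem_filter] at hx
        rw [Finset.mem_compl]
        intro hxA
        have := hc x hxA
        linarith [hx.2]
      linarith
  · rintro rfl
    constructor
    · refine hA.le.trans (Finset.sum_le_sum_of_subset_of_nonneg ?_ (fun x _ _ => hw0 x))
      intro x hx
      rw [Finset.mem_filter]
      exact ⟨Finset.mem_univ _, (hc x hx).le⟩
    · refine hA.le.trans (Finset.sum_le_sum_of_subset_of_nonneg ?_ (fun x _ _ => hw0 x))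
      intro x hx
      rw [Finset.mem_filter]
      exact ⟨Finset.mem_univ _, (hc x hx).ge⟩

/-- the states with an empty register -/
def Zs (k : ℕ) : Finset (St (lk k) k) := cyl k ({(fun _ => false)} : Finset (Reg (lk k)))

lemma mem_Zs {k : ℕ} {s : St (lk k) k} (h : s ∈ Zs k) : ∃ a, s = z0 (lk k) k a := by
  unfold Zs cyl at h
  rw [Finset.mem_product, Finset.mem_singleton] at h
  exact ⟨s.2, Prod.ext h.1 rfl⟩

lemma mass_Zs {k : ℕ} (hk : 1 ≤ k) : 3 / 4 - 1 / (2 * (k : ℝ)) ≤ ∑ s ∈ Zs k, Wk k s := by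
  have hk0 : (0 : ℝ) < k := by exact_mod_cast hk
  unfold Zs Wk
  rw [W_z0, one_sub_pk, lk_succ hk, pow_add, qk_pow hk]
  have h := qk_pow_lower hk (2 * k)
  push_cast at h
  have e : 2 * (k : ℝ) / (3 * (k : ℝ) ^ 2) = 2 / (3 * k) := by field_simp
  rw [e] at h
  have e2 : 3 / 4 * (2 / (3 * (k : ℝ))) = 1 / (2 * k) := by field_simp; norm_num
  nlinarith

lemma isMedian_iff {k : ℕ} (h : Good k) (m : ℝ) :
    IsMedian (Wk k) (tauFrom (Qk k) (Wk k)) m ↔ m = tk k := by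
  refine median_unique (W_nonneg _ _ (pk_pos h.one).le (pk_lt_one k).le) (W_sum _ _ _) _ (Zs k) ?_
    (tk k) ?_ m
  · have h1 : 3 / 4 - 1 / (2 * (k : ℝ)) ≤ ∑ s ∈ Zs k, W (lk k) k (pk k) s := mass_Zs h.one
    have hk : (3 : ℝ) ≤ k := by exact_mod_cast h.three
    have h2 : 1 / (2 * (k : ℝ)) ≤ 1 / 6 := by
      apply one_div_le_one_div_of_le (by norm_num); linarith
    linarith
  · intro s hs
    obtain ⟨a, rfl⟩ := mem_Zs hs
    exact tauFrom_z0 k a

/-- the states with a one at index at least `J` -/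
def Os (k J : ℕ) : Finset (St (lk k) k) :=
  cyl k (Z (l := lk k) (Finset.univ.filter (fun i : Fin (lk k + 1) => J ≤ (i : ℕ))))ᶜ

lemma mem_Os {k J : ℕ} {s : St (lk k) k} (h : s ∈ Os k J) :
    ∃ i0 : Fin (lk k + 1), J ≤ (i0 : ℕ) ∧ s.1 i0 = true := by
  unfold Os cyl at h
  rw [Finset.mem_product, Finset.mem_compl, mem_Z] at h
  have h1 := h.1
  push Not at h1
  obtain ⟨i, hi, hi2⟩ := h1
  rw [Finset.mem_filter] at hi
  exact ⟨i, hi.2, by simpa using hi2⟩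

/-- the upper bound for the power of `q` -/
lemma qk_pow_upper {k C : ℕ} (hk : 1 ≤ k) (hC : 2 ≤ C) (hCk : C ≤ k) :
    qk k ^ (k ^ 2 + 2 * k - C * k) * (1 - ((C : ℝ) - 2) / (3 * k)) ≤ 3 / 4 := by
  have hk0 : (0 : ℝ) < k := by exact_mod_cast hk
  have h1 : (C - 2) * k ≤ k ^ 2 := by
    have : C - 2 ≤ k := by omega
    calc (C - 2) * k ≤ k * k := Nat.mul_le_mul_right k this
      _ = k ^ 2 := by ring
  have h2 : k ^ 2 + 2 * k - C * k + (C - 2) * k = k ^ 2 := by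
    have e : C * k = (C - 2) * k + 2 * k := by
      rw [← add_mul]; congr 1; omega
    omega
  have h3 : qk k ^ (k ^ 2 + 2 * k - C * k) * qk k ^ ((C - 2) * k) = 3 / 4 := by
    rw [← pow_add, h2, qk_pow hk]
  have h4 := qk_pow_lower hk ((C - 2) * k)
  have h5 : (((C - 2) * k : ℕ) : ℝ) / (3 * (k : ℝ) ^ 2) = ((C : ℝ) - 2) / (3 * k) := by
    rw [Nat.cast_mul, Nat.cast_sub hC]
    push_cast
    field_simp
  rw [h5] at h4
  rw [← h3]
  exact mul_le_mul_of_nonneg_left h4 (pow_pos (qk_pos k) _).le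

end Pool.Agent.MP_d1aba8_pr
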