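import Pool.Agent.Lib.MP_d1aba8_pr.Reg

namespace Pool.Agent.MP_d1aba8_pr

open scoped BigOperators
open Filter

/-- state space: register and a mark -/
abbrev St (l M : ℕ) : Type := Reg l × Fin (M + 2)

/-- weights of the marks in `r` steps -/
noncomputable def mk (M : ℕ) (r : ℕ) (a b : Fin (M + 2)) : ℝ :=
  if r = 0 then (if a = b then 1 else 0) else 1 / ((M : ℝ) + 2)

lemma mk_nonneg (M r : ℕ) (a b : Fin (M + 2)) : 0 ≤ mk M r a b := by
  unfold mk
  split_ifs
  · norm_num
  · norm_num
  · positivity

lemma mk_sum (M r : ℕ) (a : Fin (M + 2)) : ∑ b, mk M r a b = 1 := by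
  unfold mk
  by_cases h : r = 0
  · simp [h]
  · simp only [h, if_false]
    rw [Finset.sum_const, Finset.card_univ, Fintype.card_fin, nsmul_eq_mul]
    push_cast
    field_simp

lemma mk_succ (M r : ℕ) (a b : Fin (M + 2)) :
    ∑ c, mk M r a c * mk M 1 c b = mk M (r + 1) a b := by
  have h1 : ∀ c, mk M 1 c b = 1 / ((M : ℝ) + 2) := fun c => by unfold mk; simp
  have h2 : mk M (r + 1) a b = 1 / ((M : ℝ) + 2) := by unfold mk; simp
  simp only [h1, h2]
  rw [← Finset.sum_mul, mk_sum, one_mul]

/-- the `r`-step matrix -/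
noncomputable def R (l M : ℕ) (p : ℝ) (r : ℕ) : Matrix (St l M) (St l M) ℝ :=
  fun s t => K p r s.1 t.1 * mk M r s.2 t.2

lemma R_apply (l M : ℕ) (p : ℝ) (r : ℕ) (s t : St l M) :
    R l M p r s t = K p r s.1 t.1 * mk M r s.2 t.2 := rfl

lemma R_zero (l M : ℕ) (p : ℝ) : R l M p 0 = 1 := by
  ext s t
  rw [R_apply, K_zero, Matrix.one_apply]
  unfold mk
  rcases s with ⟨x, a⟩
  rcases t with ⟨y, b⟩
  by_cases h : x = y
  · by_cases h' : a = b
    · simp [h, h']
    · simp [h, h']
  · simp [h]

lemma R_succ (l M : ℕ) (p : ℝ) (r : ℕ) : R l M p r * R l M p 1 = R l M p (r + 1) := by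
  ext s t
  rw [Matrix.mul_apply, R_apply, ← K_succ, ← mk_succ, Fintype.sum_prod_type, Finset.sum_mul_sum]
  refine Finset.sum_congr rfl (fun z _ => Finset.sum_congr rfl (fun c _ => ?_))
  rw [R_apply, R_apply]
  ring

lemma R_pow (l M : ℕ) (p : ℝ) (r : ℕ) : (R l M p 1) ^ r = R l M p r := by
  induction r with
  | zero => rw [pow_zero, R_zero]
  | succ r ih => rw [pow_succ, ih, R_succ]

lemma R_stoch (l M : ℕ) {p : ℝ} (h0 : 0 ≤ p) (h1 : p ≤ 1) (r : ℕ) : IsStoch (R l M p r) := by
  constructor
  · intro s t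
    rw [R_apply]
    exact mul_nonneg (K_nonneg h0 h1 _ _ _) (mk_nonneg _ _ _ _)
  · intro s
    rw [Fintype.sum_prod_type]
    simp only [R_apply]
    simp only [← Finset.mul_sum, mk_sum, mul_one, K_row_sum]

/-- the stationary distribution -/
noncomputable def W (l M : ℕ) (p : ℝ) (s : St l M) : ℝ := pm p s.1 * (1 / ((M : ℝ) + 2))

lemma R_big (l M : ℕ) (p : ℝ) {r : ℕ} (hr : l + 1 ≤ r) (s t : St l M) :
    R l M p r s t = W l M p t := by
  rw [R_apply, K_big p hr]
  unfold W mk
  rw [if_neg (by omega)]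

lemma W_nonneg (l M : ℕ) {p : ℝ} (h0 : 0 ≤ p) (h1 : p ≤ 1) (s : St l M) : 0 ≤ W l M p s := by
  unfold W
  have := pm_nonneg h0 h1 s.1
  positivity

lemma W_pos (l M : ℕ) {p : ℝ} (h0 : 0 < p) (h1 : p < 1) (s : St l M) : 0 < W l M p s := by
  unfold W
  have := pm_pos h0 h1 s.1
  positivity

lemma W_sum_filter (l M : ℕ) (p : ℝ) (f : Reg l → ℝ) :
    ∑ s : St l M, W l M p s * f s.1 = ∑ x, pm p x * f x := by
  rw [Fintype.sum_prod_type]
  refine Finset.sum_congr rfl (fun x _ => ?_)
  unfold W
  simp only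
  rw [Finset.sum_const, Finset.card_univ, Fintype.card_fin, nsmul_eq_mul]
  push_cast
  field_simp

lemma W_sum (l M : ℕ) (p : ℝ) : ∑ s : St l M, W l M p s = 1 := by
  have h := W_sum_filter l M p (fun _ => 1)
  simp only [mul_one] at h
  rw [h, pm_sum]

lemma W_stat (l M : ℕ) (p : ℝ) (t : St l M) :
    ∑ s, W l M p s * R l M p 1 s t = W l M p t := by
  have s0 : St l M := (fun _ => false, 0)
  have h1 := congrFun (congrFun (R_succ l M p (l + 1)) s0) t
  rw [Matrix.mul_apply, R_big l M p (by omega)] at h1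
  rw [← h1]
  refine Finset.sum_congr rfl (fun s _ => ?_)
  rw [R_big l M p le_rfl]

lemma isGenerator (l M : ℕ) {p : ℝ} (h0 : 0 ≤ p) (h1 : p ≤ 1) :
    IsGenerator (R l M p 1 - 1) := by
  constructor
  · intro s t hst
    rw [Matrix.sub_apply, Matrix.one_apply_ne hst, sub_zero]
    exact (R_stoch l M h0 h1 1).nonneg s t
  · intro s
    simp only [Matrix.sub_apply]
    rw [Finset.sum_sub_distrib, (R_stoch l M h0 h1 1).row_sum s, IsStoch.one.row_sum s, sub_self]

lemma isStationary (l M : ℕ) {p : ℝ} (h0 : 0 ≤ p) (h1 : p ≤ 1) :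
    IsStationary (R l M p 1 - 1) (W l M p) := by
  constructor
  · exact W_nonneg l M h0 h1
  · exact W_sum l M p
  · intro t
    simp only [Matrix.sub_apply, mul_sub]
    rw [Finset.sum_sub_distrib, W_stat]
    simp [Matrix.one_apply]

lemma reach {S : Type} [Fintype S] [DecidableEq S] (P : Matrix S S ℝ) (hP : IsStoch P) :
    ∀ (r : ℕ) (x y : S), 0 < (P ^ r) x y →
      Relation.ReflTransGen (fun a b => a ≠ b ∧ 0 < (P - 1) a b) x y := by
  intro r
  induction r with
  | zero =>
    intro x y h
    rw [pow_zero, Matrix.one_apply] at h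
    split_ifs at h with hxy
    · rw [hxy]
    · exact absurd h (lt_irrefl 0)
  | succ r ih =>
    intro x y h
    rw [pow_succ, Matrix.mul_apply] at h
    have : ∃ z ∈ Finset.univ, 0 < (P ^ r) x z * P z y := by
      by_contra hcon
      push Not at hcon
      exact absurd (Finset.sum_nonpos hcon) (not_le.2 h)
    obtain ⟨z, _, hz⟩ := this
    have h1 : 0 < (P ^ r) x z := by
      rcases lt_or_eq_of_le ((hP.pow r).nonneg x z) with h | h
      · exact h
      · rw [← h, zero_mul] at hz; exact absurd hz (lt_irrefl 0)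
    have h2 : 0 < P z y := by
      rcases lt_or_eq_of_le (hP.nonneg z y) with h | h
      · exact h
      · rw [← h, mul_zero] at hz; exact absurd hz (lt_irrefl 0)
    by_cases hzy : z = y
    · rw [← hzy]; exact ih x z h1
    · refine Relation.ReflTransGen.tail (ih x z h1) ⟨hzy, ?_⟩
      rw [Matrix.sub_apply, Matrix.one_apply_ne hzy, sub_zero]
      exact h2

lemma isIrred (l M : ℕ) {p : ℝ} (h0 : 0 < p) (h1 : p < 1) :
    IsIrred (R l M p 1 - 1) := by
  intro s t
  refine reach (R l M p 1) (R_stoch l M h0.le h1.le 1) (l + 1) s t ?_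
  rw [R_pow, R_big l M p le_rfl]
  exact W_pos l M h0 h1 t

/-- the spectral gap is exactly one -/
lemma isGap (l M : ℕ) (p : ℝ) : IsGap (R l M p 1 - 1) 1 := by
  constructor
  · refine ⟨1, one_ne_zero, ?_, Complex.one_re⟩
    refine ⟨fun s => if s.2 = 0 then 1 else if s.2 = 1 then -1 else 0, ?_, ?_⟩
    · intro h
      have := congrFun h ((fun _ => false), 0)
      simp at this
    · funext s
      simp only [Matrix.mulVec, dotProduct, Matrix.map_apply, Matrix.neg_apply, Matrix.sub_apply,
        Pi.smul_apply, smul_eq_mul, one_mul]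
      have e1 : ∀ t : St l M, ((-(R l M p 1 s t - (1 : Matrix (St l M) (St l M) ℝ) s t) : ℝ) : ℂ) *
          (if t.2 = 0 then 1 else if t.2 = 1 then -1 else 0) =
          (if s = t then (1 : ℂ) else 0) * (if t.2 = 0 then 1 else if t.2 = 1 then -1 else 0) -
          (K p 1 s.1 t.1 : ℂ) * ((1 / ((M : ℂ) + 2)) *
            (if t.2 = 0 then 1 else if t.2 = 1 then -1 else 0)) := by
        intro t
        rw [R_apply, Matrix.one_apply]
        have : mk M 1 s.2 t.2 = 1 / ((M : ℝ) + 2) := by unfold mk; simp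
        rw [this]
        split_ifs <;> push_cast <;> ring
      rw [Finset.sum_congr rfl (fun t _ => e1 t), Finset.sum_sub_distrib]
      have e2 : ∑ t : St l M, (if s = t then (1 : ℂ) else 0) *
          (if t.2 = 0 then 1 else if t.2 = 1 then -1 else 0) =
          (if s.2 = 0 then 1 else if s.2 = 1 then -1 else 0) := by
        rw [Finset.sum_eq_single s]
        · simp
        · intro t _ hts
          rw [if_neg (fun h => hts h.symm), zero_mul]
        · intro h; exact absurd (Finset.mem_univ _) h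
      have e3 : ∑ t : St l M, (K p 1 s.1 t.1 : ℂ) * ((1 / ((M : ℂ) + 2)) *
            (if t.2 = 0 then 1 else if t.2 = 1 then -1 else 0)) = 0 := by
        rw [Fintype.sum_prod_type]
        refine Finset.sum_eq_zero (fun x _ => ?_)
        simp only
        rw [← Finset.mul_sum, ← Finset.mul_sum]
        have : ∑ b : Fin (M + 2), (if b = 0 then (1 : ℂ) else if b = 1 then -1 else 0) = 0 := by
          rw [Fin.sum_univ_succ, Fin.sum_univ_succ]
          have h3 : ∀ i : Fin M, (if (i.succ.succ : Fin (M + 2)) = 0 then (1 : ℂ) else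
              if (i.succ.succ : Fin (M + 2)) = 1 then -1 else 0) = 0 := by
            intro i
            rw [if_neg (Fin.succ_ne_zero _), if_neg]
            intro h
            have h4 := congrArg Fin.val h
            simp at h4
          rw [Finset.sum_congr rfl (fun i _ => h3 i)]
          simp
        rw [this, mul_zero, mul_zero]
      rw [e2, e3, sub_zero]
  · rintro r ⟨z, hz, ⟨v, hv, hvz⟩, rfl⟩
    -- complex matrix of the chain
    set P : Matrix (St l M) (St l M) ℂ := (R l M p 1).map (fun a : ℝ => (a : ℂ)) with hPdef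
    have h1 : P.mulVec v = (1 - z) • v := by
      have e : (-(R l M p 1 - 1)).map (fun a : ℝ => (a : ℂ)) = 1 - P := by
        ext s t
        rw [Matrix.map_apply, Matrix.neg_apply, Matrix.sub_apply, Matrix.sub_apply, hPdef,
          Matrix.map_apply, Matrix.one_apply, Matrix.one_apply]
        split_ifs <;> push_cast <;> ring
      rw [e, Matrix.sub_mulVec, Matrix.one_mulVec] at hvz
      rw [sub_smul, one_smul, ← hvz]
      abel
    have h2 : ∀ k : ℕ, (P ^ k).mulVec v = (1 - z) ^ k • v := by
      intro k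
      induction k with
      | zero => simp
      | succ k ih =>
        rw [pow_succ, ← Matrix.mulVec_mulVec, h1, Matrix.mulVec_smul, ih, smul_smul, pow_succ,
          mul_comm]
    have h3 : P ^ (l + 1) = (R l M p (l + 1)).map (fun a : ℝ => (a : ℂ)) := by
      rw [← R_pow, hPdef]
      exact (Matrix.map_pow (R l M p 1) Complex.ofRealHom (l + 1)).symm
    have h4 : ∀ s : St l M, ((1 - z) ^ (l + 1) • v) s = ∑ t, (W l M p t : ℂ) * v t := by
      intro s
      rw [← h2, h3]
      simp only [Matrix.mulVec, dotProduct, Matrix.map_apply, R_big l M p le_rfl]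
    by_cases hz1 : 1 - z = 0
    · have : z = 1 := by linear_combination -hz1
      rw [this, Complex.one_re]
    · exfalso
      have hne : (1 - z) ^ (l + 1) ≠ 0 := pow_ne_zero _ hz1
      set c : ℂ := ((1 - z) ^ (l + 1))⁻¹ * ∑ t, (W l M p t : ℂ) * v t with hc
      have h5 : ∀ s, v s = c := by
        intro s
        have := h4 s
        rw [Pi.smul_apply, smul_eq_mul] at this
        rw [hc, ← this, ← mul_assoc, inv_mul_cancel₀ hne, one_mul]
      have hc0 : c ≠ 0 := by
        intro h
        apply hv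
        funext s
        rw [h5 s, h]; rfl
      have h6 := congrFun h1 ((fun _ => false), 0)
      simp only [Matrix.mulVec, dotProduct, Pi.smul_apply, smul_eq_mul, h5, hPdef,
        Matrix.map_apply] at h6
      rw [← Finset.sum_mul] at h6
      have h7 : ∑ t : St l M, ((R l M p 1 ((fun _ => false), 0) t : ℝ) : ℂ) = 1 := by
        rw [← Complex.ofReal_sum]
        have : ∑ t : St l M, R l M p 1 ((fun _ => false), 0) t = 1 := by
          rw [Fintype.sum_prod_type]
          simp only [R_apply]
          simp only [← Finset.mul_sum, mk_sum, mul_one, K_row_sum]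
        rw [this, Complex.ofReal_one]
      rw [h7, one_mul] at h6
      apply hz
      have h8 : z * c = 0 := by linear_combination h6
      rcases mul_eq_zero.1 h8 with h | h
      · exact h
      · exact absurd h hc0

end Pool.Agent.MP_d1aba8_pr
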