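import Mathlib

/-!
# Finite continuous-time Markov chains: definitions for MP_d1aba8_pr

Everything is stated for a finite state space `S` and a real matrix `Q` indexed by `S`.
-/

namespace Pool.Agent.MP_d1aba8_pr

open scoped BigOperators

/-- `Q` is the generator (rate matrix) of a continuous-time Markov chain on `S`. -/
structure IsGenerator {S : Type} [Fintype S] [DecidableEq S] (Q : Matrix S S ℝ) : Prop where
  offdiag_nonneg : ∀ x y, x ≠ y → 0 ≤ Q x y
  row_sum : ∀ x, ∑ y, Q x y = 0

/-- Irreducibility: every state is reached from every state through transitions of positive rate. -/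
def IsIrred {S : Type} [Fintype S] [DecidableEq S] (Q : Matrix S S ℝ) : Prop :=
  ∀ x y, Relation.ReflTransGen (fun a b => a ≠ b ∧ 0 < Q a b) x y

/-- `w` is a stationary distribution of the chain with generator `Q`. -/
structure IsStationary {S : Type} [Fintype S] [DecidableEq S] (Q : Matrix S S ℝ)
    (w : S → ℝ) : Prop where
  nonneg : ∀ x, 0 ≤ w x
  sum_one : ∑ x, w x = 1
  stat : ∀ y, ∑ x, w x * Q x y = 0

/-- The transition matrix at time `t`, `P_t = exp (t Q)`; `trans Q t x y` is the probability that
the chain started at `x` is at `y` at time `t`. -/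
noncomputable def trans {S : Type} [Fintype S] [DecidableEq S] (Q : Matrix S S ℝ) (t : ℝ) :
    Matrix S S ℝ :=
  NormedSpace.exp (t • Q)

/-- `tv Q w x t` is the total variation distance between the law at time `t` of the chain started
at `x` and the distribution `w`: the supremum over all sets of states of the difference of the
probabilities. -/
noncomputable def tv {S : Type} [Fintype S] [DecidableEq S] (Q : Matrix S S ℝ) (w : S → ℝ)
    (x : S) (t : ℝ) : ℝ :=
  ⨆ A : Finset S, |∑ y ∈ A, trans Q t x y - ∑ y ∈ A, w y|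

/-- The mixing time from the state `x`: the first time at which the total variation distance to
`w` is at most `1/4`. -/
noncomputable def tauFrom {S : Type} [Fintype S] [DecidableEq S] (Q : Matrix S S ℝ) (w : S → ℝ)
    (x : S) : ℝ :=
  sInf {t : ℝ | 0 ≤ t ∧ tv Q w x t ≤ 1 / 4}

/-- `m` is a median of the random variable `f x`, `x` drawn from `w`. -/
def IsMedian {S : Type} [Fintype S] (w : S → ℝ) (f : S → ℝ) (m : ℝ) : Prop :=
  1 / 2 ≤ ∑ x with f x ≤ m, w x ∧ 1 / 2 ≤ ∑ x with m ≤ f x, w x

/-- `z` is a complex eigenvalue of the real matrix `M`. -/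
def IsEigenvalue {S : Type} [Fintype S] [DecidableEq S] (M : Matrix S S ℝ) (z : ℂ) : Prop :=
  ∃ v : S → ℂ, v ≠ 0 ∧ (M.map (fun a : ℝ => (a : ℂ))).mulVec v = z • v

/-- `lam` is the spectral gap of the generator `Q`: the smallest real part of a nonzero
eigenvalue of `-Q`. -/
def IsGap {S : Type} [Fintype S] [DecidableEq S] (Q : Matrix S S ℝ) (lam : ℝ) : Prop :=
  IsLeast {r : ℝ | ∃ z : ℂ, z ≠ 0 ∧ IsEigenvalue (-Q) z ∧ z.re = r} lam

end Pool.Agent.MP_d1aba8_pr
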