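import Pool.Agent.Lib.MP_d1aba8_pr.Asym

namespace Pool.Agent.MP_d1aba8_pr

open scoped BigOperators Topology
open Filter

lemma small_fn (A c D : ℝ) (hc : 0 < c) :
    Tendsto (fun k : ℕ => A * Real.exp (-(c * k)) + D / k) atTop (𝓝 0) := by
  have h1 : Tendsto (fun k : ℕ => c * (k : ℝ)) atTop atTop :=
    (tendsto_natCast_atTop_atTop).const_mul_atTop hc
  have h2 := (Real.tendsto_exp_neg_atTop_nhds_zero.comp h1).const_mul A
  have h3 := h2.add (tendsto_const_div_atTop_nhds_zero_nat D)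
  simpa using h3

/-- the window constant -/
noncomputable def Cn (K : ℝ) : ℕ := ⌈10 * K⌉₊ + 2

lemma Cn_two (K : ℝ) : 2 ≤ Cn K := by unfold Cn; omega

lemma Cn_ge {K : ℝ} : 10 * K ≤ (Cn K : ℝ) := by
  unfold Cn
  push_cast
  have := Nat.le_ceil (10 * K)
  linarith

lemma exp_bound {K : ℝ} (hK : 0 < K) {k : ℕ} (h : Good k) :
    Real.exp (K * tk k) / 2 ^ (Cn K * k) ≤ Real.exp (-(0.9 * K * k)) := by
  have hlog : (0.69 : ℝ) < Real.log 2 := by have := Real.log_two_gt_d9; linarith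
  have hk0 : (0 : ℝ) ≤ k := Nat.cast_nonneg k
  rw [two_pow_eq, ← Real.exp_sub]
  refine Real.exp_le_exp.2 ?_
  push_cast
  have h1 : K * tk k ≤ K * (6 * k) := mul_le_mul_of_nonneg_left (tk_upper h) hK.le
  have h2 := Cn_ge (K := K)
  have h3 : 10 * K * k ≤ Cn K * k := mul_le_mul_of_nonneg_right h2 hk0
  have h4 : 10 * K * k * 0.69 ≤ Cn K * k * Real.log 2 := by
    have ha : 0 ≤ 10 * K * k := by positivity
    nlinarith
  nlinarith

/-- the power of `q` at the window -/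
lemma q_window {K : ℝ} {k : ℕ} (h : Good k) (hCk : Cn K ≤ k) :
    qk k ^ (lk k + 1 - Cn K * k) ≤ 3 / 4 + (Cn K : ℝ) / k := by
  have hk0 : (0 : ℝ) < k := by exact_mod_cast h.one
  have e : lk k + 1 - Cn K * k = k ^ 2 + 2 * k - Cn K * k := by rw [lk_succ h.one]
  rw [e]
  have h1 := qk_pow_upper h.one (Cn_two K) hCk
  have h2 : qk k ^ (k ^ 2 + 2 * k - Cn K * k) ≤ 1 :=
    pow_le_one₀ (qk_pos k).le (qk_lt_one h.one).le
  have h3 : 0 ≤ ((Cn K : ℝ) - 2) / (3 * k) := by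
    have : (2 : ℝ) ≤ Cn K := by exact_mod_cast Cn_two K
    apply div_nonneg <;> [linarith; positivity]
  have h4 : ((Cn K : ℝ) - 2) / (3 * k) ≤ (Cn K : ℝ) / k := by
    rw [div_le_div_iff₀ (by positivity) hk0]
    have : (0 : ℝ) ≤ Cn K := Nat.cast_nonneg _
    nlinarith
  nlinarith [mul_le_mul_of_nonneg_right h2 h3]

lemma z0_lower {K : ℝ} (hK : 0 < K) {k : ℕ} (h : Good k) (hCk : Cn K ≤ k) (a : Fin (k + 2)) :
    1 / 4 - (1 * Real.exp (-(0.9 * K * k)) + (Cn K : ℝ) / k) ≤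
      tv (Qk k) (Wk k) (z0 (lk k) k a) (K * tk k) := by
  have ht : 0 ≤ K * tk k := by
    have h1 := tk_lower h
    have hk0 : (0 : ℝ) ≤ k := Nat.cast_nonneg k
    have : 0 ≤ tk k := by linarith
    positivity
  have h1 := tv_z0_lower (l := lk k) (M := k) (pk_pos h.one).le (pk_lt_one k).le a ht (Cn K * k)
  rw [one_sub_pk] at h1
  have h2 := exp_bound hK h
  have h3 := q_window (K := K) h hCk
  unfold Qk Wk
  linarith

lemma z0_upper {K : ℝ} (hK : 0 < K) {k : ℕ} (h : Good k) (a : Fin (k + 2)) :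
    tv (Qk k) (Wk k) (z0 (lk k) k a) (K * tk k) ≤
      1 / 4 + (2 * Real.exp (-(K / 4 * k)) + (1 / 2) / k) := by
  have hk0 : (0 : ℝ) < k := by exact_mod_cast h.one
  have ht0 := tk_lower h
  have ht : 0 ≤ K * tk k := by
    have : 0 ≤ tk k := by linarith
    positivity
  have h1 := tv_z0_upper (l := lk k) (M := k) (pk_pos h.one).le (pk_lt_one k).le a ht 1 le_rfl
  rw [one_sub_pk, Nat.add_sub_cancel] at h1
  have h2 : Real.exp (-(K * tk k) / 2) ≤ Real.exp (-(K / 4 * k)) := by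
    refine Real.exp_le_exp.2 ?_
    have := mul_le_mul_of_nonneg_left ht0 hK.le
    linarith
  have h3 : qk k ^ (lk k + 1) ≤ qk k ^ lk k :=
    pow_le_pow_of_le_one (qk_pos k).le (qk_lt_one h.one).le (by omega)
  have h4 : 3 / 4 - 1 / (2 * (k : ℝ)) ≤ qk k ^ (lk k + 1) := by
    have h5 := mass_Zs h.one
    unfold Zs Wk at h5
    rw [W_z0, one_sub_pk] at h5
    exact h5
  have e : 1 / (2 * (k : ℝ)) = (1 / 2) / k := by field_simp
  rw [e] at h4
  unfold Qk Wk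
  rw [pow_one] at h1
  linarith

lemma os_lower {K : ℝ} (hK : 0 < K) {k : ℕ} (h : Good k) {s : St (lk k) k}
    (hs : s ∈ Os k (Cn K * k)) :
    1 - (1 * Real.exp (-(0.9 * K * k)) + (Cn K : ℝ) / k) ≤
      tv (Qk k) (Wk k) s (K * tk k) := by
  have hk0 : (0 : ℝ) < k := by exact_mod_cast h.one
  have ht0 := tk_lower h
  have ht : 0 ≤ K * tk k := by
    have : 0 ≤ tk k := by linarith
    positivity
  obtain ⟨i0, hi0, hs0⟩ := mem_Os hs
  have h1 := tv_one_lower (l := lk k) (M := k) (pk_pos h.one).le (pk_lt_one k).le s ht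
    (Cn K * k) i0 hi0 hs0
  have h2 := exp_bound hK h
  have h3 := pk_bound h.one
  have hC : (2 : ℝ) ≤ Cn K := by exact_mod_cast Cn_two K
  have h4 : (((Cn K * k : ℕ) : ℝ) + 1) * pk k ≤ (Cn K : ℝ) / k := by
    have h5 : (((Cn K * k : ℕ) : ℝ) + 1) * pk k ≤
        (((Cn K * k : ℕ) : ℝ) + 1) * (1 / (3 * (k : ℝ) ^ 2)) :=
      mul_le_mul_of_nonneg_left h3 (by positivity)
    refine h5.trans ?_
    push_cast
    rw [mul_one_div, div_le_div_iff₀ (by positivity) hk0]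
    have hk1 : (1 : ℝ) ≤ k := by exact_mod_cast h.one
    have h6 : (1 : ℝ) ≤ Cn K * k := by nlinarith
    nlinarith
  unfold Qk Wk
  linarith

lemma mass_Os {K : ℝ} {k : ℕ} (h : Good k) (hCk : Cn K ≤ k) :
    1 / 4 - (Cn K : ℝ) / k ≤ ∑ s ∈ Os k (Cn K * k), Wk k s := by
  unfold Os Wk
  rw [W_late, one_sub_pk]
  have := q_window (K := K) h hCk
  linarith

/-- the two masses -/
noncomputable def m1 (K ε : ℝ) (k : ℕ) : ℝ :=
  ∑ s with 1 - ε < tv (Qk k) (Wk k) s (K * tk k), Wk k s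

noncomputable def m2 (K ε : ℝ) (k : ℕ) : ℝ :=
  ∑ s with |tv (Qk k) (Wk k) s (K * tk k) - 1 / 4| < ε, Wk k s

lemma Wk_nonneg {k : ℕ} (h : Good k) (s : St (lk k) k) : 0 ≤ Wk k s :=
  W_nonneg _ _ (pk_pos h.one).le (pk_lt_one k).le s

lemma masses_le_one {K ε : ℝ} (hε : ε ≤ 3 / 8) {k : ℕ} (h : Good k) :
    m1 K ε k + m2 K ε k ≤ 1 := by
  unfold m1 m2
  rw [← Finset.sum_union, ← W_sum (lk k) k (pk k)]
  · exact Finset.sum_le_univ_sum_of_nonneg (fun s => Wk_nonneg h s)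
  · rw [Finset.disjoint_filter]
    intro s _ h1 h2
    rw [abs_lt] at h2
    linarith [h2.2]

lemma m1_lower {K ε : ℝ} (hK : 0 < K) (hε : 0 < ε) :
    ∀ᶠ k : ℕ in atTop, Good k → 1 / 4 - (Cn K : ℝ) / k ≤ m1 K ε k := by
  have h1 : ∀ᶠ k : ℕ in atTop, 1 * Real.exp (-(0.9 * K * k)) + (Cn K : ℝ) / k < ε :=
    (tendsto_order.1 (small_fn 1 (0.9 * K) (Cn K) (by positivity))).2 _ hε
  filter_upwards [h1, eventually_ge_atTop (Cn K)] with k hk1 hk2 hg
  refine (mass_Os hg hk2).trans ?_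
  unfold m1
  refine Finset.sum_le_sum_of_subset_of_nonneg ?_ (fun s _ _ => Wk_nonneg hg s)
  intro s hs
  rw [Finset.mem_filter]
  refine ⟨Finset.mem_univ _, ?_⟩
  have := os_lower hK hg hs
  linarith

lemma m2_lower {K ε : ℝ} (hK : 0 < K) (hε : 0 < ε) :
    ∀ᶠ k : ℕ in atTop, Good k → 3 / 4 - (1 / 2) / (k : ℝ) ≤ m2 K ε k := by
  have h1 : ∀ᶠ k : ℕ in atTop, 1 * Real.exp (-(0.9 * K * k)) + (Cn K : ℝ) / k < ε :=
    (tendsto_order.1 (small_fn 1 (0.9 * K) (Cn K) (by positivity))).2 _ hε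
  have h2 : ∀ᶠ k : ℕ in atTop, 2 * Real.exp (-(K / 4 * k)) + (1 / 2) / (k : ℝ) < ε :=
    (tendsto_order.1 (small_fn 2 (K / 4) (1 / 2) (by positivity))).2 _ hε
  filter_upwards [h1, h2, eventually_ge_atTop (Cn K)] with k hk1 hk2 hk3 hg
  have hk0 : (0 : ℝ) < k := by exact_mod_cast hg.one
  have e : 1 / (2 * (k : ℝ)) = (1 / 2) / k := by field_simp
  have h3 := mass_Zs hg.one
  rw [e] at h3
  refine h3.trans ?_
  unfold m2
  refine Finset.sum_le_sum_of_subset_of_nonneg ?_ (fun s _ _ => Wk_nonneg hg s)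
  intro s hs
  rw [Finset.mem_filter]
  refine ⟨Finset.mem_univ _, ?_⟩
  obtain ⟨a, rfl⟩ := mem_Zs hs
  have h4 := z0_lower hK hg hk3 a
  have h5 := z0_upper hK hg a
  rw [abs_lt]
  constructor <;> linarith

lemma tendsto_m1 {K ε : ℝ} (hK : 0 < K) (hε : 0 < ε) (hε2 : ε ≤ 3 / 8) (u : ℕ → ℕ)
    (hu : Tendsto u atTop atTop) (hgood : ∀ n, Good (u n)) :
    Tendsto (fun n => m1 K ε (u n)) atTop (𝓝 (1 / 4)) := by
  have h1 := hu.eventually (m1_lower hK hε)
  have h2 := hu.eventually (m2_lower hK hε)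
  have l1 : Tendsto (fun n => 1 / 4 - (Cn K : ℝ) / (u n : ℝ)) atTop (𝓝 (1 / 4)) := by
    have := ((tendsto_const_div_atTop_nhds_zero_nat (Cn K : ℝ)).comp hu).const_sub (1 / 4)
    simpa using this
  have l2 : Tendsto (fun n => 1 / 4 + (1 / 2) / (u n : ℝ)) atTop (𝓝 (1 / 4)) := by
    have := ((tendsto_const_div_atTop_nhds_zero_nat (1 / 2 : ℝ)).comp hu).const_add (1 / 4)
    simpa using this
  refine tendsto_of_tendsto_of_tendsto_of_le_of_le' l1 l2 ?_ ?_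
  · filter_upwards [h1] with n hn
    exact hn (hgood n)
  · filter_upwards [h2] with n hn
    have := hn (hgood n)
    have h3 := masses_le_one (K := K) hε2 (hgood n)
    linarith

lemma tendsto_m2 {K ε : ℝ} (hK : 0 < K) (hε : 0 < ε) (hε2 : ε ≤ 3 / 8) (u : ℕ → ℕ)
    (hu : Tendsto u atTop atTop) (hgood : ∀ n, Good (u n)) :
    Tendsto (fun n => m2 K ε (u n)) atTop (𝓝 (3 / 4)) := by
  have h1 := hu.eventually (m1_lower hK hε)
  have h2 := hu.eventually (m2_lower hK hε)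
  have l1 : Tendsto (fun n => 3 / 4 + (Cn K : ℝ) / (u n : ℝ)) atTop (𝓝 (3 / 4)) := by
    have := ((tendsto_const_div_atTop_nhds_zero_nat (Cn K : ℝ)).comp hu).const_add (3 / 4)
    simpa using this
  have l2 : Tendsto (fun n => 3 / 4 - (1 / 2) / (u n : ℝ)) atTop (𝓝 (3 / 4)) := by
    have := ((tendsto_const_div_atTop_nhds_zero_nat (1 / 2 : ℝ)).comp hu).const_sub (3 / 4)
    simpa using this
  refine tendsto_of_tendsto_of_tendsto_of_le_of_le' l2 l1 ?_ ?_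
  · filter_upwards [h2] with n hn
    exact hn (hgood n)
  · filter_upwards [h1] with n hn
    have := hn (hgood n)
    have h3 := masses_le_one (K := K) hε2 (hgood n)
    linarith

lemma pm_le_one {l : ℕ} {p : ℝ} (h0 : 0 ≤ p) (h1 : p ≤ 1) (y : Reg l) : pm p y ≤ 1 := by
  unfold pm
  refine Finset.prod_le_one (fun i _ => mu_nonneg h0 h1 _) (fun i _ => ?_)
  unfold mu
  split_ifs <;> linarith

lemma tendsto_atoms (u : ℕ → ℕ) (hu : Tendsto u atTop atTop) (hgood : ∀ n, Good (u n)) :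
    Tendsto (fun n => ⨆ s, Wk (u n) s) atTop (𝓝 0) := by
  have l1 : Tendsto (fun n => (1 : ℝ) / (u n : ℝ)) atTop (𝓝 0) :=
    (tendsto_const_div_atTop_nhds_zero_nat (1 : ℝ)).comp hu
  refine squeeze_zero (fun n => Real.iSup_nonneg (fun s => Wk_nonneg (hgood n) s)) (fun n => ?_) l1
  have hg := hgood n
  have : Nonempty (St (lk (u n)) (u n)) := ⟨z0 _ _ 0⟩
  refine ciSup_le (fun s => ?_)
  have hk0 : (0 : ℝ) < (u n : ℝ) := by exact_mod_cast hg.one
  unfold Wk W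
  have h1 := pm_le_one (pk_pos hg.one).le (pk_lt_one (u n)).le s.1
  have h2 : (1 : ℝ) / ((u n : ℝ) + 2) ≤ 1 / (u n : ℝ) :=
    one_div_le_one_div_of_le hk0 (by linarith)
  have h3 : (0 : ℝ) ≤ 1 / ((u n : ℝ) + 2) := by positivity
  nlinarith [mul_le_mul_of_nonneg_right h1 h3]

lemma tendsto_tk (u : ℕ → ℕ) (hu : Tendsto u atTop atTop) (hgood : ∀ n, Good (u n)) :
    Tendsto (fun n => tk (u n)) atTop atTop := by
  have h1 : Tendsto (fun n => (u n : ℝ) / 2) atTop atTop :=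
    (tendsto_natCast_atTop_atTop.comp hu).atTop_div_const (by norm_num)
  exact tendsto_atTop_mono (fun n => tk_lower (hgood n)) h1

end Pool.Agent.MP_d1aba8_pr
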