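import Pool.Agent.Lib.MP_d1aba8_pr.Chain

namespace Pool.Agent.MP_d1aba8_pr

open scoped BigOperators
open Filter

/-- registers which are `false` on `D` -/
def Z {l : ℕ} (D : Finset (Fin (l + 1))) : Finset (Reg l) :=
  Finset.univ.filter (fun y => ∀ i ∈ D, y i = false)

lemma mem_Z {l : ℕ} (D : Finset (Fin (l + 1))) (y : Reg l) :
    y ∈ Z D ↔ ∀ i ∈ D, y i = false := by
  unfold Z; simp

lemma pm_Z {l : ℕ} (p : ℝ) (D : Finset (Fin (l + 1))) :
    ∑ y ∈ Z D, pm p y = (1 - p) ^ D.card := by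
  unfold Z
  rw [Finset.sum_filter]
  have h1 : ∀ y : Reg l, (if (∀ i ∈ D, y i = false) then pm p y else 0) =
      ∏ i, (if i ∈ D then (if y i = false then 1 - p else 0) else mu p (y i)) := by
    intro y
    by_cases h : ∀ i ∈ D, y i = false
    · rw [if_pos h]
      unfold pm
      refine Finset.prod_congr rfl (fun i _ => ?_)
      by_cases hi : i ∈ D
      · rw [if_pos hi, if_pos (h i hi), h i hi]
        unfold mu; simp
      · rw [if_neg hi]
    · rw [if_neg h]
      push Not at h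
      obtain ⟨i, hi, hy⟩ := h
      symm
      refine Finset.prod_eq_zero (Finset.mem_univ i) ?_
      rw [if_pos hi, if_neg hy]
  rw [Finset.sum_congr rfl (fun y _ => h1 y)]
  have h6 : ∏ i : Fin (l + 1), ∑ b : Bool,
      (if i ∈ D then (if b = false then 1 - p else 0) else mu p b) =
      ∑ z : Reg l, ∏ j : Fin (l + 1),
        (if j ∈ D then (if z j = false then 1 - p else 0) else mu p (z j)) :=
    Fintype.prod_sum (κ := fun _ : Fin (l + 1) => Bool)
      (fun i b => if i ∈ D then (if b = false then 1 - p else 0) else mu p b)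
  rw [← h6]
  have h2 : ∀ i : Fin (l + 1), ∑ b : Bool,
      (if i ∈ D then (if b = false then 1 - p else 0) else mu p b) =
      if i ∈ D then (1 - p) else 1 := by
    intro i
    by_cases hi : i ∈ D
    · simp [hi]
    · simp only [hi, if_false]
      exact mu_sum p
  rw [Finset.prod_congr rfl (fun i _ => h2 i), Finset.prod_ite_mem, Finset.univ_inter,
    Finset.prod_const]

lemma pm_Z_compl {l : ℕ} (p : ℝ) (D : Finset (Fin (l + 1))) :
    ∑ y ∈ (Z D)ᶜ, pm p y = 1 - (1 - p) ^ D.card := by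
  have h := Finset.sum_add_sum_compl (Z D) (pm p)
  rw [pm_Z, pm_sum] at h
  linarith

lemma card_early (l J : ℕ) :
    (Finset.univ.filter (fun i : Fin (l + 1) => (i : ℕ) + J < l + 1)).card = l + 1 - J := by
  rw [Finset.card_filter, Fin.sum_univ_eq_sum_range (fun i => if i + J < l + 1 then 1 else 0) (l + 1),
    ← Finset.card_filter]
  have : (Finset.range (l + 1)).filter (fun i => i + J < l + 1) = Finset.range (l + 1 - J) := by
    ext i; simp only [Finset.mem_filter, Finset.mem_range]; omega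
  rw [this, Finset.card_range]

lemma card_late (l J : ℕ) :
    (Finset.univ.filter (fun i : Fin (l + 1) => J ≤ (i : ℕ))).card = l + 1 - J := by
  rw [Finset.card_filter, Fin.sum_univ_eq_sum_range (fun i => if J ≤ i then 1 else 0) (l + 1),
    ← Finset.card_filter]
  have : (Finset.range (l + 1)).filter (fun i => J ≤ i) = Finset.Ico J (l + 1) := by
    ext i; simp only [Finset.mem_filter, Finset.mem_range, Finset.mem_Ico]; omega
  rw [this, Nat.card_Ico]

lemma card_window (l J i0 : ℕ) :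
    (Finset.univ.filter (fun i : Fin (l + 1) => i0 ≤ (i : ℕ) + J ∧ (i : ℕ) ≤ i0)).card ≤ J + 1 := by
  rw [Finset.card_filter, Fin.sum_univ_eq_sum_range
    (fun i => if i0 ≤ i + J ∧ i ≤ i0 then 1 else 0) (l + 1), ← Finset.card_filter]
  have : (Finset.range (l + 1)).filter (fun i => i0 ≤ i + J ∧ i ≤ i0) ⊆
      Finset.Ico (i0 - J) (i0 + 1) := by
    intro i; simp only [Finset.mem_filter, Finset.mem_range, Finset.mem_Ico]; omega
  refine (Finset.card_le_card this).trans ?_
  rw [Nat.card_Ico]; omega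

/-- sets of states depending on the register only -/
def cyl {l : ℕ} (M : ℕ) (A : Finset (Reg l)) : Finset (St l M) := A ×ˢ Finset.univ

lemma R_cyl {l M : ℕ} (p : ℝ) (r : ℕ) (s : St l M) (A : Finset (Reg l)) :
    ∑ t ∈ cyl M A, R l M p r s t = ∑ y ∈ A, K p r s.1 y := by
  unfold cyl
  rw [Finset.sum_product]
  refine Finset.sum_congr rfl (fun y _ => ?_)
  simp only [R_apply]
  rw [← Finset.mul_sum, mk_sum, mul_one]

lemma W_cyl {l M : ℕ} (p : ℝ) (A : Finset (Reg l)) :
    ∑ t ∈ cyl M A, W l M p t = ∑ y ∈ A, pm p y := by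
  unfold cyl
  rw [Finset.sum_product]
  refine Finset.sum_congr rfl (fun y _ => ?_)
  unfold W
  simp only
  rw [Finset.sum_const, Finset.card_univ, Fintype.card_fin, nsmul_eq_mul]
  push_cast
  field_simp

/-- the empty register with mark `a` -/
def z0 (l M : ℕ) (a : Fin (M + 2)) : St l M := (fun _ => false, a)

lemma tv_z0_lower {l M : ℕ} {p : ℝ} (h0 : 0 ≤ p) (h1 : p ≤ 1) (a : Fin (M + 2)) {t : ℝ}
    (ht : 0 ≤ t) (J : ℕ) :
    1 - Real.exp t / 2 ^ J - (1 - p) ^ (l + 1 - J) ≤
      tv (R l M p 1 - 1) (W l M p) (z0 l M a) t := by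
  set D := Finset.univ.filter (fun i : Fin (l + 1) => (i : ℕ) + J < l + 1) with hD
  have h := tv_lower (R_stoch l M h0 h1 1) (W l M p) (z0 l M a) ht J (cyl M (Z D)) ?_
  · rw [W_cyl, pm_Z, card_early] at h
    exact h
  · intro r hr
    rw [R_pow, R_cyl]
    refine K_set _ (fun y hy => ?_)
    rw [mem_Z]
    intro i hi
    rw [hD, Finset.mem_filter] at hi
    rw [hy i (by omega)]
    rfl

lemma tv_one_lower {l M : ℕ} {p : ℝ} (h0 : 0 ≤ p) (h1 : p ≤ 1) (s : St l M) {t : ℝ}
    (ht : 0 ≤ t) (J : ℕ) (i0 : Fin (l + 1)) (hi0 : J ≤ (i0 : ℕ)) (hs : s.1 i0 = true) :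
    1 - Real.exp t / 2 ^ J - (J + 1) * p ≤ tv (R l M p 1 - 1) (W l M p) s t := by
  set D := Finset.univ.filter
    (fun i : Fin (l + 1) => (i0 : ℕ) ≤ (i : ℕ) + J ∧ (i : ℕ) ≤ (i0 : ℕ)) with hD
  have h := tv_lower (R_stoch l M h0 h1 1) (W l M p) s ht J (cyl M (Z D)ᶜ) ?_
  · rw [W_cyl, pm_Z_compl] at h
    have h2 : 1 + (D.card : ℝ) * (-p) ≤ (1 + (-p)) ^ D.card :=
      one_add_mul_le_pow (by linarith) _
    have h3 : (D.card : ℝ) ≤ J + 1 := by exact_mod_cast card_window l J i0
    have h4 : (D.card : ℝ) * p ≤ (J + 1) * p := mul_le_mul_of_nonneg_right h3 h0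
    have h5 : (1 + (-p)) ^ D.card = (1 - p) ^ D.card := by rw [← sub_eq_add_neg]
    rw [h5] at h2
    linarith
  · intro r hr
    rw [R_pow, R_cyl]
    refine K_set _ (fun y hy => ?_)
    rw [Finset.mem_compl, mem_Z]
    intro hcon
    have hlt : (i0 : ℕ) - r < l + 1 := by have := i0.2; omega
    have h6 := hcon ⟨(i0 : ℕ) - r, hlt⟩ (by
      rw [hD, Finset.mem_filter]
      refine ⟨Finset.mem_univ _, ?_, ?_⟩
      · simp only; omega
      · simp only; omega)
    have h7 := hy ⟨(i0 : ℕ) - r, hlt⟩ (by have := i0.2; simp only; omega)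
    have h8 : (⟨(((⟨(i0 : ℕ) - r, hlt⟩ : Fin (l + 1)) : ℕ)) + r, by
        have := i0.2; simp only; omega⟩ : Fin (l + 1)) = i0 := by
      apply Fin.ext; simp only; omega
    rw [h8, hs, h6] at h7
    exact absurd h7 (by decide)

lemma K_dom {l : ℕ} {p : ℝ} (h0 : 0 ≤ p) (h1 : p ≤ 1) (m : ℕ) (y : Reg l) :
    (1 - p) ^ (l + 1 - m) * K p m (fun _ => false) y ≤ pm p y := by
  have h2 : (1 - p) ^ (l + 1 - m) = ∏ i : Fin (l + 1), (if (i : ℕ) + m < l + 1 then (1 - p) else 1) := by
    rw [← card_early l m, ← Finset.prod_const, Finset.prod_filter]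
  rw [h2]
  unfold K pm
  rw [← Finset.prod_mul_distrib]
  refine Finset.prod_le_prod (fun i _ => ?_) (fun i _ => ?_)
  · refine mul_nonneg ?_ (fac_nonneg h0 h1 _ _ _ _)
    split_ifs <;> linarith
  · unfold fac
    by_cases h : (i : ℕ) + m < l + 1
    · rw [if_pos h, dif_pos h]
      by_cases hy : y i = false
      · rw [if_pos hy, hy, mul_one]
        unfold mu; simp
      · rw [if_neg hy, mul_zero]
        exact mu_nonneg h0 h1 _
    · rw [if_neg h, dif_neg h, one_mul]

lemma tv_z0_upper {l M : ℕ} {p : ℝ} (h0 : 0 ≤ p) (h1 : p ≤ 1) (a : Fin (M + 2)) {t : ℝ}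
    (ht : 0 ≤ t) (m : ℕ) (hm : 1 ≤ m) :
    tv (R l M p 1 - 1) (W l M p) (z0 l M a) t ≤
      2 ^ m * Real.exp (-t / 2) + (1 - (1 - p) ^ (l + 1 - m)) := by
  have h := tv_upper_dom (R_stoch l M h0 h1 1) (W_nonneg l M h0 h1) (W_sum l M p)
    (W_stat l M p) (z0 l M a) ht m (c := (1 - p) ^ (l + 1 - m))
    (pow_le_one₀ (by linarith) (by linarith)) ?_
  · have h2 := pw_lower_tail ht m
    linarith
  · intro t'
    rw [R_pow, R_apply]
    unfold W
    have h3 : mk M m (z0 l M a).2 t'.2 = 1 / ((M : ℝ) + 2) := by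
      unfold mk; rw [if_neg (by omega)]
    rw [h3, ← mul_assoc]
    exact mul_le_mul_of_nonneg_right (K_dom h0 h1 m t'.1) (by positivity)

/-- the distance does not depend on the mark -/
lemma tv_mark_le {l M : ℕ} (p : ℝ) (x : Reg l) (a b : Fin (M + 2)) (t : ℝ) :
    tv (R l M p 1 - 1) (W l M p) (x, a) t ≤ tv (R l M p 1 - 1) (W l M p) (x, b) t := by
  classical
  let e : St l M ≃ St l M := (Equiv.refl _).prodCongr (Equiv.swap a b)
  have hR : ∀ (r : ℕ) (s : St l M), R l M p r (x, a) s = R l M p r (x, b) (e s) := by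
    intro r s
    rw [R_apply, R_apply]
    have e1 : (e s).1 = s.1 := rfl
    have e2 : (e s).2 = Equiv.swap a b s.2 := rfl
    rw [e1, e2]
    congr 1
    unfold mk
    by_cases hr : r = 0
    · simp only [hr, if_true]
      by_cases has : a = s.2
      · rw [← has, Equiv.swap_apply_left]; simp
      · rw [if_neg has]
        rw [if_neg]
        intro h
        apply has
        have := congrArg (Equiv.swap a b) h
        rw [Equiv.swap_apply_right, Equiv.swap_apply_self] at this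
        exact this
    · simp only [hr, if_false]
  have hT : ∀ s : St l M, trans (R l M p 1 - 1) t (x, a) s = trans (R l M p 1 - 1) t (x, b) (e s) := by
    intro s
    have h1 := hasSum_trans (R l M p 1) t (x, a) s
    have h2 := hasSum_trans (R l M p 1) t (x, b) (e s)
    have h3 : (fun r => pw t r * (R l M p 1 ^ r) (x, a) s) =
        fun r => pw t r * (R l M p 1 ^ r) (x, b) (e s) := by
      funext r
      rw [R_pow, hR]
    rw [h3] at h1
    exact h1.unique h2
  have hW : ∀ s : St l M, W l M p s = W l M p (e s) := fun s => rfl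
  refine tv_le (fun A => ?_)
  have h4 : ∑ s ∈ A, trans (R l M p 1 - 1) t (x, a) s =
      ∑ s ∈ A.map e.toEmbedding, trans (R l M p 1 - 1) t (x, b) s := by
    rw [Finset.sum_map]
    exact Finset.sum_congr rfl (fun s _ => hT s)
  have h5 : ∑ s ∈ A, W l M p s = ∑ s ∈ A.map e.toEmbedding, W l M p s := by
    rw [Finset.sum_map]
    exact Finset.sum_congr rfl (fun s _ => hW s)
  rw [h4, h5]
  exact le_ciSup (bddAbove_tv (R l M p 1 - 1) (W l M p) (x, b) t) (A.map e.toEmbedding)

lemma tv_mark {l M : ℕ} (p : ℝ) (x : Reg l) (a b : Fin (M + 2)) (t : ℝ) :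
    tv (R l M p 1 - 1) (W l M p) (x, a) t = tv (R l M p 1 - 1) (W l M p) (x, b) t :=
  le_antisymm (tv_mark_le p x a b t) (tv_mark_le p x b a t)

/-- mass of the states with empty register -/
lemma W_z0 (l M : ℕ) (p : ℝ) :
    ∑ t ∈ cyl M ({(fun _ => false)} : Finset (Reg l)), W l M p t = (1 - p) ^ (l + 1) := by
  rw [W_cyl, Finset.sum_singleton]
  unfold pm mu
  simp

/-- mass of the states with a late one -/
lemma W_late (l M J : ℕ) (p : ℝ) :
    ∑ t ∈ cyl M (Z (l := l) (Finset.univ.filter (fun i : Fin (l + 1) => J ≤ (i : ℕ))))ᶜ, W l M p t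
      = 1 - (1 - p) ^ (l + 1 - J) := by
  rw [W_cyl, pm_Z_compl, card_late]

end Pool.Agent.MP_d1aba8_pr
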