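import Pool.Agent.Lib.MP_d1aba8_pr.Defs

namespace Pool.Agent.MP_d1aba8_pr

open scoped BigOperators
open Filter

/-- Poisson weights -/
noncomputable def pw (t : ℝ) (r : ℕ) : ℝ := Real.exp (-t) * (t ^ r / r.factorial)

lemma pw_nonneg {t : ℝ} (ht : 0 ≤ t) (r : ℕ) : 0 ≤ pw t r := by
  unfold pw; positivity

lemma hasSum_exp_real (x : ℝ) : HasSum (fun n : ℕ => x ^ n / n.factorial) (Real.exp x) := by
  have h := NormedSpace.expSeries_div_hasSum_exp x
  rwa [← Real.exp_eq_exp_ℝ] at h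

lemma hasSum_pw (t : ℝ) : HasSum (pw t) 1 := by
  have h := (hasSum_exp_real t).mul_left (Real.exp (-t))
  have e : Real.exp (-t) * Real.exp t = 1 := by rw [← Real.exp_add]; simp
  rw [e] at h
  exact h

lemma hasSum_pw_pow (t c : ℝ) : HasSum (fun r => c ^ r * pw t r) (Real.exp (c * t - t)) := by
  have h := (hasSum_exp_real (c * t)).mul_left (Real.exp (-t))
  have e : Real.exp (-t) * Real.exp (c * t) = Real.exp (c * t - t) := by
    rw [← Real.exp_add]; congr 1; ring
  rw [e] at h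
  have e2 : (fun r => c ^ r * pw t r) =
      fun i => Real.exp (-t) * ((c * t) ^ i / (i.factorial : ℝ)) := by
    funext r
    unfold pw
    rw [mul_pow]; ring
  rw [e2]
  exact h

/-- upper tail: `1 - 2^{-J} e^t ≤ P(N_t ≤ J)` -/
lemma pw_upper_tail {t : ℝ} (ht : 0 ≤ t) (J : ℕ) :
    1 - Real.exp t / 2 ^ J ≤ ∑ r ∈ Finset.range (J + 1), pw t r := by
  have h2 := hasSum_pw_pow t 2
  have e : (2 : ℝ) * t - t = t := by ring
  rw [e] at h2
  have h3 := h2.mul_left ((2 : ℝ) ^ J)⁻¹
  have h4 : HasSum (fun r => if r ∈ Finset.range (J + 1) then pw t r else 0)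
      (∑ r ∈ Finset.range (J + 1), (if r ∈ Finset.range (J + 1) then pw t r else 0)) :=
    hasSum_sum_of_ne_finset_zero (fun r hr => by simp [hr])
  have h5 := h4.add h3
  have h6 : (1 : ℝ) ≤ ∑ r ∈ Finset.range (J + 1), (if r ∈ Finset.range (J + 1) then pw t r else 0)
      + ((2 : ℝ) ^ J)⁻¹ * Real.exp t := by
    refine hasSum_le (fun r => ?_) (hasSum_pw t) h5
    by_cases hr : r ∈ Finset.range (J + 1)
    · simp only [hr, if_true]
      have : 0 ≤ ((2 : ℝ) ^ J)⁻¹ * (2 ^ r * pw t r) := by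
        have := pw_nonneg ht r; positivity
      linarith
    · simp only [hr, if_false, zero_add]
      have hJ : J ≤ r := by
        simp only [Finset.mem_range, not_lt] at hr; omega
      have h7 : (1 : ℝ) ≤ ((2 : ℝ) ^ J)⁻¹ * 2 ^ r := by
        rw [inv_mul_eq_div, le_div_iff₀ (by positivity), one_mul]
        exact pow_le_pow_right₀ (by norm_num) hJ
      calc pw t r = 1 * pw t r := by ring
        _ ≤ (((2 : ℝ) ^ J)⁻¹ * 2 ^ r) * pw t r := by
            exact mul_le_mul_of_nonneg_right h7 (pw_nonneg ht r)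
        _ = _ := by ring
  have h8 : ∑ r ∈ Finset.range (J + 1), (if r ∈ Finset.range (J + 1) then pw t r else 0)
      = ∑ r ∈ Finset.range (J + 1), pw t r :=
    Finset.sum_congr rfl (fun r hr => by simp only [hr, if_true])
  rw [h8] at h6
  have h9 : ((2 : ℝ) ^ J)⁻¹ * Real.exp t = Real.exp t / 2 ^ J := by rw [inv_mul_eq_div]
  linarith

/-- lower tail: `P(N_t < m) ≤ 2^m e^{-t/2}` -/
lemma pw_lower_tail {t : ℝ} (ht : 0 ≤ t) (m : ℕ) :
    ∑ r ∈ Finset.range m, pw t r ≤ 2 ^ m * Real.exp (-t / 2) := by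
  have h2 := hasSum_pw_pow t (1 / 2)
  have e : (1 / 2 : ℝ) * t - t = -t / 2 := by ring
  rw [e] at h2
  have h3 := h2.mul_left ((2 : ℝ) ^ m)
  have h4 : ∑ r ∈ Finset.range m, pw t r ≤
      ∑ r ∈ Finset.range m, (2 : ℝ) ^ m * ((1 / 2) ^ r * pw t r) := by
    refine Finset.sum_le_sum (fun r hr => ?_)
    have hr' : r ≤ m := by simp only [Finset.mem_range] at hr; omega
    have h7 : (1 : ℝ) ≤ (2 : ℝ) ^ m * (1 / 2) ^ r := by
      rw [one_div, inv_pow, ← div_eq_mul_inv, le_div_iff₀ (by positivity), one_mul]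
      exact pow_le_pow_right₀ (by norm_num) hr'
    calc pw t r = 1 * pw t r := by ring
      _ ≤ ((2 : ℝ) ^ m * (1 / 2) ^ r) * pw t r :=
          mul_le_mul_of_nonneg_right h7 (pw_nonneg ht r)
      _ = _ := by ring
  refine h4.trans ?_
  exact sum_le_hasSum _ (fun r _ => by have := pw_nonneg ht r; positivity) h3

section matrices

variable {S : Type} [Fintype S] [DecidableEq S]

lemma hasSum_trans (P : Matrix S S ℝ) (t : ℝ) (x y : S) :
    HasSum (fun r => pw t r * (P ^ r) x y) (trans (P - 1) t x y) := by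
  have hexp : trans (P - 1) t = Real.exp (-t) • NormedSpace.exp (t • P) := by
    unfold trans
    have e1 : t • (P - 1) = (-t) • (1 : Matrix S S ℝ) + t • P := by
      rw [smul_sub]; simp only [neg_smul]; abel
    rw [e1, Matrix.exp_add_of_commute _ _ (((Commute.one_left P).smul_left _).smul_right _)]
    have e2 : ((-t) • (1 : Matrix S S ℝ)) = Matrix.diagonal (fun _ : S => (-t)) := by
      ext i j
      by_cases hij : i = j
      · subst hij; simp
      · simp [hij]
    rw [e2, Matrix.exp_diagonal]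
    have e3 : (NormedSpace.exp (fun _ : S => (-t))) = fun _ : S => Real.exp (-t) := by
      funext i
      rw [Pi.coe_exp, ← Real.exp_eq_exp_ℝ]
    rw [e3]
    ext i j
    rw [Matrix.diagonal_mul]
    simp
  have hs : HasSum (fun r : ℕ => ((r.factorial : ℝ)⁻¹ • (t • P) ^ r)) (NormedSpace.exp (t • P)) := by
    let _ : NormedRing (Matrix S S ℝ) := Matrix.linftyOpNormedRing
    let _ : NormedAlgebra ℝ (Matrix S S ℝ) := Matrix.linftyOpNormedAlgebra
    exact NormedSpace.exp_series_hasSum_exp' (𝕂 := ℝ) (t • P)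
  have hs2 : HasSum (fun r : ℕ => ((r.factorial : ℝ)⁻¹ • (t • P) ^ r) x y)
      (NormedSpace.exp (t • P) x y) := by
    have h1 := Pi.hasSum.1 hs x
    exact Pi.hasSum.1 h1 y
  have hs3 := hs2.mul_left (Real.exp (-t))
  have e4 : (fun r => pw t r * (P ^ r) x y) =
      fun i : ℕ => Real.exp (-t) * ((i.factorial : ℝ)⁻¹ • (t • P) ^ i) x y := by
    funext r
    simp only [Matrix.smul_apply, smul_pow, smul_eq_mul]
    unfold pw
    ring
  rw [e4, hexp]
  exact hs3

lemma hasSum_trans_set (P : Matrix S S ℝ) (t : ℝ) (x : S) (A : Finset S) :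
    HasSum (fun r => pw t r * ∑ y ∈ A, (P ^ r) x y) (∑ y ∈ A, trans (P - 1) t x y) := by
  have h := hasSum_sum (s := A) (fun y _ => hasSum_trans P t x y)
  have e : (fun r => pw t r * ∑ y ∈ A, (P ^ r) x y) =
      fun r => ∑ y ∈ A, pw t r * (P ^ r) x y := by
    funext r
    rw [Finset.mul_sum]
  rw [e]
  exact h

end matrices

end Pool.Agent.MP_d1aba8_pr
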