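import Pool.Agent.Lib.MP_d1aba8_pr.Tv

namespace Pool.Agent.MP_d1aba8_pr

open scoped BigOperators
open Filter

/-- Bernoulli weights -/
noncomputable def mu (p : ℝ) (b : Bool) : ℝ := if b then p else 1 - p

lemma mu_nonneg {p : ℝ} (h0 : 0 ≤ p) (h1 : p ≤ 1) (b : Bool) : 0 ≤ mu p b := by
  unfold mu; split_ifs <;> linarith

lemma mu_pos {p : ℝ} (h0 : 0 < p) (h1 : p < 1) (b : Bool) : 0 < mu p b := by
  unfold mu; split_ifs <;> linarith

lemma mu_sum (p : ℝ) : ∑ b : Bool, mu p b = 1 := by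
  simp [mu]

/-- register of length `l + 1`; index `0` is the oldest symbol -/
abbrev Reg (l : ℕ) : Type := Fin (l + 1) → Bool

/-- one factor of the `r`-step kernel -/
noncomputable def fac {l : ℕ} (p : ℝ) (r : ℕ) (x : Reg l) (i : Fin (l + 1)) (b : Bool) : ℝ :=
  if h : (i : ℕ) + r < l + 1 then (if b = x ⟨i + r, h⟩ then 1 else 0) else mu p b

/-- the `r`-step kernel -/
noncomputable def K {l : ℕ} (p : ℝ) (r : ℕ) (x y : Reg l) : ℝ := ∏ i, fac p r x i (y i)

/-- product measure -/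
noncomputable def pm {l : ℕ} (p : ℝ) (y : Reg l) : ℝ := ∏ i, mu p (y i)

lemma fac_nonneg {l : ℕ} {p : ℝ} (h0 : 0 ≤ p) (h1 : p ≤ 1) (r : ℕ) (x : Reg l)
    (i : Fin (l + 1)) (b : Bool) : 0 ≤ fac p r x i b := by
  unfold fac
  split_ifs
  · norm_num
  · norm_num
  · exact mu_nonneg h0 h1 b

lemma fac_sum {l : ℕ} (p : ℝ) (r : ℕ) (x : Reg l) (i : Fin (l + 1)) :
    ∑ b, fac p r x i b = 1 := by
  unfold fac
  by_cases h : (i : ℕ) + r < l + 1
  · simp only [h, dif_pos]
    simp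
  · simp only [h, dif_neg, not_false_eq_true]
    exact mu_sum p

lemma K_nonneg {l : ℕ} {p : ℝ} (h0 : 0 ≤ p) (h1 : p ≤ 1) (r : ℕ) (x y : Reg l) :
    0 ≤ K p r x y := Finset.prod_nonneg (fun i _ => fac_nonneg h0 h1 r x i (y i))

lemma K_row_sum {l : ℕ} (p : ℝ) (r : ℕ) (x : Reg l) : ∑ y, K p r x y = 1 := by
  unfold K
  rw [← Fintype.prod_sum (fun i b => fac p r x i b)]
  rw [Finset.prod_congr rfl (fun i _ => fac_sum p r x i)]
  simp only [Finset.prod_const_one]

lemma pm_nonneg {l : ℕ} {p : ℝ} (h0 : 0 ≤ p) (h1 : p ≤ 1) (y : Reg l) :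
    0 ≤ pm p y := Finset.prod_nonneg (fun i _ => mu_nonneg h0 h1 (y i))

lemma pm_pos {l : ℕ} {p : ℝ} (h0 : 0 < p) (h1 : p < 1) (y : Reg l) :
    0 < pm p y := Finset.prod_pos (fun i _ => mu_pos h0 h1 (y i))

lemma pm_sum {l : ℕ} (p : ℝ) : ∑ y : Reg l, pm p y = 1 := by
  unfold pm
  rw [← Fintype.prod_sum (fun (_ : Fin (l + 1)) b => mu p b)]
  simp only [mu_sum, Finset.prod_const_one]

lemma K_zero {l : ℕ} (p : ℝ) (x y : Reg l) : K p 0 x y = if x = y then 1 else 0 := by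
  unfold K fac
  by_cases h : x = y
  · subst h
    rw [if_pos rfl]
    refine Finset.prod_eq_one (fun i _ => ?_)
    have h1 : (i : ℕ) + 0 < l + 1 := by omega
    rw [dif_pos h1]
    simp
  · simp only [h, if_false]
    obtain ⟨i, hi⟩ := Function.ne_iff.1 h
    refine Finset.prod_eq_zero (Finset.mem_univ i) ?_
    have h1 : (i : ℕ) + 0 < l + 1 := by omega
    simp only [h1, dif_pos]
    rw [if_neg]
    intro h2
    exact hi (by simpa using h2.symm)

lemma K_big {l : ℕ} (p : ℝ) {r : ℕ} (hr : l + 1 ≤ r) (x y : Reg l) : K p r x y = pm p y := by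
  unfold K pm
  refine Finset.prod_congr rfl (fun i _ => ?_)
  unfold fac
  rw [dif_neg (by omega)]

lemma K_support {l : ℕ} {p : ℝ} {r : ℕ} {x y : Reg l} (h : K p r x y ≠ 0) (i : Fin (l + 1))
    (hi : (i : ℕ) + r < l + 1) : y i = x ⟨i + r, hi⟩ := by
  unfold K at h
  rw [Finset.prod_ne_zero_iff] at h
  have h1 := h i (Finset.mem_univ i)
  unfold fac at h1
  rw [dif_pos hi] at h1
  by_contra h2
  exact h1 (if_neg h2)

/-- a set containing the support has probability one -/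
lemma K_set {l : ℕ} {p : ℝ} {r : ℕ} {x : Reg l} (A : Finset (Reg l))
    (hA : ∀ y, (∀ (i : Fin (l + 1)) (hi : (i : ℕ) + r < l + 1), y i = x ⟨i + r, hi⟩) → y ∈ A) :
    ∑ y ∈ A, K p r x y = 1 := by
  rw [← K_row_sum p r x]
  refine Finset.sum_subset (Finset.subset_univ A) (fun y _ hy => ?_)
  by_contra h
  exact hy (hA y (fun i hi => K_support h i hi))

lemma K_one_formula {l : ℕ} (p : ℝ) (z y : Reg l) :
    K p 1 z y = (∏ i : Fin l, (if y i.castSucc = z i.succ then (1 : ℝ) else 0)) *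
      mu p (y (Fin.last l)) := by
  unfold K
  rw [Fin.prod_univ_castSucc]
  congr 1
  · refine Finset.prod_congr rfl (fun i _ => ?_)
    unfold fac
    have h : ((i.castSucc : Fin (l + 1)) : ℕ) + 1 < l + 1 := by
      simp only [Fin.val_castSucc]; omega
    rw [dif_pos h]
    rfl
  · unfold fac
    rw [dif_neg (by simp)]

/-- auxiliary factor -/
noncomputable def G {l : ℕ} (p : ℝ) (r : ℕ) (x y : Reg l) (j : Fin (l + 1)) (b : Bool) : ℝ :=
  fac p r x j b *
    (Fin.cases (1 : ℝ) (fun i : Fin l => if y i.castSucc = b then (1 : ℝ) else 0) j)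

lemma G_zero {l : ℕ} (p : ℝ) (r : ℕ) (x y : Reg l) (b : Bool) :
    G p r x y 0 b = fac p r x 0 b := by
  unfold G; simp

lemma G_succ {l : ℕ} (p : ℝ) (r : ℕ) (x y : Reg l) (i : Fin l) (b : Bool) :
    G p r x y i.succ b = fac p r x i.succ b * (if y i.castSucc = b then (1 : ℝ) else 0) := by
  unfold G; simp

lemma K_mul_K_one {l : ℕ} (p : ℝ) (r : ℕ) (x y z : Reg l) :
    K p r x z * K p 1 z y = mu p (y (Fin.last l)) * ∏ j : Fin (l + 1), G p r x y j (z j) := by
  rw [K_one_formula, Fin.prod_univ_succ (f := fun j => G p r x y j (z j)), G_zero]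
  unfold K
  rw [Fin.prod_univ_succ]
  simp only [G_succ]
  rw [Finset.prod_mul_distrib]
  ring

lemma G_sum_zero {l : ℕ} (p : ℝ) (r : ℕ) (x y : Reg l) : ∑ b, G p r x y 0 b = 1 := by
  rw [Finset.sum_congr rfl (fun b _ => G_zero p r x y b)]
  exact fac_sum p r x 0

lemma G_sum_succ {l : ℕ} (p : ℝ) (r : ℕ) (x y : Reg l) (i : Fin l) :
    ∑ b, G p r x y i.succ b = fac p (r + 1) x i.castSucc (y i.castSucc) := by
  rw [Finset.sum_congr rfl (fun b _ => G_succ p r x y i b)]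
  rw [Finset.sum_eq_single (y i.castSucc)]
  · rw [if_pos rfl, mul_one]
    unfold fac
    have e : (((i.castSucc : Fin (l + 1)) : ℕ) + (r + 1) < l + 1) ↔
        (((i.succ : Fin (l + 1)) : ℕ) + r < l + 1) := by
      simp only [Fin.val_castSucc, Fin.val_succ]; omega
    by_cases h : ((i.succ : Fin (l + 1)) : ℕ) + r < l + 1
    · rw [dif_pos h, dif_pos (e.2 h)]
      have : (⟨((i.succ : Fin (l + 1)) : ℕ) + r, h⟩ : Fin (l + 1)) =
          ⟨((i.castSucc : Fin (l + 1)) : ℕ) + (r + 1), e.2 h⟩ := by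
        apply Fin.ext
        simp only [Fin.val_castSucc, Fin.val_succ]; omega
      rw [this]
    · rw [dif_neg h, dif_neg (fun h' => h (e.1 h'))]
  · intro b _ hb
    rw [if_neg (fun h => hb h.symm), mul_zero]
  · intro h
    exact absurd (Finset.mem_univ _) h

lemma K_succ {l : ℕ} (p : ℝ) (r : ℕ) (x y : Reg l) :
    ∑ z, K p r x z * K p 1 z y = K p (r + 1) x y := by
  rw [Finset.sum_congr rfl (fun z _ => K_mul_K_one p r x y z), ← Finset.mul_sum]
  have h6 : ∏ i : Fin (l + 1), ∑ b : Bool, G p r x y i b =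
      ∑ z : Reg l, ∏ j : Fin (l + 1), G p r x y j (z j) :=
    Fintype.prod_sum (κ := fun _ : Fin (l + 1) => Bool) (fun i b => G p r x y i b)
  rw [← h6, Fin.prod_univ_succ, G_sum_zero, one_mul]
  unfold K
  rw [Fin.prod_univ_castSucc (n := l)]
  have h4 : fac p (r + 1) x (Fin.last l) (y (Fin.last l)) = mu p (y (Fin.last l)) := by
    unfold fac
    rw [dif_neg (by simp)]
  rw [h4, mul_comm]
  congr 1
  exact Finset.prod_congr rfl (fun i _ => G_sum_succ p r x y i)

end Pool.Agent.MP_d1aba8_pr
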