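import Pool.Agent.Lib.MP_d1aba8_pr.Sharp

/-!
# Reversible chains: the L² contraction
-/

namespace Pool.Agent.MP_d1aba8_pr

open scoped BigOperators Topology
open Filter

variable {S : Type} [Fintype S] [DecidableEq S]

/-- Reversibility (detailed balance). -/
def IsReversible (Q : Matrix S S ℝ) (w : S → ℝ) : Prop := ∀ x y, w x * Q x y = w y * Q y x

lemma hasDerivAt_trans (Q : Matrix S S ℝ) (x y : S) (t : ℝ) :
    HasDerivAt (fun t => trans Q t x y) ((Q * trans Q t) x y) t := by
  let _ : NormedRing (Matrix S S ℝ) := Matrix.linftyOpNormedRing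
  let _ : NormedAlgebra ℝ (Matrix S S ℝ) := Matrix.linftyOpNormedAlgebra
  have h : HasDerivAt (fun u : ℝ => NormedSpace.exp (u • Q)) (Q * NormedSpace.exp (t • Q)) t :=
    hasDerivAt_exp_smul_const' Q t
  let L : Matrix S S ℝ →ₗ[ℝ] ℝ :=
    { toFun := fun M => M x y, map_add' := fun _ _ => rfl, map_smul' := fun _ _ => rfl }
  have hL := (LinearMap.toContinuousLinearMap L).hasFDerivAt.comp_hasDerivAt t h
  exact hL

lemma w_pos {Q : Matrix S S ℝ} (hQ : IsGenerator Q) (hI : IsIrred Q) {w : S → ℝ}
    (hw : IsStationary Q w) (y : S) : 0 < w y := by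
  rw [← trans_stat hQ hw (t := 1) y]
  obtain ⟨x, hx⟩ : ∃ x, 0 < w x := by
    by_contra hc
    push Not at hc
    have h1 : ∑ x, w x ≤ 0 := Finset.sum_nonpos fun x _ => hc x
    rw [hw.sum_one] at h1
    norm_num at h1
  refine lt_of_lt_of_le (mul_pos hx (trans_pos_of_irred hQ hI x y)) ?_
  exact Finset.single_le_sum (f := fun x => w x * trans Q 1 x y)
    (fun z _ => mul_nonneg (hw.nonneg z) ((trans_stoch hQ zero_le_one).nonneg z y))
    (Finset.mem_univ x)

/-- The Dirichlet form. -/
lemma dirichlet {Q : Matrix S S ℝ} (hQ : IsGenerator Q) {w : S → ℝ} (hR : IsReversible Q w)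
    (g : S → ℝ) : ∑ x, w x * g x * ∑ y, Q x y * g y =
      -(1 / 2) * ∑ x, ∑ y, w x * Q x y * (g x - g y) ^ 2 := by
  have h1 : ∑ x, ∑ y, w x * Q x y * (g x) ^ 2 = 0 := by
    apply Finset.sum_eq_zero
    intro x _
    have : ∑ y, w x * Q x y * (g x) ^ 2 = (w x * (g x) ^ 2) * ∑ y, Q x y := by
      rw [Finset.mul_sum]
      exact Finset.sum_congr rfl (fun y _ => by ring)
    rw [this, hQ.row_sum x, mul_zero]
  have h2 : ∑ x, ∑ y, w x * Q x y * (g y) ^ 2 = 0 := by
    rw [Finset.sum_comm]
    apply Finset.sum_eq_zero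
    intro y _
    have : ∑ x, w x * Q x y * (g y) ^ 2 = (w y * (g y) ^ 2) * ∑ x, Q y x := by
      rw [Finset.mul_sum]
      refine Finset.sum_congr rfl (fun x _ => ?_)
      rw [hR x y]
      ring
    rw [this, hQ.row_sum y, mul_zero]
  have h3 : ∑ x, ∑ y, w x * Q x y * (g x - g y) ^ 2 =
      ∑ x, ∑ y, w x * Q x y * (g x) ^ 2 + ∑ x, ∑ y, w x * Q x y * (g y) ^ 2 -
        2 * ∑ x, w x * g x * ∑ y, Q x y * g y := by
    rw [← Finset.sum_add_distrib, Finset.mul_sum, ← Finset.sum_sub_distrib]
    refine Finset.sum_congr rfl (fun x _ => ?_)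
    rw [← Finset.sum_add_distrib, Finset.mul_sum, Finset.mul_sum, ← Finset.sum_sub_distrib]
    exact Finset.sum_congr rfl (fun y _ => by ring)
  rw [h3, h1, h2]
  ring

/-- A harmonic function of an irreducible reversible chain is constant. -/
lemma const_of_harmonic {Q : Matrix S S ℝ} (hQ : IsGenerator Q) (hI : IsIrred Q) {w : S → ℝ}
    (hw : IsStationary Q w) (hR : IsReversible Q w) {g : S → ℝ}
    (hg : ∀ x, ∑ y, Q x y * g y = 0) (x y : S) : g x = g y := by
  have h1 := dirichlet hQ hR g
  have h2 : ∑ x, w x * g x * ∑ y, Q x y * g y = 0 :=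
    Finset.sum_eq_zero fun x _ => by rw [hg x, mul_zero]
  rw [h2] at h1
  have h3 : ∑ x, ∑ y, w x * Q x y * (g x - g y) ^ 2 = 0 := by linarith
  have hnn : ∀ x y, 0 ≤ w x * Q x y * (g x - g y) ^ 2 := by
    intro x y
    by_cases hxy : x = y
    · subst hxy; simp
    · have := hQ.offdiag_nonneg x y hxy
      have := hw.nonneg x
      positivity
  have h4 : ∀ x y, w x * Q x y * (g x - g y) ^ 2 = 0 := by
    intro x y
    have h5 := (Finset.sum_eq_zero_iff_of_nonneg
      (fun x _ => Finset.sum_nonneg fun y _ => hnn x y)).1 h3 x (Finset.mem_univ x)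
    exact (Finset.sum_eq_zero_iff_of_nonneg (fun y _ => hnn x y)).1 h5 y (Finset.mem_univ y)
  have h5 : ∀ a b, 0 < Q a b → g a = g b := by
    intro a b hab
    have h6 := h4 a b
    have h7 : 0 < w a * Q a b := mul_pos (w_pos hQ hI hw a) hab
    have h8 : (g a - g b) ^ 2 = 0 := by
      rcases mul_eq_zero.1 h6 with h | h
      · exact absurd h h7.ne'
      · exact h
    have h9 := pow_eq_zero_iff (two_ne_zero) |>.1 h8
    linarith
  have h6 := hI x y
  induction h6 with
  | refl => rfl
  | tail _ hbc ih => rw [ih, h5 _ _ hbc.2]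

/-- The Poincaré inequality with the spectral gap. -/
lemma poincare {Q : Matrix S S ℝ} (hQ : IsGenerator Q) (hI : IsIrred Q) {w : S → ℝ}
    (hw : IsStationary Q w) (hR : IsReversible Q w) {lam : ℝ} (hl : IsGap Q lam)
    {g : S → ℝ} (hg : ∑ x, w x * g x = 0) :
    ∑ x, w x * g x * ∑ y, Q x y * g y ≤ -lam * ∑ x, w x * g x ^ 2 := by
  have hwpos := w_pos hQ hI hw
  set r : S → ℝ := fun x => Real.sqrt (w x) with hr
  have hrpos : ∀ x, 0 < r x := fun x => Real.sqrt_pos.2 (hwpos x)
  have hrr : ∀ x, r x * r x = w x := fun x => Real.mul_self_sqrt (hw.nonneg x)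
  set B : Matrix S S ℝ := fun x y => r x * Q x y / r y with hBdef
  have hB : B.IsHermitian := by
    ext x y
    simp only [Matrix.conjTranspose_apply, star_trivial, hBdef]
    rw [div_eq_div_iff (hrpos x).ne' (hrpos y).ne']
    have h1 := hR x y
    rw [← hrr x, ← hrr y] at h1
    linarith
  -- eigenvectors
  set b := hB.eigenvectorBasis with hb
  set mu := hB.eigenvalues with hmu
  have hBv : ∀ j, B.mulVec (b j) = mu j • (b j : S → ℝ) := fun j => hB.mulVec_eigenvectorBasis j
  have hQu : ∀ j x, ∑ y, Q x y * ((b j : S → ℝ) y / r y) = mu j * ((b j : S → ℝ) x / r x) := by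
    intro j x
    have h1 := congrFun (hBv j) x
    simp only [Matrix.mulVec, dotProduct, Pi.smul_apply, smul_eq_mul, hBdef] at h1
    have h2 : ∑ y, r x * Q x y / r y * (b j : S → ℝ) y =
        r x * ∑ y, Q x y * ((b j : S → ℝ) y / r y) := by
      rw [Finset.mul_sum]
      exact Finset.sum_congr rfl (fun y _ => by ring)
    rw [h2] at h1
    have h3 := (hrpos x).ne'
    rw [← mul_div_assoc, eq_div_iff h3, mul_comm]
    exact h1
  have hmu_le : ∀ j, mu j ≠ 0 → mu j ≤ -lam := by
    intro j hj
    have h1 : (-(mu j) : ℝ) ∈ {r : ℝ | ∃ z : ℂ, z ≠ 0 ∧ IsEigenvalue (-Q) z ∧ z.re = r} := by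
      refine ⟨((-(mu j) : ℝ) : ℂ), ?_, ?_, by simp⟩
      · exact_mod_cast neg_ne_zero.2 hj
      · refine ⟨fun x => (((b j : S → ℝ) x / r x : ℝ) : ℂ), ?_, ?_⟩
        · intro h0
          have h2 : b j = 0 := by
            ext x
            have h3 := congrFun h0 x
            simp only [Pi.zero_apply] at h3
            have h4 : (b j : S → ℝ) x / r x = 0 := Complex.ofReal_eq_zero.1 h3
            rcases div_eq_zero_iff.1 h4 with h | h
            · exact h
            · exact absurd h (hrpos x).ne'
          have h5 : ‖b j‖ = 1 := b.orthonormal.1 j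
          rw [h2, norm_zero] at h5
          norm_num at h5
        · funext x
          have h2 := hQu j x
          simp only [Matrix.mulVec, dotProduct, Matrix.map_apply, Matrix.neg_apply, Pi.smul_apply,
            smul_eq_mul]
          have h3 : ∑ y, ((-(Q x y) : ℝ) : ℂ) * (((b j : S → ℝ) y / r y : ℝ) : ℂ) =
              ((-∑ y, Q x y * ((b j : S → ℝ) y / r y) : ℝ) : ℂ) := by
            push_cast
            rw [← Finset.sum_neg_distrib]
            exact Finset.sum_congr rfl (fun y _ => by ring)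
          rw [h3, h2]
          push_cast
          ring
    have h2 := hl.2 h1
    linarith
  -- the test vector
  set hv : EuclideanSpace ℝ S := WithLp.toLp 2 (fun x => r x * g x) with hhv
  have horth : ∀ j, mu j = 0 → inner ℝ (b j) hv = 0 := by
    intro j hj
    have h1 : ∀ x, ∑ y, Q x y * ((b j : S → ℝ) y / r y) = 0 := by
      intro x
      rw [hQu j x, hj, zero_mul]
    have hc := const_of_harmonic hQ hI hw hR (g := fun y => (b j : S → ℝ) y / r y) h1
    by_cases hne : Nonempty S
    · obtain ⟨x0⟩ := hne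
      set c := (b j : S → ℝ) x0 / r x0 with hcdef
      have h2 : ∀ x, (b j : S → ℝ) x = c * r x := by
        intro x
        have h3 := hc x x0
        have h4 := (hrpos x).ne'
        simp only at h3
        rw [← hcdef] at h3
        rw [← h3]
        field_simp
      have h3 : inner ℝ (b j) hv = ∑ x, hv x * (b j : S → ℝ) x := by
        rw [PiLp.inner_apply]
        refine Finset.sum_congr rfl (fun x _ => ?_)
        simp
      rw [h3]
      have h4 : ∀ x, hv x * (b j : S → ℝ) x = c * (w x * g x) := by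
        intro x
        rw [h2 x, ← hrr x]
        show (r x * g x) * (c * r x) = _
        ring
      rw [Finset.sum_congr rfl (fun x _ => h4 x), ← Finset.mul_sum, hg, mul_zero]
    · rw [not_nonempty_iff] at hne
      exact (hne.false j).elim
  -- expansion
  have hnorm : ∑ x, w x * g x ^ 2 = ∑ j, (inner ℝ (b j) hv) ^ 2 := by
    have h1 : ‖hv‖ ^ 2 = ∑ j, (inner ℝ (b j) hv) ^ 2 := by
      rw [← b.sum_sq_norm_inner_right hv]
      exact Finset.sum_congr rfl (fun j _ => by rw [Real.norm_eq_abs, sq_abs])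
    rw [← h1, EuclideanSpace.norm_sq_eq]
    refine Finset.sum_congr rfl (fun x _ => ?_)
    have h2 : hv x = r x * g x := rfl
    rw [Real.norm_eq_abs, sq_abs, h2, mul_pow, ← hrr x]
    ring
  have hform : ∑ x, w x * g x * ∑ y, Q x y * g y = ∑ j, mu j * (inner ℝ (b j) hv) ^ 2 := by
    -- `hv = ∑ ⟨b j, hv⟩ b j`
    have h1 : ∀ y, hv y = ∑ j, inner ℝ (b j) hv * (b j : S → ℝ) y := by
      intro y
      have h2 := b.sum_repr hv
      have h3 : (∑ j, b.repr hv j • b j) y = ∑ j, inner ℝ (b j) hv * (b j : S → ℝ) y := by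
        rw [WithLp.ofLp_sum, Finset.sum_apply]
        refine Finset.sum_congr rfl (fun j _ => ?_)
        rw [b.repr_apply_apply]
        rfl
      rw [← h3, h2]
    have h2 : ∀ x, r x * ∑ y, Q x y * g y = ∑ j, (mu j * inner ℝ (b j) hv) * (b j : S → ℝ) x := by
      intro x
      have h3 : ∀ y, g y = ∑ j, inner ℝ (b j) hv * ((b j : S → ℝ) y / r y) := by
        intro y
        have h4 := h1 y
        have h5 : hv y = r y * g y := rfl
        rw [h5] at h4
        have h6 := (hrpos y).ne'
        have h7 : g y = (∑ j, inner ℝ (b j) hv * (b j : S → ℝ) y) / r y := by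
          rw [← h4]; field_simp
        rw [h7, Finset.sum_div]
        exact Finset.sum_congr rfl (fun j _ => by ring)
      calc r x * ∑ y, Q x y * g y
          = r x * ∑ y, Q x y * ∑ j, inner ℝ (b j) hv * ((b j : S → ℝ) y / r y) := by
            congr 1
            exact Finset.sum_congr rfl (fun y _ => by rw [← h3 y])
        _ = r x * ∑ j, inner ℝ (b j) hv * ∑ y, Q x y * ((b j : S → ℝ) y / r y) := by
            congr 1
            simp only [Finset.mul_sum]
            rw [Finset.sum_comm]
            exact Finset.sum_congr rfl fun j _ => Finset.sum_congr rfl fun y _ => by ring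
        _ = ∑ j, (mu j * inner ℝ (b j) hv) * (b j : S → ℝ) x := by
            rw [Finset.mul_sum]
            refine Finset.sum_congr rfl (fun j _ => ?_)
            rw [hQu j x]
            have h6 := (hrpos x).ne'
            field_simp
    have h3 : ∀ x, w x * g x * ∑ y, Q x y * g y =
        ∑ j, (mu j * inner ℝ (b j) hv) * ((b j : S → ℝ) x * hv x) := by
      intro x
      have h4 : w x * g x * ∑ y, Q x y * g y = (r x * ∑ y, Q x y * g y) * (r x * g x) := by
        rw [← hrr x]; ring
      have h5 : hv x = r x * g x := rfl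
      rw [h4, h2 x, ← h5, Finset.sum_mul]
      exact Finset.sum_congr rfl (fun j _ => by ring)
    rw [Finset.sum_congr rfl (fun x _ => h3 x), Finset.sum_comm]
    refine Finset.sum_congr rfl (fun j _ => ?_)
    rw [← Finset.mul_sum]
    have h6 : inner ℝ (b j) hv = ∑ x, (b j : S → ℝ) x * hv x := by
      rw [PiLp.inner_apply]
      refine Finset.sum_congr rfl (fun x _ => ?_)
      simp [mul_comm]
    rw [← h6]
    ring
  rw [hform, hnorm, Finset.mul_sum]
  refine Finset.sum_le_sum (fun j _ => ?_)
  by_cases hj : mu j = 0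
  · rw [horth j hj]
    simp
  · exact mul_le_mul_of_nonneg_right (hmu_le j hj) (sq_nonneg _)

/-- The L² contraction. -/
lemma contraction {Q : Matrix S S ℝ} (hQ : IsGenerator Q) (hI : IsIrred Q) {w : S → ℝ}
    (hw : IsStationary Q w) (hR : IsReversible Q w) {lam : ℝ} (hl : IsGap Q lam)
    {g : S → ℝ} (hg : ∑ x, w x * g x = 0) {u : ℝ} (hu : 0 ≤ u) :
    ∑ x, w x * (∑ y, trans Q u x y * g y) ^ 2 ≤
      Real.exp (-(2 * lam * u)) * ∑ x, w x * g x ^ 2 := by
  set G : ℝ → S → ℝ := fun t x => ∑ y, trans Q t x y * g y with hG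
  have hder : ∀ t x, HasDerivAt (fun t => G t x) (∑ y, Q x y * G t y) t := by
    intro t x
    have h1 : HasDerivAt (fun t => ∑ y, trans Q t x y * g y)
        (∑ y, (Q * trans Q t) x y * g y) t :=
      HasDerivAt.fun_sum fun y _ => (hasDerivAt_trans Q x y t).mul_const (g y)
    have h2 : ∑ y, (Q * trans Q t) x y * g y = ∑ y, Q x y * G t y := by
      simp only [hG, Matrix.mul_apply, Finset.mul_sum, Finset.sum_mul]
      rw [Finset.sum_comm]
      exact Finset.sum_congr rfl fun z _ => Finset.sum_congr rfl fun y _ => by ring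
    rw [h2] at h1
    exact h1
  set φ : ℝ → ℝ := fun t => ∑ x, w x * (G t x) ^ 2 with hφ
  have hφder : ∀ t, HasDerivAt φ (∑ x, w x * (2 * G t x * ∑ y, Q x y * G t y)) t := by
    intro t
    refine HasDerivAt.fun_sum fun x _ => ?_
    have h1 := ((hder t x).pow 2).const_mul (w x)
    simpa using h1
  have hmean : ∀ t, ∑ x, w x * G t x = 0 := by
    intro t
    simp only [hG, Finset.mul_sum]
    rw [Finset.sum_comm]
    have h1 : ∀ y, ∑ x, w x * (trans Q t x y * g y) = w y * g y := by
      intro y
      rw [← trans_stat hQ hw (t := t) y, Finset.sum_mul]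
      exact Finset.sum_congr rfl (fun x _ => by ring)
    rw [Finset.sum_congr rfl (fun y _ => h1 y), hg]
  have hψ : Antitone (fun t => Real.exp (2 * lam * t) * φ t) := by
    have hd : ∀ t, HasDerivAt (fun t => Real.exp (2 * lam * t) * φ t)
        ((Real.exp (2 * lam * t) * (2 * lam)) * φ t +
          Real.exp (2 * lam * t) * (∑ x, w x * (2 * G t x * ∑ y, Q x y * G t y))) t := by
      intro t
      have h1 : HasDerivAt (fun t => Real.exp (2 * lam * t))
          (Real.exp (2 * lam * t) * (2 * lam)) t := by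
        have h2 : HasDerivAt (fun t : ℝ => 2 * lam * t) (2 * lam) t := by
          simpa using (hasDerivAt_id t).const_mul (2 * lam)
        exact h2.exp
      exact h1.mul (hφder t)
    apply antitone_of_deriv_nonpos
    · intro t
      exact (hd t).differentiableAt
    · intro t
      rw [(hd t).deriv]
      have h2 := poincare hQ hI hw hR hl (hmean t)
      have h3 : ∑ x, w x * (2 * G t x * ∑ y, Q x y * G t y) =
          2 * ∑ x, w x * G t x * ∑ y, Q x y * G t y := by
        rw [Finset.mul_sum]
        exact Finset.sum_congr rfl (fun x _ => by ring)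
      rw [h3]
      have h4 : 0 < Real.exp (2 * lam * t) := Real.exp_pos _
      have h5 : Real.exp (2 * lam * t) * (2 * ∑ x, w x * G t x * ∑ y, Q x y * G t y) ≤
          Real.exp (2 * lam * t) * (2 * (-lam * φ t)) :=
        mul_le_mul_of_nonneg_left (by linarith) h4.le
      have h6 : Real.exp (2 * lam * t) * (2 * (-lam * φ t)) =
          -(Real.exp (2 * lam * t) * (2 * lam) * φ t) := by ring
      linarith
  have h1 := hψ hu
  simp only [mul_zero, Real.exp_zero, one_mul] at h1
  have h2 : φ 0 = ∑ x, w x * g x ^ 2 := by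
    simp only [hφ, hG, trans_zero]
    refine Finset.sum_congr rfl (fun x _ => ?_)
    have : ∑ y, (1 : Matrix S S ℝ) x y * g y = g x := by simp [Matrix.one_apply]
    rw [this]
  rw [h2] at h1
  have h3 : Real.exp (-(2 * lam * u)) * (Real.exp (2 * lam * u) * φ u) = φ u := by
    rw [← mul_assoc, ← Real.exp_add]
    simp
  have h4 : φ u = ∑ x, w x * (∑ y, trans Q u x y * g y) ^ 2 := rfl
  rw [← h4, ← h3]
  exact mul_le_mul_of_nonneg_left h1 (Real.exp_pos _).le

end Pool.Agent.MP_d1aba8_pr
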