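import Pool.Agent.Lib.MP_d1aba8_pr.Rev1

/-!
# Reversible chains: concentration of the total variation distance over the starting point
-/

namespace Pool.Agent.MP_d1aba8_pr

open scoped BigOperators Topology
open Filter

variable {S : Type} [Fintype S] [DecidableEq S]

/-- The standing assumptions. -/
structure RevChain (Q : Matrix S S ℝ) (w : S → ℝ) (lam : ℝ) : Prop where
  gen : IsGenerator Q
  irr : IsIrred Q
  stat : IsStationary Q w
  rev : IsReversible Q w
  gap : IsGap Q lam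

/-- average distance -/
noncomputable def FF (Q : Matrix S S ℝ) (w : S → ℝ) (t : ℝ) : ℝ := ∑ x, w x * tv Q w x t

lemma tv_nonneg' (Q : Matrix S S ℝ) (w : S → ℝ) (x : S) (t : ℝ) : 0 ≤ tv Q w x t := by
  have h := sub_le_tv Q w x t ∅
  simpa using h

lemma mass_le_one {w : S → ℝ} (h0 : ∀ x, 0 ≤ w x) (h1 : ∑ x, w x = 1) (A : Finset S) :
    ∑ x ∈ A, w x ≤ 1 := by
  rw [← h1]
  exact Finset.sum_le_univ_sum_of_nonneg h0

lemma markov {w : S → ℝ} (h0 : ∀ x, 0 ≤ w x) {g : S → ℝ} (hg : ∀ x, 0 ≤ g x) {a : ℝ} (ha : 0 < a) :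
    ∑ x with a < g x, w x ≤ (∑ x, w x * g x) / a := by
  rw [le_div_iff₀ ha, Finset.sum_mul]
  calc ∑ x with a < g x, w x * a ≤ ∑ x with a < g x, w x * g x :=
        Finset.sum_le_sum fun x hx =>
          mul_le_mul_of_nonneg_left (Finset.mem_filter.1 hx).2.le (h0 x)
    _ ≤ ∑ x, w x * g x := Finset.sum_le_univ_sum_of_nonneg fun x => mul_nonneg (h0 x) (hg x)

lemma sum_filter_le_of_imp {w : S → ℝ} (h0 : ∀ x, 0 ≤ w x) {p q : S → Prop} [DecidablePred p]
    [DecidablePred q] (h : ∀ x, p x → q x) : ∑ x with p x, w x ≤ ∑ x with q x, w x :=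
  Finset.sum_le_sum_of_subset_of_nonneg
    (fun x hx => Finset.mem_filter.2 ⟨Finset.mem_univ x, h x (Finset.mem_filter.1 hx).2⟩)
    (fun x _ _ => h0 x)

lemma sum_filter_or {w : S → ℝ} (h0 : ∀ x, 0 ≤ w x) {p q r : S → Prop} [DecidablePred p]
    [DecidablePred q] [DecidablePred r] (h : ∀ x, p x → q x ∨ r x) :
    ∑ x with p x, w x ≤ ∑ x with q x, w x + ∑ x with r x, w x := by
  rw [Finset.sum_filter, Finset.sum_filter, Finset.sum_filter, ← Finset.sum_add_distrib]
  refine Finset.sum_le_sum fun x _ => ?_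
  have h1 := h x
  have h2 := h0 x
  by_cases hp : p x
  · rw [if_pos hp]
    rcases h1 hp with h3 | h3
    · rw [if_pos h3]
      split_ifs <;> linarith
    · rw [if_pos h3]
      split_ifs <;> linarith
  · rw [if_neg hp]
    split_ifs <;> linarith

section

variable {Q : Matrix S S ℝ} {w : S → ℝ} {lam : ℝ}

lemma trans_add_sum (Q : Matrix S S ℝ) (s t : ℝ) (x : S) (A : Finset S) :
    ∑ a ∈ A, trans Q (s + t) x a = ∑ y, trans Q s x y * ∑ a ∈ A, trans Q t y a := by
  rw [trans_add]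
  simp only [Matrix.mul_apply, Finset.mul_sum]
  rw [Finset.sum_comm]

/-- Lemma A. -/
lemma tv_add_le (hQ : IsGenerator Q) (hw : IsStationary Q w) {s t : ℝ} (hs : 0 ≤ s) (ht : 0 ≤ t)
    (x : S) : tv Q w x (s + t) ≤ ∑ y, trans Q s x y * tv Q w y t := by
  refine tv_le_of_sub hQ hw.sum_one (by positivity) fun A => ?_
  have h1 : ∑ a ∈ A, trans Q (s + t) x a - ∑ a ∈ A, w a =
      ∑ y, trans Q s x y * (∑ a ∈ A, trans Q t y a - ∑ a ∈ A, w a) := by
    rw [trans_add_sum]
    simp only [mul_sub]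
    rw [Finset.sum_sub_distrib, ← Finset.sum_mul, (trans_stoch hQ hs).row_sum x, one_mul]
  rw [h1]
  exact Finset.sum_le_sum fun y _ =>
    mul_le_mul_of_nonneg_left (sub_le_tv Q w y t A) ((trans_stoch hQ hs).nonneg x y)

lemma mean_trans (hQ : IsGenerator Q) (hw : IsStationary Q w) (t : ℝ) (g : S → ℝ) :
    ∑ x, w x * ∑ y, trans Q t x y * g y = ∑ y, w y * g y := by
  simp only [Finset.mul_sum]
  rw [Finset.sum_comm]
  refine Finset.sum_congr rfl fun y _ => ?_
  rw [← trans_stat hQ hw (t := t) y, Finset.sum_mul]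
  exact Finset.sum_congr rfl (fun x _ => by ring)

lemma FF_nonneg (hw : IsStationary Q w) (t : ℝ) : 0 ≤ FF Q w t :=
  Finset.sum_nonneg fun x _ => mul_nonneg (hw.nonneg x) (tv_nonneg' Q w x t)

lemma FF_le_one (hQ : IsGenerator Q) (hw : IsStationary Q w) {t : ℝ} (ht : 0 ≤ t) :
    FF Q w t ≤ 1 := by
  rw [← hw.sum_one]
  refine Finset.sum_le_sum fun x _ => ?_
  have h1 := tv_le_one hQ hw.nonneg hw.sum_one x ht
  calc w x * tv Q w x t ≤ w x * 1 := mul_le_mul_of_nonneg_left h1 (hw.nonneg x)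
    _ = w x := mul_one _

/-- Lemma B. -/
lemma chebyshev (h : RevChain Q w lam) {t u α : ℝ} (ht : 0 ≤ t) (hu : 0 ≤ u) (hα : 0 < α) :
    ∑ x with α < |∑ y, trans Q u x y * tv Q w y t - FF Q w t|, w x ≤
      Real.exp (-(2 * lam * u)) / α ^ 2 := by
  set F := FF Q w t with hF
  have hmean : ∑ x, w x * (tv Q w x t - F) = 0 := by
    simp only [mul_sub]
    rw [Finset.sum_sub_distrib, ← Finset.sum_mul, h.stat.sum_one, one_mul]
    exact sub_self _
  have h1 := contraction h.gen h.irr h.stat h.rev h.gap hmean hu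
  have h2 : ∀ x, ∑ y, trans Q u x y * (tv Q w y t - F) =
      ∑ y, trans Q u x y * tv Q w y t - F := by
    intro x
    simp only [mul_sub]
    rw [Finset.sum_sub_distrib, ← Finset.sum_mul, (trans_stoch h.gen hu).row_sum x, one_mul]
  simp only [h2] at h1
  have h3 : ∑ x, w x * (tv Q w x t - F) ^ 2 ≤ 1 := by
    rw [← h.stat.sum_one]
    refine Finset.sum_le_sum fun x _ => ?_
    have h4 := tv_le_one h.gen h.stat.nonneg h.stat.sum_one x ht
    have h5 := tv_nonneg' Q w x t
    have h6 := FF_nonneg (Q := Q) h.stat t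
    have h7 := FF_le_one h.gen h.stat ht
    have h8 : (tv Q w x t - F) ^ 2 ≤ 1 := by
      rw [sq_le_one_iff_abs_le_one, abs_le]
      constructor <;> linarith
    calc w x * (tv Q w x t - F) ^ 2 ≤ w x * 1 := mul_le_mul_of_nonneg_left h8 (h.stat.nonneg x)
      _ = w x := mul_one _
  have h4 : ∑ x, w x * (∑ y, trans Q u x y * tv Q w y t - F) ^ 2 ≤ Real.exp (-(2 * lam * u)) := by
    refine h1.trans ?_
    calc Real.exp (-(2 * lam * u)) * ∑ x, w x * (tv Q w x t - F) ^ 2
        ≤ Real.exp (-(2 * lam * u)) * 1 := mul_le_mul_of_nonneg_left h3 (Real.exp_pos _).le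
      _ = _ := mul_one _
  have h5 := markov h.stat.nonneg (g := fun x => (∑ y, trans Q u x y * tv Q w y t - F) ^ 2)
    (fun x => sq_nonneg _) (show 0 < α ^ 2 by positivity)
  refine le_trans ?_ (h5.trans (div_le_div_of_nonneg_right h4 (by positivity)))
  refine sum_filter_le_of_imp h.stat.nonneg fun x hx => ?_
  rw [← sq_abs (∑ y, trans Q u x y * tv Q w y t - F)]
  exact pow_lt_pow_left₀ hx hα.le two_ne_zero

/-- Lemma C. -/
lemma concentrate (h : RevChain Q w lam) {t u α β ρ : ℝ} (ht : 0 ≤ t) (hu : 0 ≤ u) (hα : 0 < α)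
    (hβ : 0 < β) (hρ : FF Q w t - FF Q w (t + u) ≤ ρ) :
    ∑ x with α + β < |tv Q w x (t + u) - FF Q w t|, w x ≤
      Real.exp (-(2 * lam * u)) / α ^ 2 + ρ / β := by
  set F := FF Q w t with hF
  have hle : ∀ x, tv Q w x (t + u) ≤ ∑ y, trans Q u x y * tv Q w y t := by
    intro x
    rw [add_comm t u]
    exact tv_add_le h.gen h.stat hu ht x
  have h1 := chebyshev h ht hu hα
  have h2 := markov h.stat.nonneg
    (g := fun x => ∑ y, trans Q u x y * tv Q w y t - tv Q w x (t + u))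
    (fun x => by linarith [hle x]) hβ
  have h3 : ∑ x, w x * (∑ y, trans Q u x y * tv Q w y t - tv Q w x (t + u)) ≤ ρ := by
    simp only [mul_sub]
    rw [Finset.sum_sub_distrib, mean_trans h.gen h.stat]
    exact hρ
  have h4 := h2.trans (div_le_div_of_nonneg_right h3 hβ.le)
  refine le_trans (sum_filter_or h.stat.nonneg
    (q := fun x => α < |∑ y, trans Q u x y * tv Q w y t - F|)
    (r := fun x => β < ∑ y, trans Q u x y * tv Q w y t - tv Q w x (t + u)) ?_)
    (add_le_add h1 h4)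
  intro x hx
  by_contra hc
  push Not at hc
  obtain ⟨h5, h6⟩ := hc
  rw [abs_le] at h5
  have h7 := hle x
  rcases lt_abs.1 hx with h8 | h8
  · linarith [h5.2]
  · linarith [h5.1]

/-- Lemma D. -/
lemma pigeon (hQ : IsGenerator Q) (hw : IsStationary Q w) {t u : ℝ} (ht : 0 ≤ t)
    {J : ℕ} (hJ : 1 ≤ J) :
    ∃ j : ℕ, j < J ∧ FF Q w (t + j * u) - FF Q w (t + j * u + u) ≤ 1 / J := by
  by_contra hc
  push Not at hc
  have hJ0 : (0 : ℝ) < J := by exact_mod_cast hJ
  have h1 : ∑ j ∈ Finset.range J, (1 / (J : ℝ)) <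
      ∑ j ∈ Finset.range J, (FF Q w (t + j * u) - FF Q w (t + j * u + u)) :=
    Finset.sum_lt_sum_of_nonempty ⟨0, Finset.mem_range.2 (by omega)⟩
      fun j hj => hc j (Finset.mem_range.1 hj)
  have h2 : ∑ j ∈ Finset.range J, (FF Q w (t + j * u) - FF Q w (t + j * u + u)) =
      FF Q w t - FF Q w (t + J * u) := by
    have h3 : ∀ j : ℕ, FF Q w (t + j * u) - FF Q w (t + j * u + u) =
        (fun j : ℕ => FF Q w (t + j * u)) j - (fun j : ℕ => FF Q w (t + j * u)) (j + 1) := by
      intro j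
      simp only
      congr 2
      push_cast
      ring
    rw [Finset.sum_congr rfl (fun j _ => h3 j), Finset.sum_range_sub']
    simp
  rw [h2, Finset.sum_const, Finset.card_range, nsmul_eq_mul] at h1
  have h3 : (J : ℝ) * (1 / J) = 1 := by field_simp
  have h4 := FF_le_one hQ hw ht
  have h5 := FF_nonneg (Q := Q) hw (t + J * u)
  linarith

/-- Theorem E. -/
theorem up (h : RevChain Q w lam) {t u α β κ c : ℝ} (ht : 0 ≤ t) (hu : 0 ≤ u) (hα : 0 < α)
    (hβ : 0 < β) {J : ℕ} (hJ : 1 ≤ J)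
    (hκ : Real.exp (-(2 * lam * u)) / α ^ 2 + 1 / J / β ≤ κ)
    (hA : κ < ∑ x with tv Q w x t ≤ c, w x) {T : ℝ} (hT : t + J * u ≤ T) :
    ∑ x with c + 2 * (α + β) < tv Q w x T, w x ≤ κ := by
  obtain ⟨j, hj, hF⟩ := pigeon (u := u) h.gen h.stat ht hJ
  have htj : 0 ≤ t + j * u := by positivity
  have h1 := (concentrate h htj hu hα hβ hF).trans hκ
  set s := t + j * u + u with hs
  set F := FF Q w (t + j * u) with hFdef
  have hts : t ≤ s := by
    have : 0 ≤ (j : ℝ) * u := by positivity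
    linarith
  have hsT : s ≤ T := by
    have h2 : ((j + 1 : ℕ) : ℝ) * u ≤ J * u := by
      apply mul_le_mul_of_nonneg_right _ hu
      exact_mod_cast hj
    push_cast at h2
    linarith
  have hex : ∃ x, tv Q w x t ≤ c ∧ |tv Q w x s - F| ≤ α + β := by
    by_contra hc
    push Not at hc
    have h2 : ∑ x with tv Q w x t ≤ c, w x ≤ ∑ x with α + β < |tv Q w x s - F|, w x :=
      sum_filter_le_of_imp h.stat.nonneg hc
    linarith
  obtain ⟨x, hx1, hx2⟩ := hex
  have h2 := tv_anti h.gen h.stat x ht hts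
  have h3 : F ≤ c + (α + β) := by
    have := (abs_le.1 hx2).1
    linarith
  refine le_trans (sum_filter_le_of_imp h.stat.nonneg fun y hy => ?_) h1
  have h4 := tv_anti h.gen h.stat y (ht.trans hts) hsT
  have h5 := le_abs_self (tv Q w y s - F)
  linarith

/-- Theorem E'. -/
theorem down (h : RevChain Q w lam) {t u α β κ c : ℝ} (hu : 0 ≤ u) (hα : 0 < α)
    (hβ : 0 < β) {J : ℕ} (hJ : 1 ≤ J)
    (hκ : Real.exp (-(2 * lam * u)) / α ^ 2 + 1 / J / β ≤ κ)
    (hA : κ < ∑ x with c ≤ tv Q w x (t + J * u), w x) {T : ℝ} (hT0 : 0 ≤ T) (hT : T ≤ t) :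
    ∑ x with tv Q w x T < c - 2 * (α + β), w x ≤ κ := by
  have ht : 0 ≤ t := hT0.trans hT
  obtain ⟨j, hj, hF⟩ := pigeon (u := u) h.gen h.stat ht hJ
  have htj : 0 ≤ t + j * u := by positivity
  have h1 := (concentrate h htj hu hα hβ hF).trans hκ
  set s := t + j * u + u with hs
  set F := FF Q w (t + j * u) with hFdef
  have hts : t ≤ s := by
    have : 0 ≤ (j : ℝ) * u := by positivity
    linarith
  have hsT : s ≤ t + J * u := by
    have h2 : ((j + 1 : ℕ) : ℝ) * u ≤ J * u := by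
      apply mul_le_mul_of_nonneg_right _ hu
      exact_mod_cast hj
    push_cast at h2
    linarith
  have hex : ∃ x, c ≤ tv Q w x (t + J * u) ∧ |tv Q w x s - F| ≤ α + β := by
    by_contra hc
    push Not at hc
    have h2 : ∑ x with c ≤ tv Q w x (t + J * u), w x ≤
        ∑ x with α + β < |tv Q w x s - F|, w x :=
      sum_filter_le_of_imp h.stat.nonneg hc
    linarith
  obtain ⟨x, hx1, hx2⟩ := hex
  have h2 := tv_anti h.gen h.stat x (ht.trans hts) hsT
  have h3 : c - (α + β) ≤ F := by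
    have := (abs_le.1 hx2).2
    linarith
  refine le_trans (sum_filter_le_of_imp h.stat.nonneg fun y hy => ?_) h1
  have h4 := tv_anti h.gen h.stat y hT0 (hT.trans hts)
  have h5 := neg_le_abs (tv Q w y s - F)
  linarith

/-- `L¹` distance and total variation. -/
lemma l1_le_tv (hQ : IsGenerator Q) (hw1 : ∑ x, w x = 1) {s : ℝ} (hs : 0 ≤ s) (x : S) :
    ∑ y, |trans Q s x y - w y| ≤ 2 * tv Q w x s := by
  set nu : S → ℝ := fun y => trans Q s x y - w y with hnu
  have h0 : ∑ y, nu y = 0 := by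
    simp only [hnu]
    rw [Finset.sum_sub_distrib, (trans_stoch hQ hs).row_sum x, hw1, sub_self]
  have h1 : ∑ y, |nu y| = 2 * ∑ y with 0 < nu y, nu y := by
    have h2 : ∀ y, |nu y| = 2 * (if 0 < nu y then nu y else 0) - nu y := by
      intro y
      split_ifs with h
      · rw [abs_of_pos h]; ring
      · rw [abs_of_nonpos (not_lt.1 h)]; ring
    rw [Finset.sum_congr rfl (fun y _ => h2 y), Finset.sum_sub_distrib, ← Finset.mul_sum, h0,
      sub_zero, Finset.sum_filter]
  rw [h1]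
  have h2 : ∑ y with 0 < nu y, nu y ≤ tv Q w x s := by
    have h3 := sub_le_tv Q w x s (Finset.univ.filter fun y => 0 < nu y)
    rw [← Finset.sum_sub_distrib] at h3
    exact h3
  linarith

/-- Lemma G. -/
lemma submult (hQ : IsGenerator Q) (hw : IsStationary Q w) {s t c : ℝ} (hs : 0 ≤ s) (ht : 0 ≤ t)
    (hc : 0 ≤ c) (x : S) : tv Q w x (s + t) ≤ 2 * c * tv Q w x s +
      ∑ y with c < tv Q w y t, trans Q s x y + ∑ y with c < tv Q w y t, w y := by
  refine tv_le_of_sub hQ hw.sum_one (by positivity) fun A => ?_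
  have hP := trans_stoch hQ hs
  have h1 : ∑ a ∈ A, trans Q (s + t) x a - ∑ a ∈ A, w a =
      ∑ y, (trans Q s x y - w y) * (∑ a ∈ A, trans Q t y a - ∑ a ∈ A, w a) := by
    rw [trans_add_sum]
    simp only [sub_mul, mul_sub]
    rw [Finset.sum_sub_distrib, Finset.sum_sub_distrib, Finset.sum_sub_distrib,
      ← Finset.sum_mul, hP.row_sum x, ← Finset.sum_mul, hw.sum_one, one_mul]
    have h2 : ∑ y, w y * ∑ a ∈ A, trans Q t y a = ∑ a ∈ A, w a := by
      simp only [Finset.mul_sum]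
      rw [Finset.sum_comm]
      exact Finset.sum_congr rfl fun a _ => trans_stat hQ hw a
    rw [h2]
    ring
  rw [h1]
  have h2 : ∀ y, (trans Q s x y - w y) * (∑ a ∈ A, trans Q t y a - ∑ a ∈ A, w a) ≤
      c * |trans Q s x y - w y| + (if c < tv Q w y t then trans Q s x y + w y else 0) := by
    intro y
    have h3 : |∑ a ∈ A, trans Q t y a - ∑ a ∈ A, w a| ≤ tv Q w y t :=
      le_ciSup (bddAbove_tv Q w y t) A
    have h4 := tv_le_one hQ hw.nonneg hw.sum_one y ht
    have h5 : (trans Q s x y - w y) * (∑ a ∈ A, trans Q t y a - ∑ a ∈ A, w a) ≤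
        |trans Q s x y - w y| * tv Q w y t := by
      calc (trans Q s x y - w y) * (∑ a ∈ A, trans Q t y a - ∑ a ∈ A, w a)
          ≤ |(trans Q s x y - w y) * (∑ a ∈ A, trans Q t y a - ∑ a ∈ A, w a)| := le_abs_self _
        _ = |trans Q s x y - w y| * |∑ a ∈ A, trans Q t y a - ∑ a ∈ A, w a| := abs_mul _ _
        _ ≤ _ := mul_le_mul_of_nonneg_left h3 (abs_nonneg _)
    split_ifs with hy
    · have h6 : |trans Q s x y - w y| ≤ trans Q s x y + w y := by
        have h7 := hP.nonneg x y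
        have h8 := hw.nonneg y
        rw [abs_le]; constructor <;> linarith
      have h9 : |trans Q s x y - w y| * tv Q w y t ≤ |trans Q s x y - w y| * 1 :=
        mul_le_mul_of_nonneg_left h4 (abs_nonneg _)
      have h10 : 0 ≤ c * |trans Q s x y - w y| := mul_nonneg hc (abs_nonneg _)
      linarith
    · push Not at hy
      have h6 : |trans Q s x y - w y| * tv Q w y t ≤ |trans Q s x y - w y| * c :=
        mul_le_mul_of_nonneg_left hy (abs_nonneg _)
      linarith
  refine (Finset.sum_le_sum fun y _ => h2 y).trans ?_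
  rw [Finset.sum_add_distrib, ← Finset.mul_sum, ← Finset.sum_filter, Finset.sum_add_distrib]
  have h3 := mul_le_mul_of_nonneg_left (l1_le_tv hQ hw.sum_one hs x) hc
  linarith

/-- Typical submultiplicativity. -/
lemma submult_typical (hQ : IsGenerator Q) (hw : IsStationary Q w) {s t c c' η : ℝ} (hs : 0 ≤ s)
    (ht : 0 ≤ t) (hc : 0 ≤ c) (hη : 0 < η) :
    ∑ x with 2 * c * c' + η + ∑ y with c < tv Q w y t, w y < tv Q w x (s + t), w x ≤
      ∑ x with c' < tv Q w x s, w x + (∑ y with c < tv Q w y t, w y) / η := by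
  set B : Finset S := Finset.univ.filter fun y => c < tv Q w y t with hB
  have h1 := markov hw.nonneg (g := fun x => ∑ y ∈ B, trans Q s x y)
    (fun x => (trans_stoch hQ hs).set_nonneg x B) hη
  have h2 : ∑ x, w x * ∑ y ∈ B, trans Q s x y = ∑ y ∈ B, w y := by
    simp only [Finset.mul_sum]
    rw [Finset.sum_comm]
    exact Finset.sum_congr rfl fun a _ => trans_stat hQ hw a
  rw [h2] at h1
  refine le_trans (sum_filter_or hw.nonneg (q := fun x => c' < tv Q w x s)
    (r := fun x => η < ∑ y ∈ B, trans Q s x y) ?_) (add_le_add le_rfl h1)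
  intro x hx
  by_contra hcon
  push Not at hcon
  obtain ⟨h3, h4⟩ := hcon
  have h5 := submult hQ hw hs ht hc x
  have h6 : 2 * c * tv Q w x s ≤ 2 * c * c' := mul_le_mul_of_nonneg_left h3 (by linarith)
  linarith

end

end Pool.Agent.MP_d1aba8_pr
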