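import Pool.Agent.Lib.MP_d1aba8_pr.Rev2

/-!
# Reversible chains: sequences of chains whose mixing time is large against the relaxation time
-/

namespace Pool.Agent.MP_d1aba8_pr

open scoped BigOperators Topology
open Filter

section one

variable {S : Type} [Fintype S] [DecidableEq S] {Q : Matrix S S ℝ} {w : S → ℝ} {lam : ℝ}

lemma tauFrom_nonneg (Q : Matrix S S ℝ) (w : S → ℝ) (x : S) : 0 ≤ tauFrom Q w x :=
  Real.sInf_nonneg fun _ h => h.1

lemma tauFrom_le {x : S} {t : ℝ} (ht : 0 ≤ t) (h : tv Q w x t ≤ 1 / 4) : tauFrom Q w x ≤ t :=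
  csInf_le ⟨0, fun _ h => h.1⟩ ⟨ht, h⟩

lemma quarter_le_tv {x : S} {m : ℝ} (hm : 0 < m) (h : m ≤ tauFrom Q w x) :
    1 / 4 ≤ tv Q w x m := by
  have h1 : Tendsto (fun t => tv Q w x t) (𝓝[<] m) (𝓝 (tv Q w x m)) :=
    (continuous_tv Q w x).continuousWithinAt.tendsto
  refine ge_of_tendsto h1 ?_
  filter_upwards [Ioo_mem_nhdsLT hm] with t ht
  by_contra hc
  push Not at hc
  have := tauFrom_le (Q := Q) (w := w) (x := x) ht.1.le hc.le
  linarith [ht.2]

lemma tv_le_quarter (hQ : IsGenerator Q) (hI : IsIrred Q) (hw : IsStationary Q w) {x : S} {t : ℝ}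
    (h : tauFrom Q w x ≤ t) : tv Q w x t ≤ 1 / 4 :=
  (tv_of_tauFrom_le hQ hw x (mixes hQ hI hw x) h).2

lemma FF_anti (hQ : IsGenerator Q) (hw : IsStationary Q w) {s t : ℝ} (hs : 0 ≤ s) (hst : s ≤ t) :
    FF Q w t ≤ FF Q w s :=
  Finset.sum_le_sum fun x _ => mul_le_mul_of_nonneg_left (tv_anti hQ hw x hs hst) (hw.nonneg x)

omit [DecidableEq S] in
/-- A lower quantile. -/
lemma exists_quantile {w : S → ℝ} (h0 : ∀ x, 0 ≤ w x) (h1 : ∑ x, w x = 1) (f : S → ℝ) {κ : ℝ}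
    (hκ0 : 0 ≤ κ) (hκ : κ < 1) :
    ∃ a, (∃ x, f x = a) ∧ κ < ∑ x with f x ≤ a, w x ∧ ∑ x with f x < a, w x ≤ κ := by
  have hne : (Finset.univ : Finset S).Nonempty := by
    by_contra hc
    rw [Finset.not_nonempty_iff_eq_empty] at hc
    rw [hc, Finset.sum_empty] at h1
    norm_num at h1
  obtain ⟨xM, -, hM⟩ := Finset.exists_max_image Finset.univ f hne
  have hTne : (Finset.univ.filter fun y => κ < ∑ x with f x ≤ f y, w x).Nonempty := by
    refine ⟨xM, Finset.mem_filter.2 ⟨Finset.mem_univ _, ?_⟩⟩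
    have h2 : Finset.univ.filter (fun x => f x ≤ f xM) = Finset.univ := by
      ext x; simp [hM x (Finset.mem_univ x)]
    rw [h2, h1]
    exact hκ
  obtain ⟨y, hy, hmin⟩ := Finset.exists_min_image _ f hTne
  refine ⟨f y, ⟨y, rfl⟩, (Finset.mem_filter.1 hy).2, ?_⟩
  by_contra hc
  push Not at hc
  have hne2 : (Finset.univ.filter fun x => f x < f y).Nonempty := by
    by_contra hc2
    rw [Finset.not_nonempty_iff_eq_empty] at hc2
    rw [hc2, Finset.sum_empty] at hc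
    linarith
  obtain ⟨z, hz, hzmax⟩ := Finset.exists_max_image _ f hne2
  have h3 : ∑ x with f x < f y, w x ≤ ∑ x with f x ≤ f z, w x :=
    Finset.sum_le_sum_of_subset_of_nonneg
      (fun x hx => Finset.mem_filter.2 ⟨Finset.mem_univ x, hzmax x hx⟩) (fun x _ _ => h0 x)
  have h4 := hmin z (Finset.mem_filter.2 ⟨Finset.mem_univ z, hc.trans_le h3⟩)
  have h5 := (Finset.mem_filter.1 hz).2
  linarith

end one

section seq

variable {S : ℕ → Type} [∀ n, Fintype (S n)] [∀ n, DecidableEq (S n)]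
  {Q : ∀ n, Matrix (S n) (S n) ℝ} {w : ∀ n, S n → ℝ} {lam : ℕ → ℝ}

lemma exp_small {t lam : ℕ → ℝ} (ht : Tendsto (fun n => t n * lam n) atTop atTop) {a : ℝ}
    (ha : 0 < a) {r : ℝ} (hr : 0 < r) : ∀ᶠ n in atTop, Real.exp (-(2 * lam n * (a * t n))) ≤ r := by
  have h1 : Tendsto (fun n => (2 * a) * (t n * lam n)) atTop atTop :=
    ht.const_mul_atTop (by positivity)
  have h2 : Tendsto (fun n => Real.exp (-((2 * a) * (t n * lam n)))) atTop (𝓝 0) :=
    Real.tendsto_exp_atBot.comp (tendsto_neg_atTop_atBot.comp h1)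
  filter_upwards [h2.eventually (gt_mem_nhds hr)] with n hn
  have h3 : 2 * lam n * (a * t n) = (2 * a) * (t n * lam n) := by ring
  rw [h3]
  exact hn.le

lemma kappa_small {t lam : ℕ → ℝ} (ht : Tendsto (fun n => t n * lam n) atTop atTop) {a : ℝ}
    (ha : 0 < a) {α β κ : ℝ} (hα : 0 < α) (hβ : 0 < β) (hκ : 0 < κ) :
    ∃ J : ℕ, 1 ≤ J ∧ ∀ᶠ n in atTop,
      Real.exp (-(2 * lam n * (a * t n / J))) / α ^ 2 + 1 / J / β ≤ κ := by
  obtain ⟨J, hJ⟩ := exists_nat_gt (2 / (β * κ))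
  have hJ0 : (0 : ℝ) < J := lt_trans (by positivity) hJ
  refine ⟨J, by exact_mod_cast hJ0, ?_⟩
  have h1 : 1 / (J : ℝ) / β ≤ κ / 2 := by
    rw [div_div, div_le_iff₀ (by positivity)]
    rw [div_lt_iff₀ (by positivity)] at hJ
    nlinarith
  filter_upwards [exp_small ht (a := a / J) (by positivity)
    (show 0 < κ / 2 * α ^ 2 by positivity)] with n hn
  have h2 : a / J * t n = a * t n / J := by ring
  rw [h2] at hn
  have h3 : Real.exp (-(2 * lam n * (a * t n / J))) / α ^ 2 ≤ κ / 2 := by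
    rw [div_le_iff₀ (by positivity)]
    exact hn
  linarith

/-- Upward concentration along a sequence. -/
lemma up_seq (h : ∀ n, RevChain (Q n) (w n) (lam n)) {t : ℕ → ℝ} (ht0 : ∀ n, 0 ≤ t n)
    (ht : Tendsto (fun n => t n * lam n) atTop atTop) {ε δ κ : ℝ} (hε : 0 < ε) (hδ : 0 < δ)
    (hκ : 0 < κ) : ∀ᶠ n in atTop, ∀ c, κ < ∑ x with tv (Q n) (w n) x (t n) ≤ c, w n x →
      ∑ x with c + δ < tv (Q n) (w n) x ((1 + ε) * t n), w n x ≤ κ := by
  obtain ⟨J, hJ, hev⟩ := kappa_small ht hε (show 0 < δ / 4 by positivity)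
    (show 0 < δ / 4 by positivity) hκ
  filter_upwards [hev] with n hn c hc
  have hJ0 : (0 : ℝ) < J := by exact_mod_cast hJ
  have h1 := up (h n) (u := ε * t n / J) (ht0 n) (by have := ht0 n; positivity)
    (show 0 < δ / 4 by positivity) (show 0 < δ / 4 by positivity) hJ hn hc
    (T := (1 + ε) * t n) (by
      have : (J : ℝ) * (ε * t n / J) = ε * t n := by field_simp
      linarith)
  have h2 : c + 2 * (δ / 4 + δ / 4) = c + δ := by ring
  rwa [h2] at h1

/-- Downward concentration along a sequence. -/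
lemma down_seq (h : ∀ n, RevChain (Q n) (w n) (lam n)) {t : ℕ → ℝ} (ht0 : ∀ n, 0 ≤ t n)
    (ht : Tendsto (fun n => t n * lam n) atTop atTop) {ε δ κ : ℝ} (hε : 0 < ε) (hε1 : ε ≤ 1)
    (hδ : 0 < δ) (hκ : 0 < κ) :
    ∀ᶠ n in atTop, ∀ c, κ < ∑ x with c ≤ tv (Q n) (w n) x (t n), w n x →
      ∑ x with tv (Q n) (w n) x ((1 - ε) * t n) < c - δ, w n x ≤ κ := by
  obtain ⟨J, hJ, hev⟩ := kappa_small ht hε (show 0 < δ / 4 by positivity)
    (show 0 < δ / 4 by positivity) hκ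
  filter_upwards [hev] with n hn c hc
  have hJ0 : (0 : ℝ) < J := by exact_mod_cast hJ
  have h3 : (1 - ε) * t n + J * (ε * t n / J) = t n := by field_simp; ring
  have h1 := down (h n) (t := (1 - ε) * t n) (u := ε * t n / J)
    (by have := ht0 n; positivity)
    (show 0 < δ / 4 by positivity) (show 0 < δ / 4 by positivity) hJ hn (c := c)
    (by rw [h3]; exact hc) (T := (1 - ε) * t n) (mul_nonneg (by linarith) (ht0 n)) le_rfl
  have h2 : c - 2 * (δ / 4 + δ / 4) = c - δ := by ring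
  rwa [h2] at h1

/-- Upper bound by the mean at an earlier time. -/
lemma mean_up (h : ∀ n, RevChain (Q n) (w n) (lam n)) {t : ℕ → ℝ} (ht0 : ∀ n, 0 ≤ t n)
    (ht : Tendsto (fun n => t n * lam n) atTop atTop) {s s' δ κ : ℝ} (hs : 0 ≤ s) (hss : s < s')
    (hδ : 0 < δ) (hκ : 0 < κ) : ∀ᶠ n in atTop,
      ∑ x with FF (Q n) (w n) (s * t n) + δ < tv (Q n) (w n) x (s' * t n), w n x ≤ κ := by
  filter_upwards [exp_small ht (a := s' - s) (by linarith)
    (show 0 < κ * δ ^ 2 by positivity)] with n hn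
  have hu : 0 ≤ (s' - s) * t n := mul_nonneg (by linarith) (ht0 n)
  have hst : 0 ≤ s * t n := mul_nonneg hs (ht0 n)
  have h1 := chebyshev (h n) hst hu hδ
  refine le_trans (sum_filter_le_of_imp (h n).stat.nonneg fun x hx => ?_)
    (h1.trans ((div_le_iff₀ (by positivity)).2 hn))
  have h2 := tv_add_le (h n).gen (h n).stat hu hst x
  have h3 : (s' - s) * t n + s * t n = s' * t n := by ring
  rw [h3] at h2
  exact lt_of_lt_of_le (by linarith) (le_abs_self _)

/-- Lower bound by the mean at a later time. -/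
lemma mean_down (h : ∀ n, RevChain (Q n) (w n) (lam n)) {t : ℕ → ℝ} (ht0 : ∀ n, 0 ≤ t n)
    (ht : Tendsto (fun n => t n * lam n) atTop atTop) {s s' δ κ : ℝ} (hs : 0 ≤ s) (hss : s < s')
    (hδ : 0 < δ) (hκ : 0 < κ) : ∀ᶠ n in atTop,
      ∑ x with tv (Q n) (w n) x (s * t n) < FF (Q n) (w n) (s' * t n) - δ, w n x ≤ κ := by
  obtain ⟨J, hJ, hev⟩ := kappa_small ht (a := s' - s) (by linarith)
    (show 0 < δ / 2 by positivity) (show 0 < δ / 2 by positivity) hκ
  filter_upwards [hev] with n hn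
  have hJ0 : (0 : ℝ) < J := by exact_mod_cast hJ
  have hst : 0 ≤ s * t n := mul_nonneg hs (ht0 n)
  have hu : 0 ≤ (s' - s) * t n / J := div_nonneg (mul_nonneg (by linarith) (ht0 n)) hJ0.le
  obtain ⟨j, hj, hF⟩ := pigeon (u := (s' - s) * t n / J) (h n).gen (h n).stat hst hJ
  have htj : 0 ≤ s * t n + j * ((s' - s) * t n / J) := by positivity
  have h1 := (concentrate (h n) htj hu (show 0 < δ / 2 by positivity)
    (show 0 < δ / 2 by positivity) hF).trans hn
  have hjJ : (j : ℝ) * ((s' - s) * t n / J) ≤ J * ((s' - s) * t n / J) :=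
    mul_le_mul_of_nonneg_right (by exact_mod_cast hj.le) hu
  have hJu : (J : ℝ) * ((s' - s) * t n / J) = (s' - s) * t n := by field_simp
  have h2 : FF (Q n) (w n) (s' * t n) ≤
      FF (Q n) (w n) (s * t n + j * ((s' - s) * t n / J)) :=
    FF_anti (h n).gen (h n).stat htj (by rw [hJu] at hjJ; linarith)
  refine le_trans (sum_filter_le_of_imp (h n).stat.nonneg fun x hx => ?_) h1
  have hju : 0 ≤ (j : ℝ) * ((s' - s) * t n / J) := by positivity
  have h3 := tv_anti (h n).gen (h n).stat x hst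
    (show s * t n ≤ s * t n + j * ((s' - s) * t n / J) + (s' - s) * t n / J by linarith)
  exact lt_of_lt_of_le (by linarith) (neg_le_abs _)

/-- If a positive fraction of the starts is mixed at time `t n`, almost all are mixed at time
`(2 + ε) t n`. -/
lemma upper_two (h : ∀ n, RevChain (Q n) (w n) (lam n)) {t : ℕ → ℝ} (ht0 : ∀ n, 0 ≤ t n)
    (ht : Tendsto (fun n => t n * lam n) atTop atTop) {ε κ : ℝ} (hε : 0 < ε) (hκ : 0 < κ) :
    ∀ᶠ n in atTop, κ < ∑ x with tauFrom (Q n) (w n) x ≤ t n, w n x →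
      ∑ x with (2 + ε) * t n < tauFrom (Q n) (w n) x, w n x ≤ κ := by
  obtain ⟨κ₁, hκ₁, hκ₁a, hκ₁b⟩ : ∃ κ₁ : ℝ, 0 < κ₁ ∧ κ₁ ≤ κ / 11 ∧ κ₁ ≤ 1 / 100 :=
    ⟨min (κ / 11) (1 / 100), by positivity, min_le_left _ _, min_le_right _ _⟩
  filter_upwards [up_seq h ht0 ht (ε := ε / 2) (δ := 1 / 100) (by positivity) (by norm_num) hκ₁]
    with n hn hA
  have hpos := ht0 n
  have hw := (h n).stat
  have h1 : κ₁ < ∑ x with tv (Q n) (w n) x (t n) ≤ 1 / 4, w n x := by
    have h2 : ∑ x with tauFrom (Q n) (w n) x ≤ t n, w n x ≤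
        ∑ x with tv (Q n) (w n) x (t n) ≤ 1 / 4, w n x :=
      sum_filter_le_of_imp hw.nonneg fun x hx => tv_le_quarter (h n).gen (h n).irr hw hx
    linarith
  have h2 := hn _ h1
  set T := (1 + ε / 2) * t n with hT
  have hT0 : 0 ≤ T := by positivity
  have h3 := submult_typical (h n).gen hw (s := T) (t := T) (c := 1 / 4 + 1 / 100)
    (c' := 1 / 4 + 1 / 100) (η := 1 / 10) hT0 hT0 (by norm_num) (by norm_num)
  have h4 : T + T = (2 + ε) * t n := by rw [hT]; ring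
  rw [h4] at h3
  have hT2 : 0 ≤ (2 + ε) * t n := by positivity
  refine le_trans (sum_filter_le_of_imp hw.nonneg fun x hx => ?_) (h3.trans ?_)
  · by_contra hc
    push Not at hc
    have h5 : tv (Q n) (w n) x ((2 + ε) * t n) ≤ 1 / 4 := by
      refine hc.trans ?_
      have : ∑ y with 1 / 4 + 1 / 100 < tv (Q n) (w n) y T, w n y ≤ 1 / 100 := h2.trans hκ₁b
      linarith
    have h6 := tauFrom_le hT2 h5
    linarith
  · have : (∑ y with 1 / 4 + 1 / 100 < tv (Q n) (w n) y T, w n y) / (1 / 10) ≤ κ₁ / (1 / 10) :=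
      div_le_div_of_nonneg_right h2 (by norm_num)
    linarith

end seq

end Pool.Agent.MP_d1aba8_pr
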