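import Pool.Agent.Lib.MP_d1aba8_pr.Rev3

/-!
# Reversible chains: two typical mixing times, decay of the profile
-/

namespace Pool.Agent.MP_d1aba8_pr

open scoped BigOperators Topology
open Filter

variable {S : ℕ → Type} [∀ n, Fintype (S n)] [∀ n, DecidableEq (S n)]
  {Q : ∀ n, Matrix (S n) (S n) ℝ} {w : ∀ n, S n → ℝ} {lam : ℕ → ℝ}

lemma median_nonneg {S : Type} [Fintype S] [DecidableEq S] {Q : Matrix S S ℝ} {w : S → ℝ} {m : ℝ}
    (hm : IsMedian w (tauFrom Q w) m) : 0 ≤ m := by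
  by_contra hc
  push Not at hc
  have h1 : Finset.univ.filter (fun x => tauFrom Q w x ≤ m) = ∅ := by
    rw [Finset.filter_eq_empty_iff]
    intro x _ hx
    have := tauFrom_nonneg Q w x
    linarith
  have h2 := hm.1
  rw [h1, Finset.sum_empty] at h2
  norm_num at h2

/-- Typical mixing times are at least about half the median. -/
lemma lower_half (h : ∀ n, RevChain (Q n) (w n) (lam n)) {τ : ℕ → ℝ}
    (hm : ∀ n, IsMedian (w n) (tauFrom (Q n) (w n)) (τ n))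
    (ht : Tendsto (fun n => τ n * lam n) atTop atTop) {ε κ : ℝ} (hε : 0 < ε) (hκ : 0 < κ) :
    ∀ᶠ n in atTop, ∑ x with tauFrom (Q n) (w n) x ≤ (1 / 2 - ε) * τ n, w n x ≤ κ := by
  obtain ⟨ε₁, h1, h2, h3⟩ : ∃ ε₁ : ℝ, 0 < ε₁ ∧ ε₁ ≤ ε ∧ ε₁ ≤ 1 / 4 :=
    ⟨min ε (1 / 4), by positivity, min_le_left _ _, min_le_right _ _⟩
  obtain ⟨κ₁, k1, k2, k3⟩ : ∃ κ₁ : ℝ, 0 < κ₁ ∧ κ₁ ≤ κ ∧ κ₁ ≤ 1 / 4 :=
    ⟨min κ (1 / 4), by positivity, min_le_left _ _, min_le_right _ _⟩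
  have hτ0 : ∀ n, 0 ≤ τ n := fun n => median_nonneg (hm n)
  have hlim : Tendsto (fun n => ((1 / 2 - ε₁) * τ n) * lam n) atTop atTop := by
    have h4 := ht.const_mul_atTop (show (0 : ℝ) < 1 / 2 - ε₁ by linarith)
    refine h4.congr fun n => ?_
    ring
  filter_upwards [upper_two h (t := fun n => (1 / 2 - ε₁) * τ n)
    (fun n => mul_nonneg (by linarith) (hτ0 n)) hlim h1 k1, ht.eventually_gt_atTop 0]
    with n hn hpos
  have hτ : 0 < τ n := by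
    rcases (hτ0 n).eq_or_lt with h5 | h5
    · rw [← h5, zero_mul] at hpos
      exact absurd hpos (lt_irrefl _)
    · exact h5
  have h4 : ∑ x with tauFrom (Q n) (w n) x ≤ (1 / 2 - ε₁) * τ n, w n x ≤ κ₁ := by
    by_contra hc
    push Not at hc
    have h5 := hn hc
    have h6 := (hm n).2
    have h7 : ∑ x with τ n ≤ tauFrom (Q n) (w n) x, w n x ≤
        ∑ x with (2 + ε₁) * ((1 / 2 - ε₁) * τ n) < tauFrom (Q n) (w n) x, w n x := by
      refine sum_filter_le_of_imp (h n).stat.nonneg fun x hx => ?_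
      have h8 : (2 + ε₁) * ((1 / 2 - ε₁) * τ n) < 1 * τ n := by
        rw [← mul_assoc]
        exact mul_lt_mul_of_pos_right (by nlinarith) hτ
      linarith
    linarith
  refine le_trans (sum_filter_le_of_imp (h n).stat.nonneg fun x hx => ?_) (h4.trans k2)
  have h5 : (1 / 2 - ε) * τ n ≤ (1 / 2 - ε₁) * τ n :=
    mul_le_mul_of_nonneg_right (by linarith) (hτ0 n)
  linarith

/-- Two typical mixing times differ by at most a factor `2 + o(1)`. -/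
lemma pairs (h : ∀ n, RevChain (Q n) (w n) (lam n)) {τ : ℕ → ℝ}
    (hm : ∀ n, IsMedian (w n) (tauFrom (Q n) (w n)) (τ n))
    (ht : Tendsto (fun n => τ n * lam n) atTop atTop) {ε κ : ℝ} (hε : 0 < ε) (hκ : 0 < κ) :
    ∀ᶠ n in atTop, ∃ a : ℝ, ∑ x with tauFrom (Q n) (w n) x < a, w n x ≤ κ ∧
      ∑ x with (2 + ε) * a < tauFrom (Q n) (w n) x, w n x ≤ κ := by
  obtain ⟨κ₁, k1, k2, k3⟩ : ∃ κ₁ : ℝ, 0 < κ₁ ∧ κ₁ ≤ κ ∧ κ₁ ≤ 1 / 4 :=
    ⟨min κ (1 / 4), by positivity, min_le_left _ _, min_le_right _ _⟩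
  have hq : ∀ n, ∃ a, (∃ x, tauFrom (Q n) (w n) x = a) ∧
      κ₁ < ∑ x with tauFrom (Q n) (w n) x ≤ a, w n x ∧
      ∑ x with tauFrom (Q n) (w n) x < a, w n x ≤ κ₁ := fun n =>
    exists_quantile (h n).stat.nonneg (h n).stat.sum_one (tauFrom (Q n) (w n)) k1.le (by linarith)
  choose a ha1 ha2 ha3 using hq
  have ha0 : ∀ n, 0 ≤ a n := by
    intro n
    obtain ⟨x, hx⟩ := ha1 n
    rw [← hx]
    exact tauFrom_nonneg _ _ _
  have hτ0 : ∀ n, 0 ≤ τ n := fun n => median_nonneg (hm n)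
  have hev : ∀ᶠ n in atTop, (1 / 4) * (τ n * lam n) ≤ a n * lam n := by
    filter_upwards [lower_half h hm ht (ε := 1 / 4) (by norm_num) k1, ht.eventually_gt_atTop 0]
      with n hn hpos
    have hl : 0 < lam n := by
      by_contra hc
      push Not at hc
      have := mul_nonpos_of_nonneg_of_nonpos (hτ0 n) hc
      linarith
    have h1 : (1 / 4) * τ n ≤ a n := by
      by_contra hc
      push Not at hc
      have h2 : ∑ x with tauFrom (Q n) (w n) x ≤ a n, w n x ≤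
          ∑ x with tauFrom (Q n) (w n) x ≤ (1 / 2 - 1 / 4) * τ n, w n x :=
        sum_filter_le_of_imp (h n).stat.nonneg fun x hx => by linarith
      have h3 := ha2 n
      linarith
    have h2 := mul_le_mul_of_nonneg_right h1 hl.le
    linarith
  have hlim : Tendsto (fun n => a n * lam n) atTop atTop :=
    tendsto_atTop_mono' _ hev (ht.const_mul_atTop (by norm_num))
  filter_upwards [upper_two h ha0 hlim hε k1] with n hn
  exact ⟨a n, (ha3 n).trans k2, (hn (ha2 n)).trans k2⟩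

/-- Decay of the profile. -/
lemma decay (h : ∀ n, RevChain (Q n) (w n) (lam n)) {τ : ℕ → ℝ}
    (hm : ∀ n, IsMedian (w n) (tauFrom (Q n) (w n)) (τ n))
    (ht : Tendsto (fun n => τ n * lam n) atTop atTop) {ε : ℝ} (hε : 0 < ε) (K : ℕ) :
    ∀ δ κ : ℝ, 0 < δ → 0 < κ → ∀ᶠ n in atTop,
      ∑ x with (1 / 2) ^ (K + 2) + δ < tv (Q n) (w n) x ((K + 1) * (1 + ε) * τ n), w n x ≤ κ := by
  have hτ0 : ∀ n, 0 ≤ τ n := fun n => median_nonneg (hm n)
  have hbase : ∀ δ κ : ℝ, 0 < δ → 0 < κ → ∀ᶠ n in atTop,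
      ∑ x with 1 / 4 + δ < tv (Q n) (w n) x ((1 + ε) * τ n), w n x ≤ κ := by
    intro δ κ hδ hκ
    obtain ⟨κ₁, k1, k2, k3⟩ : ∃ κ₁ : ℝ, 0 < κ₁ ∧ κ₁ ≤ κ ∧ κ₁ ≤ 1 / 4 :=
      ⟨min κ (1 / 4), by positivity, min_le_left _ _, min_le_right _ _⟩
    filter_upwards [up_seq h hτ0 ht hε hδ k1] with n hn
    refine (hn (1 / 4) ?_).trans k2
    have h2 : ∑ x with tauFrom (Q n) (w n) x ≤ τ n, w n x ≤
        ∑ x with tv (Q n) (w n) x (τ n) ≤ 1 / 4, w n x :=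
      sum_filter_le_of_imp (h n).stat.nonneg fun x hx =>
        tv_le_quarter (h n).gen (h n).irr (h n).stat hx
    have := (hm n).1
    linarith
  induction K with
  | zero =>
    intro δ κ hδ hκ
    filter_upwards [hbase δ κ hδ hκ] with n hn
    refine le_trans (sum_filter_le_of_imp (h n).stat.nonneg fun x hx => ?_) hn
    have h1 : ((0 : ℕ) + 1 : ℝ) * (1 + ε) * τ n = (1 + ε) * τ n := by push_cast; ring
    rw [h1] at hx
    norm_num at hx ⊢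
    exact hx
  | succ K ih =>
    intro δ κ hδ hκ
    obtain ⟨δ₁, d1, d2, d3⟩ : ∃ δ₁ : ℝ, 0 < δ₁ ∧ δ₁ ≤ δ / 10 ∧ δ₁ ≤ 1 / 4 :=
      ⟨min (δ / 10) (1 / 4), by positivity, min_le_left _ _, min_le_right _ _⟩
    set η := δ / 4 with hη
    obtain ⟨κ₁, k1, k2, k3, k4⟩ : ∃ κ₁ : ℝ, 0 < κ₁ ∧ κ₁ ≤ κ / 2 ∧ κ₁ ≤ κ / 2 * η ∧ κ₁ ≤ δ / 4 :=
      ⟨min (κ / 2) (min (κ / 2 * η) (δ / 4)), by positivity, min_le_left _ _,
        (min_le_right _ _).trans (min_le_left _ _), (min_le_right _ _).trans (min_le_right _ _)⟩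
    filter_upwards [hbase δ₁ κ₁ d1 k1, ih δ₁ κ₁ d1 k1] with n h1 h2
    have hτ := hτ0 n
    have h3 := submult_typical (h n).gen (h n).stat (s := (K + 1) * (1 + ε) * τ n)
      (t := (1 + ε) * τ n) (c := 1 / 4 + δ₁) (c' := (1 / 2) ^ (K + 2) + δ₁) (η := η)
      (by positivity) (by positivity) (by positivity) (by positivity)
    have h4 : (K + 1) * (1 + ε) * τ n + (1 + ε) * τ n =
        ((K + 1 : ℕ) + 1 : ℝ) * (1 + ε) * τ n := by push_cast; ring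
    rw [h4] at h3
    refine le_trans (sum_filter_le_of_imp (h n).stat.nonneg fun x hx => ?_) (h3.trans ?_)
    · refine lt_of_le_of_lt ?_ hx
      have h5 : (1 / 2 : ℝ) ^ (K + 1 + 2) = 1 / 2 * (1 / 2) ^ (K + 2) := by ring
      rw [h5]
      have h6 : (1 / 2 : ℝ) ^ (K + 2) ≤ 1 := pow_le_one₀ (by norm_num) (by norm_num)
      have h7 : (0 : ℝ) ≤ (1 / 2 : ℝ) ^ (K + 2) := by positivity
      have h8 : δ₁ * (1 / 2 : ℝ) ^ (K + 2) ≤ δ₁ * 1 := mul_le_mul_of_nonneg_left h6 d1.le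
      have h9 : δ₁ * δ₁ ≤ δ₁ * (1 / 4) := mul_le_mul_of_nonneg_left d3 d1.le
      nlinarith
    · have h5 : (∑ y with 1 / 4 + δ₁ < tv (Q n) (w n) y ((1 + ε) * τ n), w n y) / η ≤ κ / 2 := by
        rw [div_le_iff₀ (by positivity)]
        exact h1.trans k3
      linarith

/-- Lower bound before the median. -/
lemma lower_quarter (h : ∀ n, RevChain (Q n) (w n) (lam n)) {τ : ℕ → ℝ}
    (hm : ∀ n, IsMedian (w n) (tauFrom (Q n) (w n)) (τ n))
    (ht : Tendsto (fun n => τ n * lam n) atTop atTop) {ε δ κ : ℝ} (hε : 0 < ε) (hε1 : ε ≤ 1)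
    (hδ : 0 < δ) (hκ : 0 < κ) :
    ∀ᶠ n in atTop,
      ∑ x with tv (Q n) (w n) x ((1 - ε) * τ n) < 1 / 4 - δ, w n x ≤ κ := by
  have hτ0 : ∀ n, 0 ≤ τ n := fun n => median_nonneg (hm n)
  obtain ⟨κ₁, k1, k2, k3⟩ : ∃ κ₁ : ℝ, 0 < κ₁ ∧ κ₁ ≤ κ ∧ κ₁ ≤ 1 / 4 :=
    ⟨min κ (1 / 4), by positivity, min_le_left _ _, min_le_right _ _⟩
  filter_upwards [down_seq h hτ0 ht hε hε1 hδ k1, ht.eventually_gt_atTop 0] with n hn hpos
  have hτ : 0 < τ n := by
    rcases (hτ0 n).eq_or_lt with h5 | h5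
    · rw [← h5, zero_mul] at hpos
      exact absurd hpos (lt_irrefl _)
    · exact h5
  refine (hn (1 / 4) ?_).trans k2
  have h2 : ∑ x with τ n ≤ tauFrom (Q n) (w n) x, w n x ≤
      ∑ x with 1 / 4 ≤ tv (Q n) (w n) x (τ n), w n x :=
    sum_filter_le_of_imp (h n).stat.nonneg fun x hx => quarter_le_tv hτ hx
  have := (hm n).2
  linarith

end Pool.Agent.MP_d1aba8_pr
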