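import Pool.Agent.Lib.MP_d1aba8_pr.Tv

namespace Pool.Agent.MP_d1aba8_pr

open scoped BigOperators Topology
open Filter

variable {S : Type} [Fintype S] [DecidableEq S]

/-- uniformisation: a generator is a multiple of `P - 1` with `P` stochastic -/
lemma uniformise {Q : Matrix S S ℝ} (hQ : IsGenerator Q) :
    ∃ (c : ℝ) (P : Matrix S S ℝ), 0 < c ∧ IsStoch P ∧ Q = c • (P - 1) := by
  obtain ⟨c, hc⟩ : ∃ c : ℝ, ∀ x, -Q x x ≤ c := by
    refine ⟨∑ x, |Q x x|, fun x => ?_⟩
    calc -Q x x ≤ |Q x x| := neg_le_abs _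
      _ ≤ ∑ x, |Q x x| :=
        Finset.single_le_sum (f := fun x => |Q x x|) (fun i _ => abs_nonneg _) (Finset.mem_univ x)
  refine ⟨max c 1, 1 + (max c 1)⁻¹ • Q, lt_of_lt_of_le one_pos (le_max_right _ _), ?_, ?_⟩
  · have hc1 : (0 : ℝ) < max c 1 := lt_of_lt_of_le one_pos (le_max_right _ _)
    constructor
    · intro x y
      rw [Matrix.add_apply, Matrix.smul_apply, smul_eq_mul]
      by_cases hxy : x = y
      · subst hxy
        rw [Matrix.one_apply_eq]
        have h1 : -Q x x ≤ max c 1 := (hc x).trans (le_max_left _ _)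
        have h2 : (max c 1)⁻¹ * (-Q x x) ≤ 1 := by
          rw [inv_mul_le_iff₀ hc1, mul_one]; exact h1
        linarith
      · rw [Matrix.one_apply_ne hxy, zero_add]
        exact mul_nonneg (inv_nonneg.2 hc1.le) (hQ.offdiag_nonneg x y hxy)
    · intro x
      simp only [Matrix.add_apply, Matrix.smul_apply, smul_eq_mul]
      rw [Finset.sum_add_distrib, ← Finset.mul_sum, hQ.row_sum x, mul_zero, add_zero]
      exact IsStoch.one.row_sum x
  · have hc1 : (0 : ℝ) < max c 1 := lt_of_lt_of_le one_pos (le_max_right _ _)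
    rw [add_sub_cancel_left, smul_smul, mul_inv_cancel₀ hc1.ne', one_smul]

lemma trans_smul (Q : Matrix S S ℝ) (c t : ℝ) : trans (c • Q) t = trans Q (c * t) := by
  unfold trans
  rw [smul_smul, mul_comm]

lemma trans_stoch {Q : Matrix S S ℝ} (hQ : IsGenerator Q) {t : ℝ} (ht : 0 ≤ t) :
    IsStoch (trans Q t) := by
  obtain ⟨c, P, hc, hP, rfl⟩ := uniformise hQ
  rw [trans_smul]
  have hct : 0 ≤ c * t := by positivity
  constructor
  · intro x y
    exact (hasSum_trans P (c * t) x y).nonneg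
      (fun r => mul_nonneg (pw_nonneg hct r) ((hP.pow r).nonneg x y))
  · intro x
    have h1 := hasSum_trans_set P (c * t) x Finset.univ
    have h2 : (fun r => pw (c * t) r * ∑ y ∈ Finset.univ, (P ^ r) x y) = pw (c * t) := by
      funext r
      rw [(hP.pow r).row_sum x, mul_one]
    rw [h2] at h1
    exact h1.unique (hasSum_pw (c * t))

lemma trans_add (Q : Matrix S S ℝ) (s t : ℝ) : trans Q (s + t) = trans Q s * trans Q t := by
  unfold trans
  rw [add_smul, Matrix.exp_add_of_commute]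
  exact ((Commute.refl Q).smul_left s).smul_right t

lemma trans_zero (Q : Matrix S S ℝ) : trans Q 0 = 1 := by
  unfold trans
  rw [zero_smul, NormedSpace.exp_zero]

lemma trans_pow (Q : Matrix S S ℝ) (m : ℝ) (k : ℕ) : (trans Q m) ^ k = trans Q (k * m) := by
  induction k with
  | zero => simp [trans_zero]
  | succ k ih =>
    rw [pow_succ, ih, ← trans_add]
    congr 1
    push_cast
    ring

lemma trans_stat {Q : Matrix S S ℝ} (hQ : IsGenerator Q) {w : S → ℝ} (hw : IsStationary Q w)
    {t : ℝ} (y : S) : ∑ x, w x * trans Q t x y = w y := by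
  obtain ⟨c, P, hc, hP, rfl⟩ := uniformise hQ
  rw [trans_smul]
  have hst : ∀ y, ∑ x, w x * P x y = w y := by
    intro y
    have h1 := hw.stat y
    simp only [Matrix.smul_apply, Matrix.sub_apply, smul_eq_mul] at h1
    have h2 : ∑ x, w x * (c * (P x y - (1 : Matrix S S ℝ) x y)) =
        c * (∑ x, w x * P x y - ∑ x, w x * (1 : Matrix S S ℝ) x y) := by
      rw [← Finset.sum_sub_distrib, Finset.mul_sum]
      exact Finset.sum_congr rfl (fun x _ => by ring)
    rw [h2] at h1
    have h3 : ∑ x, w x * (1 : Matrix S S ℝ) x y = w y := by simp [Matrix.one_apply]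
    rw [h3] at h1
    rcases mul_eq_zero.1 h1 with h | h
    · exact absurd h hc.ne'
    · linarith
  have hpow : ∀ r : ℕ, ∀ y, ∑ x, w x * (P ^ r) x y = w y := by
    intro r
    induction r with
    | zero => intro y; simp [Matrix.one_apply]
    | succ r ih =>
      intro y
      have e : ∀ x, w x * (P ^ (r + 1)) x y = ∑ z, w x * (P ^ r) x z * P z y := by
        intro x
        rw [pow_succ, Matrix.mul_apply, Finset.mul_sum]
        exact Finset.sum_congr rfl (fun z _ => by ring)
      rw [Finset.sum_congr rfl (fun x _ => e x), Finset.sum_comm]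
      have e2 : ∀ z, ∑ x, w x * (P ^ r) x z * P z y = w z * P z y := by
        intro z
        rw [← Finset.sum_mul, ih z]
      rw [Finset.sum_congr rfl (fun z _ => e2 z)]
      exact hst y
  have h4 := hasSum_sum (s := Finset.univ)
    (fun x _ => (hasSum_trans P (c * t) x y).mul_left (w x))
  have h5 : (fun r => ∑ x, w x * (pw (c * t) r * (P ^ r) x y)) =
      fun r => pw (c * t) r * w y := by
    funext r
    rw [← hpow r y, Finset.mul_sum]
    exact Finset.sum_congr rfl (fun x _ => by ring)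
  rw [h5] at h4
  have h6 := (hasSum_pw (c * t)).mul_right (w y)
  rw [one_mul] at h6
  exact h4.unique h6

/-- total variation tested against functions with values in `[0,1]` -/
lemma test_le (nu : S → ℝ) (g : S → ℝ) (h0 : ∀ x, 0 ≤ g x) (h1 : ∀ x, g x ≤ 1) :
    ∑ x, nu x * g x ≤ ∑ x with 0 < nu x, nu x := by
  rw [Finset.sum_filter]
  refine Finset.sum_le_sum (fun x _ => ?_)
  by_cases h : 0 < nu x
  · rw [if_pos h]
    nlinarith [h1 x]
  · rw [if_neg h]
    push Not at h
    nlinarith [h0 x]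

lemma test_le_tv (Q : Matrix S S ℝ) (w : S → ℝ) (x : S) (t : ℝ) (g : S → ℝ)
    (h0 : ∀ x, 0 ≤ g x) (h1 : ∀ x, g x ≤ 1) :
    ∑ y, trans Q t x y * g y - ∑ y, w y * g y ≤ tv Q w x t := by
  have h2 := test_le (fun y => trans Q t x y - w y) g h0 h1
  have h3 : ∑ y, (trans Q t x y - w y) * g y = ∑ y, trans Q t x y * g y - ∑ y, w y * g y := by
    rw [← Finset.sum_sub_distrib]
    exact Finset.sum_congr rfl (fun y _ => by ring)
  rw [h3] at h2
  refine h2.trans ?_
  rw [Finset.sum_sub_distrib]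
  exact sub_le_tv Q w x t _

/-- a set is enough: the total variation distance without absolute value -/
lemma tv_le_of_sub {Q : Matrix S S ℝ} (hQ : IsGenerator Q) {w : S → ℝ} (hw1 : ∑ x, w x = 1)
    {x : S} {t : ℝ} (ht : 0 ≤ t) {c : ℝ}
    (h : ∀ A : Finset S, ∑ y ∈ A, trans Q t x y - ∑ y ∈ A, w y ≤ c) : tv Q w x t ≤ c := by
  refine tv_le (fun A => ?_)
  have h1 := h A
  have h2 := h Aᶜ
  have e1 : ∑ y ∈ A, trans Q t x y + ∑ y ∈ Aᶜ, trans Q t x y = 1 := by
    rw [← (trans_stoch hQ ht).row_sum x]; exact Finset.sum_add_sum_compl A _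
  have e2 : ∑ y ∈ A, w y + ∑ y ∈ Aᶜ, w y = 1 := by
    rw [← hw1]; exact Finset.sum_add_sum_compl A w
  rw [abs_le]; constructor <;> linarith

lemma tv_le_one {Q : Matrix S S ℝ} (hQ : IsGenerator Q) {w : S → ℝ} (hw0 : ∀ x, 0 ≤ w x)
    (hw1 : ∑ x, w x = 1) (x : S) {t : ℝ} (ht : 0 ≤ t) : tv Q w x t ≤ 1 := by
  refine tv_le_of_sub hQ hw1 ht (fun A => ?_)
  have h1 := (trans_stoch hQ ht).set_le_one x A
  have h2 : 0 ≤ ∑ y ∈ A, w y := Finset.sum_nonneg (fun y _ => hw0 y)
  linarith

/-- the distance is nonincreasing in time -/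
lemma tv_anti {Q : Matrix S S ℝ} (hQ : IsGenerator Q) {w : S → ℝ} (hw : IsStationary Q w)
    (x : S) {s t : ℝ} (hs : 0 ≤ s) (hst : s ≤ t) : tv Q w x t ≤ tv Q w x s := by
  have ht : 0 ≤ t := hs.trans hst
  refine tv_le_of_sub hQ hw.sum_one ht (fun A => ?_)
  have hu : 0 ≤ t - s := by linarith
  have hP := trans_stoch hQ hu
  have h1 := test_le_tv Q w x s (fun z => ∑ y ∈ A, trans Q (t - s) z y)
    (fun z => hP.set_nonneg z A) (fun z => hP.set_le_one z A)
  have e1 : ∑ y ∈ A, trans Q t x y = ∑ z, trans Q s x z * ∑ y ∈ A, trans Q (t - s) z y := by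
    have : trans Q t = trans Q s * trans Q (t - s) := by rw [← trans_add]; congr 1; ring
    rw [this]
    simp only [Matrix.mul_apply, Finset.mul_sum]
    rw [Finset.sum_comm]
  have e2 : ∑ y ∈ A, w y = ∑ z, w z * ∑ y ∈ A, trans Q (t - s) z y := by
    simp only [Finset.mul_sum]
    rw [Finset.sum_comm]
    exact Finset.sum_congr rfl (fun y _ => (trans_stat hQ hw y).symm)
  rw [e1, e2]
  exact h1

lemma continuous_trans (Q : Matrix S S ℝ) (x y : S) : Continuous (fun t => trans Q t x y) := by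
  have h : Continuous (fun t : ℝ => NormedSpace.exp (t • Q)) := by
    let _ : NormedRing (Matrix S S ℝ) := Matrix.linftyOpNormedRing
    let _ : NormedAlgebra ℝ (Matrix S S ℝ) := Matrix.linftyOpNormedAlgebra
    let _ : NormedAlgebra ℚ (Matrix S S ℝ) := NormedAlgebra.restrictScalars ℚ ℝ (Matrix S S ℝ)
    exact NormedSpace.exp_continuous.comp (continuous_id.smul continuous_const)
  exact (continuous_apply y).comp ((continuous_apply x).comp h)

lemma continuous_tv (Q : Matrix S S ℝ) (w : S → ℝ) (x : S) : Continuous (fun t => tv Q w x t) := by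
  unfold tv
  have h : ∀ A : Finset S, Continuous (fun t : ℝ => |∑ y ∈ A, trans Q t x y - ∑ y ∈ A, w y|) := by
    intro A
    exact ((continuous_finset_sum A (fun y _ => continuous_trans Q x y)).sub
      continuous_const).abs
  have h2 : (fun t => ⨆ A : Finset S, |∑ y ∈ A, trans Q t x y - ∑ y ∈ A, w y|) =
      fun t => Finset.univ.sup' Finset.univ_nonempty
        (fun A : Finset S => |∑ y ∈ A, trans Q t x y - ∑ y ∈ A, w y|) := by
    funext t
    rw [Finset.sup'_univ_eq_ciSup]
  rw [h2]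
  exact Continuous.finset_sup'_apply _ (fun A _ => h A)

/-- at the mixing time the distance is at most `1/4`, provided the chain mixes at all -/
lemma tv_of_tauFrom_le {Q : Matrix S S ℝ} (hQ : IsGenerator Q) {w : S → ℝ}
    (hw : IsStationary Q w) (x : S) (hne : {t : ℝ | 0 ≤ t ∧ tv Q w x t ≤ 1 / 4}.Nonempty)
    {m : ℝ} (hm : tauFrom Q w x ≤ m) : 0 ≤ m ∧ tv Q w x m ≤ 1 / 4 := by
  have hclosed : IsClosed {t : ℝ | 0 ≤ t ∧ tv Q w x t ≤ 1 / 4} :=
    (isClosed_le continuous_const continuous_id).inter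
      (isClosed_le (continuous_tv Q w x) continuous_const)
  have hbdd : BddBelow {t : ℝ | 0 ≤ t ∧ tv Q w x t ≤ 1 / 4} := ⟨0, fun t ht => ht.1⟩
  have hmem := hclosed.csInf_mem hne hbdd
  have h1 : 0 ≤ tauFrom Q w x := hmem.1
  have h2 : tv Q w x (tauFrom Q w x) ≤ 1 / 4 := hmem.2
  exact ⟨h1.trans hm, (tv_anti hQ hw x h1 hm).trans h2⟩

end Pool.Agent.MP_d1aba8_pr
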