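import Pool.Agent.Lib.MP_d1aba8_pr.Semi

namespace Pool.Agent.MP_d1aba8_pr

open scoped BigOperators Topology
open Filter

variable {S : Type} [Fintype S] [DecidableEq S]

/-- an irreducible chain reaches every state in a positive time -/
lemma trans_pos_of_irred {Q : Matrix S S ℝ} (hQ : IsGenerator Q) (hI : IsIrred Q) (x y : S) :
    0 < trans Q 1 x y := by
  obtain ⟨c, P, hc, hP, hQP⟩ := uniformise hQ
  have hreach : ∀ y, Relation.ReflTransGen (fun a b => a ≠ b ∧ 0 < Q a b) x y →
      ∃ r : ℕ, 0 < (P ^ r) x y := by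
    intro y h
    induction h with
    | refl => exact ⟨0, by simp⟩
    | @tail b d _ hbd ih =>
      obtain ⟨r, hr⟩ := ih
      refine ⟨r + 1, ?_⟩
      rw [pow_succ, Matrix.mul_apply]
      have h1 : 0 < P b d := by
        have h2 := hbd.2
        rw [hQP, Matrix.smul_apply, Matrix.sub_apply, Matrix.one_apply_ne hbd.1, sub_zero,
          smul_eq_mul] at h2
        exact pos_of_mul_pos_right h2 hc.le
      refine lt_of_lt_of_le (mul_pos hr h1) ?_
      exact Finset.single_le_sum (f := fun z => (P ^ r) x z * P z d)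
        (fun z _ => mul_nonneg ((hP.pow r).nonneg x z) (hP.nonneg z d)) (Finset.mem_univ b)
  obtain ⟨r, hr⟩ := hreach y (hI x y)
  rw [hQP, trans_smul, mul_one]
  have hs := hasSum_trans P c x y
  have hpw : 0 < pw c r := by unfold pw; positivity
  refine lt_of_lt_of_le (mul_pos hpw hr) ?_
  exact le_hasSum hs r (fun j _ => mul_nonneg (pw_nonneg hc.le j) ((hP.pow j).nonneg x y))

/-- an irreducible chain mixes -/
lemma mixes {Q : Matrix S S ℝ} (hQ : IsGenerator Q) (hI : IsIrred Q) {w : S → ℝ}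
    (hw : IsStationary Q w) (x : S) : {t : ℝ | 0 ≤ t ∧ tv Q w x t ≤ 1 / 4}.Nonempty := by
  have : Nonempty S := ⟨x⟩
  obtain ⟨d, hd0, hd⟩ : ∃ d : ℝ, 0 < d ∧ ∀ a b, d ≤ trans Q 1 a b := by
    obtain ⟨ab, hab⟩ := Finite.exists_min (fun ab : S × S => trans Q 1 ab.1 ab.2)
    exact ⟨_, trans_pos_of_irred hQ hI ab.1 ab.2, fun a b => hab (a, b)⟩
  have hP := trans_stoch hQ (zero_le_one' ℝ)
  have hw1 : ∀ y, w y ≤ 1 := by
    intro y
    rw [← hw.sum_one]
    exact Finset.single_le_sum (f := w) (fun i _ => hw.nonneg i) (Finset.mem_univ y)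
  have hd1 : d ≤ 1 := by
    have h1 : trans Q 1 x x ≤ ∑ y, trans Q 1 x y :=
      Finset.single_le_sum (f := fun y => trans Q 1 x y) (fun i _ => hP.nonneg x i)
        (Finset.mem_univ x)
    rw [hP.row_sum x] at h1
    exact (hd x x).trans h1
  have hdom : ∀ n : ℕ, ∀ a y, (1 - (1 - d) ^ n) * w y ≤ ((trans Q 1) ^ n) a y := by
    intro n
    induction n with
    | zero =>
      intro a y
      rw [pow_zero, sub_self, zero_mul]
      exact (IsStoch.one).nonneg a y
    | succ n ih =>
      intro a y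
      have e0 : ((trans Q 1) ^ (n + 1)) a y = ∑ z, trans Q 1 a z * ((trans Q 1) ^ n) z y := by
        rw [pow_succ' (trans Q 1) n, Matrix.mul_apply]
      rw [e0, pow_succ' (1 - d) n]
      have h1 : ∀ z, (trans Q 1 a z - d * w z) * ((1 - (1 - d) ^ n) * w y) +
          d * (w z * ((trans Q 1) ^ n) z y) ≤ trans Q 1 a z * ((trans Q 1) ^ n) z y := by
        intro z
        have h2 : 0 ≤ trans Q 1 a z - d * w z := by
          have h3 := hd a z
          have h4 : d * w z ≤ d * 1 := mul_le_mul_of_nonneg_left (hw1 z) hd0.le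
          linarith
        have h5 := mul_le_mul_of_nonneg_left (ih z y) h2
        linarith
      have h6 := Finset.sum_le_sum (fun z (_ : z ∈ Finset.univ) => h1 z)
      refine le_trans (le_of_eq ?_) h6
      rw [Finset.sum_add_distrib, ← Finset.sum_mul, ← Finset.mul_sum, Finset.sum_sub_distrib,
        ← Finset.mul_sum, hP.row_sum a, hw.sum_one, trans_pow, trans_stat hQ hw]
      ring
  have hlim : Tendsto (fun n : ℕ => (1 - d) ^ n) atTop (𝓝 0) :=
    tendsto_pow_atTop_nhds_zero_of_lt_one (by linarith) (by linarith)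
  obtain ⟨n, hn⟩ := ((tendsto_order.1 hlim).2 (1 / 4) (by norm_num)).exists
  refine ⟨(n : ℝ) * 1, by positivity, ?_⟩
  refine tv_le_of_sub hQ hw.sum_one (by positivity) (fun A => ?_)
  rw [← trans_pow]
  have h1 : ∀ B : Finset S, (1 - (1 - d) ^ n) * ∑ y ∈ B, w y ≤ ∑ y ∈ B, ((trans Q 1) ^ n) x y := by
    intro B
    rw [Finset.mul_sum]
    exact Finset.sum_le_sum (fun y _ => hdom n x y)
  have h2 := h1 Aᶜ
  have e1 : ∑ y ∈ A, ((trans Q 1) ^ n) x y + ∑ y ∈ Aᶜ, ((trans Q 1) ^ n) x y = 1 := by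
    exact (Finset.sum_add_sum_compl A _).trans ((hP.pow n).row_sum x)
  have e2 : ∑ y ∈ A, w y + ∑ y ∈ Aᶜ, w y = 1 := by
    rw [← hw.sum_one]; exact Finset.sum_add_sum_compl A w
  have h3 : 0 ≤ ∑ y ∈ A, w y := Finset.sum_nonneg (fun y _ => hw.nonneg y)
  have h4 : 0 ≤ ∑ y ∈ Aᶜ, w y := Finset.sum_nonneg (fun y _ => hw.nonneg y)
  have h5 : 0 ≤ (1 - d) ^ n := pow_nonneg (by linarith) n
  have h6 : ∑ y ∈ Aᶜ, w y ≤ 1 := by linarith
  nlinarith [mul_le_mul_of_nonneg_left h6 h5]

/-- probability of avoiding `G` at the times `0, …, n` -/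
noncomputable def avoid (P : Matrix S S ℝ) (G : Finset S) : ℕ → S → ℝ
  | 0 => fun x => if x ∈ G then 0 else 1
  | n + 1 => fun x => if x ∈ G then 0 else ∑ y, P x y * avoid P G n y

lemma avoid_nonneg {P : Matrix S S ℝ} (hP : IsStoch P) (G : Finset S) (n : ℕ) (x : S) :
    0 ≤ avoid P G n x := by
  induction n generalizing x with
  | zero => unfold avoid; split_ifs <;> norm_num
  | succ n ih =>
    unfold avoid
    split_ifs
    · exact le_rfl
    · exact Finset.sum_nonneg (fun y _ => mul_nonneg (hP.nonneg x y) (ih y))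

lemma avoid_lower {P : Matrix S S ℝ} (hP : IsStoch P) (G : Finset S) (n : ℕ) (x : S) :
    1 - ∑ s ∈ Finset.range (n + 1), ∑ z ∈ G, (P ^ s) x z ≤ avoid P G n x := by
  induction n generalizing x with
  | zero =>
    unfold avoid
    rw [Finset.sum_range_one, pow_zero]
    by_cases h : x ∈ G
    · rw [if_pos h]
      have : ∑ z ∈ G, (1 : Matrix S S ℝ) x z = 1 := by
        rw [Finset.sum_eq_single x]
        · exact Matrix.one_apply_eq x
        · intro b _ hb; exact Matrix.one_apply_ne (Ne.symm hb)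
        · intro h'; exact absurd h h'
      rw [this]; norm_num
    · rw [if_neg h]
      have : ∑ z ∈ G, (1 : Matrix S S ℝ) x z = 0 :=
        Finset.sum_eq_zero (fun z hz => Matrix.one_apply_ne (fun hxz => h (hxz ▸ hz)))
      rw [this]; norm_num
  | succ n ih =>
    by_cases h : x ∈ G
    · have e : avoid P G (n + 1) x = 0 := by unfold avoid; rw [if_pos h]
      rw [e]
      have h1 : (1 : ℝ) ≤ ∑ s ∈ Finset.range (n + 1 + 1), ∑ z ∈ G, (P ^ s) x z := by
        have h2 : ∑ z ∈ G, (P ^ 0) x z = 1 := by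
          rw [pow_zero, Finset.sum_eq_single x]
          · exact Matrix.one_apply_eq x
          · intro b _ hb; exact Matrix.one_apply_ne (Ne.symm hb)
          · intro h'; exact absurd h h'
        rw [← h2]
        exact Finset.single_le_sum (f := fun s => ∑ z ∈ G, (P ^ s) x z)
          (fun s _ => (hP.pow s).set_nonneg x G) (Finset.mem_range.2 (by omega))
      linarith
    · have e : avoid P G (n + 1) x = ∑ y, P x y * avoid P G n y := by
        conv_lhs => unfold avoid
        rw [if_neg h]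
      rw [e]
      have h1 : ∑ y, P x y * (1 - ∑ s ∈ Finset.range (n + 1), ∑ z ∈ G, (P ^ s) y z) ≤
          ∑ y, P x y * avoid P G n y :=
        Finset.sum_le_sum (fun y _ => mul_le_mul_of_nonneg_left (ih y) (hP.nonneg x y))
      refine le_trans ?_ h1
      have h2 : ∑ y, P x y * (1 - ∑ s ∈ Finset.range (n + 1), ∑ z ∈ G, (P ^ s) y z) =
          1 - ∑ s ∈ Finset.range (n + 1), ∑ z ∈ G, (P ^ (s + 1)) x z := by
        simp only [mul_sub, mul_one]
        rw [Finset.sum_sub_distrib, hP.row_sum x]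
        congr 1
        simp only [Finset.mul_sum]
        rw [Finset.sum_comm]
        refine Finset.sum_congr rfl (fun s _ => ?_)
        rw [Finset.sum_comm]
        refine Finset.sum_congr rfl (fun z _ => ?_)
        rw [pow_succ', Matrix.mul_apply]
      rw [h2, Finset.sum_range_succ' _ (n + 1)]
      have h3 : 0 ≤ ∑ z ∈ G, (P ^ 0) x z := (hP.pow 0).set_nonneg x G
      linarith

/-- telescoping identity: the flow out of `G` -/
lemma avoid_step {P : Matrix S S ℝ} {w : S → ℝ}
    (hst : ∀ y, ∑ x, w x * P x y = w y) (G : Finset S) (n : ℕ) :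
    ∑ x, w x * avoid P G n x - ∑ x, w x * avoid P G (n + 1) x =
      ∑ x ∈ G, w x * ∑ y, P x y * avoid P G n y := by
  have h1 : ∑ x, w x * avoid P G n x = ∑ x, w x * ∑ y, P x y * avoid P G n y := by
    simp only [Finset.mul_sum]
    rw [Finset.sum_comm]
    refine Finset.sum_congr rfl (fun y _ => ?_)
    have h := hst y
    calc w y * avoid P G n y = (∑ x, w x * P x y) * avoid P G n y := by rw [h]
      _ = ∑ x, w x * (P x y * avoid P G n y) := by
          rw [Finset.sum_mul]
          exact Finset.sum_congr rfl (fun x _ => by ring)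
  have h2 : ∀ x, w x * avoid P G (n + 1) x =
      if x ∈ G then 0 else w x * ∑ y, P x y * avoid P G n y := by
    intro x
    conv_lhs => unfold avoid
    by_cases h : x ∈ G
    · rw [if_pos h, if_pos h, mul_zero]
    · rw [if_neg h, if_neg h]
  rw [h1, Finset.sum_congr rfl (fun x _ => h2 x), ← Finset.sum_sub_distrib,
    ← Finset.sum_filter_add_sum_filter_not Finset.univ (fun x => x ∈ G)]
  have h3 : ∑ x with x ∉ G, (w x * ∑ y, P x y * avoid P G n y -
      (if x ∈ G then 0 else w x * ∑ y, P x y * avoid P G n y)) = 0 := by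
    refine Finset.sum_eq_zero (fun x hx => ?_)
    rw [Finset.mem_filter] at hx
    rw [if_neg hx.2, sub_self]
  rw [h3, add_zero]
  have h4 : Finset.univ.filter (fun x => x ∈ G) = G := by ext x; simp
  rw [h4]
  refine Finset.sum_congr rfl (fun x hx => ?_)
  rw [if_pos hx, sub_zero]

/-- The universal bound: in every irreducible chain, at `K` times the median mixing time, the set
of starts which are still unmixed has mass at most `1/4 + 1/(K (1 - (4/3) K ε))`. -/
theorem universal {Q : Matrix S S ℝ} (hQ : IsGenerator Q) (hI : IsIrred Q) {w : S → ℝ}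
    (hw : IsStationary Q w) {m : ℝ} (hm : IsMedian w (tauFrom Q w) m) (K : ℕ) (hK : 1 ≤ K)
    {ε : ℝ} (hε : 0 < ε) (hKε : 4 / 3 * (K : ℝ) * ε < 1) :
    ∑ x with 1 - ε < tv Q w x (K * m), w x ≤ 1 / 4 + 1 / (K * (1 - 4 / 3 * K * ε)) := by
  have hK0 : (0 : ℝ) < K := by exact_mod_cast hK
  set B : Finset S := Finset.univ.filter (fun x => 1 - ε < tv Q w x (K * m)) with hB
  set G : Finset S := Finset.univ.filter (fun x => tv Q w x m ≤ 1 / 4) with hG
  -- mass of G
  have hsub : Finset.univ.filter (fun x => tauFrom Q w x ≤ m) ⊆ G := by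
    intro x hx
    rw [Finset.mem_filter] at hx
    rw [hG, Finset.mem_filter]
    exact ⟨Finset.mem_univ _, (tv_of_tauFrom_le hQ hw x (mixes hQ hI hw x) hx.2).2⟩
  have hwG : 1 / 2 ≤ ∑ x ∈ G, w x :=
    hm.1.trans (Finset.sum_le_sum_of_subset_of_nonneg hsub (fun x _ _ => hw.nonneg x))
  have hm0 : 0 ≤ m := by
    by_contra hcon
    have : Finset.univ.filter (fun x => tauFrom Q w x ≤ m) = ∅ := by
      rw [Finset.filter_eq_empty_iff]
      intro x _ hx
      exact hcon (tv_of_tauFrom_le hQ hw x (mixes hQ hI hw x) hx).1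
    have h1 := hm.1
    rw [this, Finset.sum_empty] at h1
    norm_num at h1
  set P := trans Q m with hPdef
  have hP : IsStoch P := trans_stoch hQ hm0
  have hst : ∀ y, ∑ x, w x * P x y = w y := fun y => trans_stat hQ hw y
  set b := ∑ x ∈ B, w x with hb
  -- (1)
  have h1 : ∀ x ∈ G, b - 1 / 4 ≤ ∑ y ∈ B, P x y := by
    intro x hx
    rw [hG, Finset.mem_filter] at hx
    have h2 := (neg_le_abs _).trans (le_ciSup (bddAbove_tv Q w x m) B)
    have h3 : tv Q w x m = ⨆ A : Finset S, |∑ y ∈ A, trans Q m x y - ∑ y ∈ A, w y| := rfl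
    rw [← h3] at h2
    linarith [hx.2]
  -- (2)
  have h2 : ∀ y ∈ B, ∀ j : ℕ, j < K → ∑ z ∈ G, (P ^ j) y z ≤ 4 / 3 * ε := by
    intro y hy j hj
    rw [hB, Finset.mem_filter] at hy
    have h3 : tv Q w y (K * m) ≤ 1 - 3 / 4 * ∑ z ∈ G, (P ^ j) y z := by
      refine tv_le_of_sub hQ hw.sum_one (by positivity) (fun A => ?_)
      have e1 : trans Q ((K : ℝ) * m) = P ^ j * trans Q (((K - j : ℕ) : ℝ) * m) := by
        rw [hPdef, trans_pow, ← trans_add]
        congr 1
        rw [Nat.cast_sub hj.le]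
        ring
      have hu : (0 : ℝ) ≤ ((K - j : ℕ) : ℝ) * m := by positivity
      have hmu : m ≤ ((K - j : ℕ) : ℝ) * m := by
        have : (1 : ℝ) ≤ ((K - j : ℕ) : ℝ) := by
          have : 1 ≤ K - j := by omega
          exact_mod_cast this
        nlinarith
      have e2 : ∑ a ∈ A, trans Q ((K : ℝ) * m) y a - ∑ a ∈ A, w a =
          ∑ z, (P ^ j) y z * (∑ a ∈ A, trans Q (((K - j : ℕ) : ℝ) * m) z a - ∑ a ∈ A, w a) := by
        rw [e1]
        simp only [mul_sub]
        rw [Finset.sum_sub_distrib, ← Finset.sum_mul, (hP.pow j).row_sum y, one_mul]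
        congr 1
        simp only [Matrix.mul_apply, Finset.mul_sum]
        rw [Finset.sum_comm]
      rw [e2]
      have h4 : ∀ z, (P ^ j) y z *
          (∑ a ∈ A, trans Q (((K - j : ℕ) : ℝ) * m) z a - ∑ a ∈ A, w a) ≤
          (P ^ j) y z * (1 - if z ∈ G then 3 / 4 else 0) := by
        intro z
        refine mul_le_mul_of_nonneg_left ?_ ((hP.pow j).nonneg y z)
        refine (sub_le_tv Q w z _ A).trans ?_
        by_cases hz : z ∈ G
        · rw [if_pos hz]
          rw [hG, Finset.mem_filter] at hz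
          have := (tv_anti hQ hw z hm0 hmu).trans hz.2
          linarith
        · rw [if_neg hz, sub_zero]
          exact tv_le_one hQ hw.nonneg hw.sum_one z hu
      refine (Finset.sum_le_sum (fun z _ => h4 z)).trans (le_of_eq ?_)
      simp only [mul_sub, mul_one]
      rw [Finset.sum_sub_distrib, (hP.pow j).row_sum y]
      congr 1
      simp only [mul_ite, mul_zero]
      rw [Finset.sum_ite_mem, Finset.univ_inter, Finset.mul_sum]
      exact Finset.sum_congr rfl (fun z _ => by ring)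
    linarith [hy.2]
  -- (3)
  have h3 : ∀ y ∈ B, ∀ n : ℕ, n < K → 1 - 4 / 3 * K * ε ≤ avoid P G n y := by
    intro y hy n hn
    refine le_trans ?_ (avoid_lower hP G n y)
    have h4 : ∑ s ∈ Finset.range (n + 1), ∑ z ∈ G, (P ^ s) y z ≤
        ∑ s ∈ Finset.range (n + 1), 4 / 3 * ε :=
      Finset.sum_le_sum (fun s hs => h2 y hy s (by rw [Finset.mem_range] at hs; omega))
    rw [Finset.sum_const, Finset.card_range, nsmul_eq_mul] at h4
    have h5 : ((n + 1 : ℕ) : ℝ) ≤ K := by exact_mod_cast hn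
    have h6 : ((n + 1 : ℕ) : ℝ) * (4 / 3 * ε) ≤ K * (4 / 3 * ε) :=
      mul_le_mul_of_nonneg_right h5 (by positivity)
    linarith
  by_cases hb4 : b ≤ 1 / 4
  · have : 0 < 1 / (K * (1 - 4 / 3 * K * ε)) := by
      have : 0 < 1 - 4 / 3 * K * ε := by linarith
      positivity
    linarith
  push Not at hb4
  have hc : 0 < 1 - 4 / 3 * K * ε := by linarith
  -- (4) each step of the telescoping sum is large
  have h4 : ∀ n, n < K → 1 / 2 * ((b - 1 / 4) * (1 - 4 / 3 * K * ε)) ≤
      ∑ x, w x * avoid P G n x - ∑ x, w x * avoid P G (n + 1) x := by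
    intro n hn
    rw [avoid_step hst]
    have h5 : ∀ x ∈ G, w x * ((b - 1 / 4) * (1 - 4 / 3 * K * ε)) ≤
        w x * ∑ y, P x y * avoid P G n y := by
      intro x hx
      refine mul_le_mul_of_nonneg_left ?_ (hw.nonneg x)
      calc (b - 1 / 4) * (1 - 4 / 3 * K * ε) ≤ (∑ y ∈ B, P x y) * (1 - 4 / 3 * K * ε) :=
            mul_le_mul_of_nonneg_right (h1 x hx) hc.le
        _ = ∑ y ∈ B, P x y * (1 - 4 / 3 * K * ε) := by rw [Finset.sum_mul]
        _ ≤ ∑ y ∈ B, P x y * avoid P G n y :=
            Finset.sum_le_sum (fun y hy =>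
              mul_le_mul_of_nonneg_left (h3 y hy n hn) (hP.nonneg x y))
        _ ≤ ∑ y, P x y * avoid P G n y :=
            Finset.sum_le_univ_sum_of_nonneg
              (fun y => mul_nonneg (hP.nonneg x y) (avoid_nonneg hP G n y))
    refine le_trans ?_ (Finset.sum_le_sum h5)
    rw [← Finset.sum_mul]
    have h6 : 0 ≤ (b - 1 / 4) * (1 - 4 / 3 * K * ε) := mul_nonneg (by linarith) hc.le
    exact mul_le_mul_of_nonneg_right hwG h6
  have h5 : (K : ℝ) * (1 / 2 * ((b - 1 / 4) * (1 - 4 / 3 * K * ε))) ≤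
      ∑ x, w x * avoid P G 0 x - ∑ x, w x * avoid P G K x := by
    have h6 := Finset.sum_le_sum (fun n (hn : n ∈ Finset.range K) => h4 n (Finset.mem_range.1 hn))
    rw [Finset.sum_const, Finset.card_range, nsmul_eq_mul,
      Finset.sum_range_sub' (fun n => ∑ x, w x * avoid P G n x)] at h6
    exact h6
  have h6 : ∑ x, w x * avoid P G 0 x ≤ 1 / 2 := by
    have h7 : ∑ x, w x * avoid P G 0 x = ∑ x ∈ Gᶜ, w x := by
      rw [← Finset.sum_add_sum_compl G]
      have h8 : ∑ x ∈ G, w x * avoid P G 0 x = 0 := by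
        refine Finset.sum_eq_zero (fun x hx => ?_)
        unfold avoid; rw [if_pos hx, mul_zero]
      rw [h8, zero_add]
      refine Finset.sum_congr rfl (fun x hx => ?_)
      rw [Finset.mem_compl] at hx
      unfold avoid; rw [if_neg hx, mul_one]
    have h9 := Finset.sum_add_sum_compl G w
    rw [hw.sum_one] at h9
    linarith
  have h7 : 0 ≤ ∑ x, w x * avoid P G K x :=
    Finset.sum_nonneg (fun x _ => mul_nonneg (hw.nonneg x) (avoid_nonneg hP G K x))
  have h8 : (b - 1 / 4) * (K * (1 - 4 / 3 * K * ε)) ≤ 1 := by linarith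
  have h9 : b - 1 / 4 ≤ 1 / (K * (1 - 4 / 3 * K * ε)) := by
    rw [le_div_iff₀ (by positivity)]
    exact h8
  linarith

end Pool.Agent.MP_d1aba8_pr
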