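import Pool.Agent.Lib.MP_d1aba8_pr.Pois

namespace Pool.Agent.MP_d1aba8_pr

open scoped BigOperators
open Filter

variable {S : Type} [Fintype S] [DecidableEq S]

/-- stochastic matrix -/
structure IsStoch (P : Matrix S S ℝ) : Prop where
  nonneg : ∀ x y, 0 ≤ P x y
  row_sum : ∀ x, ∑ y, P x y = 1

lemma IsStoch.one : IsStoch (1 : Matrix S S ℝ) := by
  constructor
  · intro x y
    rw [Matrix.one_apply]; split_ifs <;> norm_num
  · intro x
    simp [Matrix.one_apply]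

lemma IsStoch.mul {P R : Matrix S S ℝ} (hP : IsStoch P) (hR : IsStoch R) : IsStoch (P * R) := by
  constructor
  · intro x y
    rw [Matrix.mul_apply]
    exact Finset.sum_nonneg (fun z _ => mul_nonneg (hP.nonneg x z) (hR.nonneg z y))
  · intro x
    simp only [Matrix.mul_apply]
    rw [Finset.sum_comm]
    simp only [← Finset.mul_sum, hR.row_sum, mul_one, hP.row_sum]

lemma IsStoch.pow {P : Matrix S S ℝ} (hP : IsStoch P) (r : ℕ) : IsStoch (P ^ r) := by
  induction r with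
  | zero => simpa using IsStoch.one
  | succ r ih => rw [pow_succ]; exact ih.mul hP

lemma IsStoch.set_nonneg {P : Matrix S S ℝ} (hP : IsStoch P) (x : S) (A : Finset S) :
    0 ≤ ∑ y ∈ A, P x y := Finset.sum_nonneg (fun y _ => hP.nonneg x y)

lemma IsStoch.set_le_one {P : Matrix S S ℝ} (hP : IsStoch P) (x : S) (A : Finset S) :
    ∑ y ∈ A, P x y ≤ 1 := by
  rw [← hP.row_sum x]
  exact Finset.sum_le_univ_sum_of_nonneg (fun y => hP.nonneg x y)

lemma bddAbove_tv (Q : Matrix S S ℝ) (w : S → ℝ) (x : S) (t : ℝ) :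
    BddAbove (Set.range (fun A : Finset S => |∑ y ∈ A, trans Q t x y - ∑ y ∈ A, w y|)) :=
  (Set.finite_range _).bddAbove

lemma sub_le_tv (Q : Matrix S S ℝ) (w : S → ℝ) (x : S) (t : ℝ) (A : Finset S) :
    ∑ y ∈ A, trans Q t x y - ∑ y ∈ A, w y ≤ tv Q w x t :=
  (le_abs_self _).trans (le_ciSup (bddAbove_tv Q w x t) A)

lemma tv_nonneg (Q : Matrix S S ℝ) (w : S → ℝ) (x : S) (t : ℝ) : 0 ≤ tv Q w x t := by
  have := sub_le_tv Q w x t ∅
  simpa using this

lemma tv_le {Q : Matrix S S ℝ} {w : S → ℝ} {x : S} {t c : ℝ}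
    (h : ∀ A : Finset S, |∑ y ∈ A, trans Q t x y - ∑ y ∈ A, w y| ≤ c) : tv Q w x t ≤ c :=
  ciSup_le h

/-- lower bound for the total variation distance: a set that is not left in `J` steps -/
lemma tv_lower {P : Matrix S S ℝ} (hP : IsStoch P) (w : S → ℝ) (x : S) {t : ℝ} (ht : 0 ≤ t)
    (J : ℕ) (A : Finset S) (hA : ∀ r ≤ J, ∑ y ∈ A, (P ^ r) x y = 1) :
    1 - Real.exp t / 2 ^ J - ∑ y ∈ A, w y ≤ tv (P - 1) w x t := by
  have h1 := sub_le_tv (P - 1) w x t A
  have h2 : ∑ r ∈ Finset.range (J + 1), pw t r ≤ ∑ y ∈ A, trans (P - 1) t x y := by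
    have h3 := hasSum_trans_set P t x A
    have h4 := sum_le_hasSum (Finset.range (J + 1))
      (fun r _ => mul_nonneg (pw_nonneg ht r) ((hP.pow r).set_nonneg x A)) h3
    refine le_trans (le_of_eq ?_) h4
    refine Finset.sum_congr rfl (fun r hr => ?_)
    rw [hA r (by simp only [Finset.mem_range] at hr; omega), mul_one]
  have h5 := pw_upper_tail ht J
  linarith

/-- upper bound for the total variation distance -/
lemma tv_upper {P : Matrix S S ℝ} (hP : IsStoch P) {w : S → ℝ} (hw0 : ∀ x, 0 ≤ w x)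
    (hw1 : ∑ x, w x = 1) (x : S) {t : ℝ} (ht : 0 ≤ t) (m : ℕ) {c : ℝ} (hc0 : 0 ≤ c)
    (hc : ∀ r, m ≤ r → ∀ A : Finset S, |∑ y ∈ A, (P ^ r) x y - ∑ y ∈ A, w y| ≤ c) :
    tv (P - 1) w x t ≤ ∑ r ∈ Finset.range m, pw t r + c := by
  refine tv_le (fun A => ?_)
  have hwA0 : 0 ≤ ∑ y ∈ A, w y := Finset.sum_nonneg (fun y _ => hw0 y)
  have hwA1 : ∑ y ∈ A, w y ≤ 1 := by
    rw [← hw1]; exact Finset.sum_le_univ_sum_of_nonneg (fun y => hw0 y)
  have h1 := hasSum_trans_set P t x A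
  have h2 := (hasSum_pw t).mul_right (∑ y ∈ A, w y)
  rw [one_mul] at h2
  have h3 := h1.sub h2
  have h4 : HasSum (fun r => if r ∈ Finset.range m then pw t r else 0)
      (∑ r ∈ Finset.range m, (if r ∈ Finset.range m then pw t r else 0)) :=
    hasSum_sum_of_ne_finset_zero (fun r hr => by simp [hr])
  have h5 := h4.add ((hasSum_pw t).mul_right c)
  rw [one_mul] at h5
  have h8 : ∑ r ∈ Finset.range m, (if r ∈ Finset.range m then pw t r else 0)
      = ∑ r ∈ Finset.range m, pw t r :=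
    Finset.sum_congr rfl (fun r hr => by simp only [hr, if_true])
  rw [h8] at h5
  have key : ∀ r, |pw t r * ∑ y ∈ A, (P ^ r) x y - pw t r * ∑ y ∈ A, w y| ≤
      (if r ∈ Finset.range m then pw t r else 0) + pw t r * c := by
    intro r
    rw [← mul_sub, abs_mul, abs_of_nonneg (pw_nonneg ht r)]
    by_cases hr : r ∈ Finset.range m
    · simp only [hr, if_true]
      have h6 : |∑ y ∈ A, (P ^ r) x y - ∑ y ∈ A, w y| ≤ 1 := by
        have ha := (hP.pow r).set_nonneg x A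
        have hb := (hP.pow r).set_le_one x A
        rw [abs_le]; constructor <;> linarith
      have h7 := mul_le_mul_of_nonneg_left h6 (pw_nonneg ht r)
      have h9 := mul_nonneg (pw_nonneg ht r) hc0
      linarith
    · simp only [hr, if_false, zero_add]
      have hm : m ≤ r := by simp only [Finset.mem_range, not_lt] at hr; exact hr
      exact mul_le_mul_of_nonneg_left (hc r hm A) (pw_nonneg ht r)
  rw [abs_le]
  constructor
  · have h6 := hasSum_le (fun r => (abs_le.1 (key r)).1) h5.neg h3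
    linarith
  · exact hasSum_le (fun r => (abs_le.1 (key r)).2) h3 h5

/-- domination gives closeness in total variation -/
lemma dom_abs_le {mu w : S → ℝ} (hmu0 : ∀ x, 0 ≤ mu x) (hmu1 : ∑ x, mu x = 1)
    (hw1 : ∑ x, w x = 1) {c : ℝ} (hc1 : c ≤ 1) (hdom : ∀ x, c * mu x ≤ w x) (A : Finset S) :
    |∑ y ∈ A, mu y - ∑ y ∈ A, w y| ≤ 1 - c := by
  have hA1 : ∀ B : Finset S, ∑ y ∈ B, mu y ≤ 1 := by
    intro B; rw [← hmu1]; exact Finset.sum_le_univ_sum_of_nonneg (fun y => hmu0 y)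
  have hA0 : ∀ B : Finset S, 0 ≤ ∑ y ∈ B, mu y := fun B => Finset.sum_nonneg (fun y _ => hmu0 y)
  have hB : ∀ B : Finset S, ∑ y ∈ B, mu y - ∑ y ∈ B, w y ≤ 1 - c := by
    intro B
    have h1 : c * ∑ y ∈ B, mu y ≤ ∑ y ∈ B, w y := by
      rw [Finset.mul_sum]; exact Finset.sum_le_sum (fun y _ => hdom y)
    have h2 := mul_le_mul_of_nonneg_left (hA1 B) (by linarith : (0 : ℝ) ≤ 1 - c)
    linarith
  have e1 : ∑ y ∈ A, mu y + ∑ y ∈ Aᶜ, mu y = 1 := by rw [← hmu1]; exact Finset.sum_add_sum_compl A mu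
  have e2 : ∑ y ∈ A, w y + ∑ y ∈ Aᶜ, w y = 1 := by rw [← hw1]; exact Finset.sum_add_sum_compl A w
  have h3 := hB A
  have h4 := hB Aᶜ
  rw [abs_le]; constructor <;> linarith

/-- domination is preserved by the dynamics -/
lemma dom_mul {mu w : S → ℝ} {P : Matrix S S ℝ} (hP : IsStoch P) {c : ℝ}
    (hdom : ∀ x, c * mu x ≤ w x) (hw : ∀ y, ∑ x, w x * P x y = w y) (y : S) :
    c * ∑ x, mu x * P x y ≤ w y := by
  rw [← hw y, Finset.mul_sum]
  refine Finset.sum_le_sum (fun x _ => ?_)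
  have := mul_le_mul_of_nonneg_right (hdom x) (hP.nonneg x y)
  linarith

lemma dom_pow {w : S → ℝ} {P : Matrix S S ℝ} (hP : IsStoch P) {c : ℝ} {x : S} {m : ℕ}
    (hdom : ∀ y, c * (P ^ m) x y ≤ w y) (hw : ∀ y, ∑ x, w x * P x y = w y) :
    ∀ r, m ≤ r → ∀ y, c * (P ^ r) x y ≤ w y := by
  intro r hr
  induction r, hr using Nat.le_induction with
  | base => exact hdom
  | succ r hr ih =>
    intro y
    have := dom_mul (mu := fun y => (P ^ r) x y) hP ih hw y
    rw [pow_succ, Matrix.mul_apply]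
    exact this

/-- combination: upper bound of the distance from a dominated start -/
lemma tv_upper_dom {P : Matrix S S ℝ} (hP : IsStoch P) {w : S → ℝ} (hw0 : ∀ x, 0 ≤ w x)
    (hw1 : ∑ x, w x = 1) (hw : ∀ y, ∑ x, w x * P x y = w y) (x : S) {t : ℝ} (ht : 0 ≤ t) (m : ℕ)
    {c : ℝ} (hc1 : c ≤ 1) (hdom : ∀ y, c * (P ^ m) x y ≤ w y) :
    tv (P - 1) w x t ≤ ∑ r ∈ Finset.range m, pw t r + (1 - c) :=
  tv_upper hP hw0 hw1 x ht m (by linarith) (fun r hr A =>
    dom_abs_le ((hP.pow r).nonneg x) ((hP.pow r).row_sum x) hw1 hc1 (dom_pow hP hdom hw r hr) A)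

end Pool.Agent.MP_d1aba8_pr
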